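import Pool.Agent.Lib.MP_452a87_nt.SGK.Spec

/-!
# Theorem SGK, module `KBr`: the cube theorem for principal logarithms
-/

set_option autoImplicit false

namespace Pool.Agent.SGK

open NumberField IsDedekindDomain Pool.Agent.SG

/-- The partial sums are small. -/
private theorem KBr_sum {k0 : ℕ} (hk : 0 < k0) (θ : Fin (4 * k0) → ℝ)
    (hθ : ∀ i, |θ i| * (4 * k0) ≤ 1) (S : Finset (Fin (4 * k0))) : |∑ i ∈ S, θ i| ≤ 1 := by
  have hk' : (0 : ℝ) < 4 * (k0 : ℝ) := by positivity
  calc |∑ i ∈ S, θ i| ≤ ∑ i ∈ S, |θ i| := Finset.abs_sum_le_sum_abs _ _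
    _ ≤ ∑ i : Fin (4 * k0), |θ i| :=
        Finset.sum_le_sum_of_subset_of_nonneg (Finset.subset_univ S) fun i _ _ => abs_nonneg _
    _ ≤ ∑ _i : Fin (4 * k0), 1 / (4 * (k0 : ℝ)) := by
        refine Finset.sum_le_sum fun i _ => ?_
        rw [le_div_iff₀ hk']
        exact hθ i
    _ = 1 := by
        rw [Finset.sum_const, Finset.card_univ, Fintype.card_fin, nsmul_eq_mul]
        push_cast
        field_simp

/-- Two disjoint subsets. -/
private theorem KBr_two {α : Type} [DecidableEq α] (A : Finset α) (k0 : ℕ) (h : 2 * k0 ≤ A.card) :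
    ∃ I1 I2 : Finset α, I1 ⊆ A ∧ I2 ⊆ A ∧ Disjoint I1 I2 ∧ I1.card = k0 ∧ I2.card = k0 := by
  obtain ⟨I1, h1, h2⟩ := Finset.exists_subset_card_eq (s := A) (n := k0) (by omega)
  have h3 : k0 ≤ (A \ I1).card := by
    rw [Finset.card_sdiff_of_subset h1]
    omega
  obtain ⟨I2, h4, h5⟩ := Finset.exists_subset_card_eq h3
  refine ⟨I1, I2, h1, h4.trans Finset.sdiff_subset, ?_, h2, h5⟩
  exact Finset.disjoint_of_subset_right h4 Finset.disjoint_sdiff

/-- The choice of the cube. -/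
private theorem KBr_comb {k0 : ℕ} (hk : 0 < k0) (θ : Fin (4 * k0) → ℝ) (a : ℝ)
    (ha : -Real.pi < a) (ha' : a ≤ Real.pi) (hθ : ∀ i, |θ i| * (4 * k0) ≤ 1) :
    ∃ (W0 J : Finset (Fin (4 * k0))) (ν : ℤ), J.card = k0 ∧ Disjoint W0 J ∧
      ∀ W' : Finset (Fin (4 * k0)), W' ⊆ J →
        -Real.pi < a + ∑ i ∈ W0 ∪ W', θ i + 2 * Real.pi * ν ∧
          a + ∑ i ∈ W0 ∪ W', θ i + 2 * Real.pi * ν ≤ Real.pi := by
  have hpi := Real.pi_gt_three
  have hcard : (Finset.univ.filter fun i => 0 ≤ θ i).card +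
      (Finset.univ.filter fun i => ¬ 0 ≤ θ i).card = 4 * k0 := by
    rw [Finset.card_filter_add_card_filter_not, Finset.card_univ, Fintype.card_fin]
  rcases le_total (2 * k0) (Finset.univ.filter fun i => 0 ≤ θ i).card with h | h
  · obtain ⟨I1, I2, h1, h2, hd, hc1, hc2⟩ := KBr_two _ k0 h
    have p1 : ∀ i ∈ I1, 0 ≤ θ i := fun i hi => (Finset.mem_filter.1 (h1 hi)).2
    have p2 : ∀ i ∈ I2, 0 ≤ θ i := fun i hi => (Finset.mem_filter.1 (h2 hi)).2
    by_cases hs : a + ∑ i ∈ I1, θ i ≤ Real.pi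
    · refine ⟨∅, I1, 0, hc1, Finset.disjoint_empty_left _, fun W' hW => ?_⟩
      rw [Finset.empty_union]
      have q1 : 0 ≤ ∑ i ∈ W', θ i := Finset.sum_nonneg fun i hi => p1 i (hW hi)
      have q2 : ∑ i ∈ W', θ i ≤ ∑ i ∈ I1, θ i :=
        Finset.sum_le_sum_of_subset_of_nonneg hW fun i hi _ => p1 i hi
      push_cast
      constructor <;> linarith
    · refine ⟨I1, I2, -1, hc2, hd, fun W' hW => ?_⟩
      have hd' : Disjoint I1 W' := Finset.disjoint_of_subset_right hW hd
      have q0 := KBr_sum hk θ hθ (I1 ∪ W')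
      rw [abs_le] at q0
      rw [Finset.sum_union hd'] at q0 ⊢
      have q1 : 0 ≤ ∑ i ∈ W', θ i := Finset.sum_nonneg fun i hi => p2 i (hW hi)
      push_cast
      constructor <;> linarith [q0.2]
  · have h' : 2 * k0 ≤ (Finset.univ.filter fun i => ¬ 0 ≤ θ i).card := by omega
    obtain ⟨I1, I2, h1, h2, hd, hc1, hc2⟩ := KBr_two _ k0 h'
    have p1 : ∀ i ∈ I1, 0 ≤ -θ i := fun i hi => by
      have := (Finset.mem_filter.1 (h1 hi)).2
      linarith [not_le.1 this]
    have p2 : ∀ i ∈ I2, 0 ≤ -θ i := fun i hi => by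
      have := (Finset.mem_filter.1 (h2 hi)).2
      linarith [not_le.1 this]
    by_cases hs : -Real.pi < a + ∑ i ∈ I1, θ i
    · refine ⟨∅, I1, 0, hc1, Finset.disjoint_empty_left _, fun W' hW => ?_⟩
      rw [Finset.empty_union]
      have q1 : 0 ≤ ∑ i ∈ W', -θ i := Finset.sum_nonneg fun i hi => p1 i (hW hi)
      have q2 : ∑ i ∈ W', -θ i ≤ ∑ i ∈ I1, -θ i :=
        Finset.sum_le_sum_of_subset_of_nonneg hW fun i hi _ => p1 i hi
      rw [Finset.sum_neg_distrib] at q1 q2
      rw [Finset.sum_neg_distrib] at q2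
      push_cast
      constructor <;> linarith
    · refine ⟨I1, I2, 1, hc2, hd, fun W' hW => ?_⟩
      have hd' : Disjoint I1 W' := Finset.disjoint_of_subset_right hW hd
      have q0 := KBr_sum hk θ hθ (I1 ∪ W')
      rw [abs_le] at q0
      rw [Finset.sum_union hd'] at q0 ⊢
      have q1 : 0 ≤ ∑ i ∈ W', -θ i := Finset.sum_nonneg fun i hi => p2 i (hW hi)
      rw [Finset.sum_neg_distrib] at q1
      have hs' := not_lt.1 hs
      push_cast
      constructor <;> linarith [q0.1]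

/-- The exponentials. -/
private theorem KBr_exp {k : ℕ} (c : ℂ) (hc : c ≠ 0) (z : Bool → Fin k → ℂ)
    (hz : ∀ s i, z s i ≠ 0) (W : Finset (Fin k)) :
    Complex.exp (Complex.log (c * ∏ i, z false i) +
      ∑ i ∈ W, (Complex.log (z true i) - Complex.log (z false i))) =
      c * ∏ i, z (decide (i ∈ W)) i := by
  have h0 : c * ∏ i, z false i ≠ 0 :=
    mul_ne_zero hc (Finset.prod_ne_zero_iff.2 fun i _ => hz false i)
  rw [Complex.exp_add, Complex.exp_log h0, Complex.exp_sum, mul_assoc]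
  have h1 : ∏ i ∈ W, Complex.exp (Complex.log (z true i) - Complex.log (z false i)) =
      ∏ i : Fin k, (if i ∈ W then z true i / z false i else 1) := by
    rw [Finset.prod_ite_mem, Finset.univ_inter]
    refine Finset.prod_congr rfl fun i _ => ?_
    rw [Complex.exp_sub, Complex.exp_log (hz true i), Complex.exp_log (hz false i)]
  rw [h1, ← Finset.prod_mul_distrib]
  congr 1
  refine Finset.prod_congr rfl fun i _ => ?_
  by_cases hi : i ∈ W
  · rw [if_pos hi, decide_eq_true hi, mul_div_cancel₀ _ (hz false i)]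
  · rw [if_neg hi, decide_eq_false hi, mul_one]

/-- **The cube theorem for principal logarithms.** -/
theorem pKBr : S_BMn → S_BVf → S_BBa → S_KBr := by
  intro hMn hVf hBa e F hF hfin lam c z hlam hc hc0 hz hli hsm
  have hk : 0 < kk e := by
    unfold kk
    positivity
  have hz0 : ∀ s i, z s i ≠ 0 := fun s i => (hz s i).2
  set L : Fin (4 * kk e) → ℂ := fun i => Complex.log (z true i) - Complex.log (z false i) with hL
  set ell : ℂ := Complex.log (c * ∏ i, z false i) with hell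
  have hsm' : ∀ i, |(L i).im| * (4 * (kk e : ℝ)) ≤ 1 := fun i => by exact_mod_cast hsm i
  obtain ⟨W0, J, ν, hJ, hd, hW⟩ := KBr_comb hk (fun i => (L i).im) ell.im
    (Complex.neg_pi_lt_log_im _) (Complex.log_im_le_pi _) hsm'
  have hlog : ∀ W' : Finset (Fin (4 * kk e)), W' ⊆ J →
      Complex.log (c * ∏ i, z (decide (i ∈ W0 ∪ W')) i) =
        ell + ∑ i ∈ W0 ∪ W', L i + 2 * Real.pi * Complex.I * ν := by
    intro W' hW'
    obtain ⟨h1, h2⟩ := hW W' hW'
    have him : (ell + ∑ i ∈ W0 ∪ W', L i + 2 * Real.pi * Complex.I * ν).im =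
        ell.im + ∑ i ∈ W0 ∪ W', (L i).im + 2 * Real.pi * ν := by
      rw [Complex.add_im, Complex.add_im, Complex.im_sum]
      congr 1
      simp
    have h3 : Complex.exp (ell + ∑ i ∈ W0 ∪ W', L i + 2 * Real.pi * Complex.I * ν) =
        c * ∏ i, z (decide (i ∈ W0 ∪ W')) i := by
      rw [Complex.exp_add, KBr_exp c hc0 z hz0 (W0 ∪ W')]
      have h4 : Complex.exp (2 * Real.pi * Complex.I * ν) = 1 := by
        rw [mul_comm]
        exact Complex.exp_int_mul_two_pi_mul_I ν
      rw [h4, mul_one]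
    rw [← h3, Complex.log_exp]
    · rw [him]
      exact h1
    · rw [him]
      exact h2
  obtain ⟨v, hv1, hv2, hv3⟩ := hBa e F hF hfin
  set g : Fin (kk e) → Fin (4 * kk e) := fun l => ((Finset.equivFinOfCardEq hJ).symm l : J)
    with hg
  have hginj : Function.Injective g := by
    intro l l' h
    exact (Finset.equivFinOfCardEq hJ).symm.injective (Subtype.ext h)
  have hgJ : ∀ l, g l ∈ J := fun l => ((Finset.equivFinOfCardEq hJ).symm l : J).2
  have halg : ∀ i, IsAlgebraic ℚ (Complex.exp (L i)) := by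
    intro i
    rw [hL]
    dsimp only
    rw [Complex.exp_sub, Complex.exp_log (hz0 true i), Complex.exp_log (hz0 false i),
      div_eq_mul_inv]
    exact (hz true i).1.mul (hz false i).1.inv
  obtain ⟨W'', hW''⟩ := hMn e (kk e) v
    (lam + ell + ∑ i ∈ W0, L i + 2 * Real.pi * Complex.I * ν) (fun l => L (g l)) hv1
    (fun j => (hv2 j).2) (hli.comp g hginj) (fun l => halg (g l)) le_rfl
  have hsub : W''.image g ⊆ J := by
    intro i hi
    obtain ⟨l, _, rfl⟩ := Finset.mem_image.1 hi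
    exact hgJ l
  refine ⟨W0 ∪ W''.image g, ?_⟩
  have hd' : Disjoint W0 (W''.image g) := Finset.disjoint_of_subset_right hsub hd
  have heq : lam + Complex.log (c * ∏ i, z (decide (i ∈ W0 ∪ W''.image g)) i) =
      lam + ell + ∑ i ∈ W0, L i + 2 * Real.pi * Complex.I * ν + ∑ l ∈ W'', L (g l) := by
    rw [hlog _ hsub, Finset.sum_union hd', Finset.sum_image fun x _ y _ h => hginj h]
    ring
  refine hVf e F v _ hv1 hv2 hv3 ?_ ?_
  · rw [Complex.exp_add, Complex.exp_log]
    · refine hlam.mul (hc.mul ?_)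
      exact Finset.prod_induction _ (fun x => IsAlgebraic ℚ x) (fun _ _ h h' => h.mul h')
        isAlgebraic_one fun i _ => (hz _ i).1
    · exact mul_ne_zero hc0 (Finset.prod_ne_zero_iff.2 fun i _ => hz0 _ i)
  · rw [heq]
    exact hW''

end Pool.Agent.SGK
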