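import Pool.Agent.Lib.MP_452a87_nt.SGK.Spec

set_option autoImplicit false

namespace Pool.Agent.SGK

open NumberField IsDedekindDomain Pool.Agent.SG

namespace KClAux

open scoped Classical in
/-- Blocks. -/
def Blk {X : Type} (N : X → ℕ) {M : ℕ} (col : X → Fin M) (R N1 : ℕ) (P : Finset X) : Prop :=
  P.card = R ∧ ∀ v ∈ P, N1 < N v ∧ ∀ w ∈ P, N v ≤ 2 * N w ∧ col v = col w

theorem cells {X : Type} (N : X → ℕ) {M : ℕ} (col : X → Fin M) (R N1 : ℕ) (Y : Finset X)
    (hY : ∀ v ∈ Y, N1 < N v) (hno : ∀ P ⊆ Y, ¬ Blk N col R N1 P) :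
    ∑ v ∈ Y, (1 : ℝ) / N v ≤ 2 * M * R := by
  classical
  -- the cell map
  set f : X → ℕ × Fin M := fun v => (Nat.log 2 (N v), col v) with hf
  obtain ⟨T, hT⟩ : ∃ T : ℕ, ∀ v ∈ Y, Nat.log 2 (N v) < T := by
    refine ⟨(Y.sup fun v => Nat.log 2 (N v)) + 1, fun v hv => ?_⟩
    exact Nat.lt_succ_of_le (Finset.le_sup (f := fun v => Nat.log 2 (N v)) hv)
  have hmaps : ∀ v ∈ Y, f v ∈ (Finset.range T) ×ˢ (Finset.univ : Finset (Fin M)) := by
    intro v hv
    simp only [hf, Finset.mem_product, Finset.mem_range, Finset.mem_univ, and_true]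
    exact hT v hv
  rw [← Finset.sum_fiberwise_of_maps_to hmaps]
  have hcell : ∀ p ∈ (Finset.range T) ×ˢ (Finset.univ : Finset (Fin M)),
      ∑ v ∈ Y.filter (fun v => f v = p), (1 : ℝ) / N v ≤ R * (1 / 2) ^ p.1 := by
    intro p _
    have hlt : (Y.filter fun v => f v = p).card < R := by
      by_contra hcon
      push Not at hcon
      obtain ⟨P, hP, hPc⟩ := Finset.exists_subset_card_eq hcon
      refine hno P (hP.trans (Finset.filter_subset _ _)) ⟨hPc, fun v hv => ?_⟩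
      have hv1 := Finset.mem_filter.mp (hP hv)
      refine ⟨hY v hv1.1, fun w hw => ?_⟩
      have hw1 := Finset.mem_filter.mp (hP hw)
      have hvp : Nat.log 2 (N v) = p.1 := congrArg Prod.fst hv1.2
      have hwp : Nat.log 2 (N w) = p.1 := congrArg Prod.fst hw1.2
      have hvc : col v = p.2 := congrArg Prod.snd hv1.2
      have hwc : col w = p.2 := congrArg Prod.snd hw1.2
      refine ⟨?_, hvc.trans hwc.symm⟩
      have h1 : N v < 2 ^ (p.1 + 1) := by
        have := Nat.lt_pow_succ_log_self (b := 2) one_lt_two (N v)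
        rwa [hvp] at this
      have h2 : 2 ^ p.1 ≤ N w := by
        have hw0 : N w ≠ 0 := by have := hY w hw1.1; omega
        have := Nat.pow_log_le_self 2 hw0
        rwa [hwp] at this
      rw [pow_succ] at h1
      omega
    have hterm : ∀ v ∈ Y.filter (fun v => f v = p), (1 : ℝ) / N v ≤ (1 / 2) ^ p.1 := by
      intro v hv
      have hv1 := Finset.mem_filter.mp hv
      have hvp : Nat.log 2 (N v) = p.1 := congrArg Prod.fst hv1.2
      have hv0 : N v ≠ 0 := by have := hY v hv1.1; omega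
      have h2 : 2 ^ p.1 ≤ N v := by
        have := Nat.pow_log_le_self 2 hv0
        rwa [hvp] at this
      rw [one_div_pow]
      apply one_div_le_one_div_of_le
      · positivity
      · exact_mod_cast h2
    calc ∑ v ∈ Y.filter (fun v => f v = p), (1 : ℝ) / N v
        ≤ ∑ v ∈ Y.filter (fun v => f v = p), (1 / 2 : ℝ) ^ p.1 := Finset.sum_le_sum hterm
      _ = ((Y.filter fun v => f v = p).card : ℝ) * (1 / 2) ^ p.1 := by rw [Finset.sum_const, nsmul_eq_mul]
      _ ≤ R * (1 / 2) ^ p.1 := by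
          apply mul_le_mul_of_nonneg_right _ (by positivity)
          exact_mod_cast hlt.le
  refine (Finset.sum_le_sum hcell).trans ?_
  rw [Finset.sum_product]
  simp only [Finset.sum_const, Finset.card_univ, Fintype.card_fin, nsmul_eq_mul]
  have hgeo : ∑ t ∈ Finset.range T, (1 / 2 : ℝ) ^ t ≤ 2 := by
    have h := sum_le_hasSum (Finset.range T) (fun i _ => by positivity) (hasSum_geometric_two)
    exact h
  calc ∑ t ∈ Finset.range T, (M : ℝ) * (R * (1 / 2) ^ t) = M * R * ∑ t ∈ Finset.range T, (1 / 2 : ℝ) ^ t := by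
        rw [Finset.mul_sum]; exact Finset.sum_congr rfl fun t _ => by ring
    _ ≤ M * R * 2 := mul_le_mul_of_nonneg_left hgeo (by positivity)
    _ = 2 * M * R := by ring

theorem claim {X : Type} (N : X → ℕ) {M : ℕ} (col : X → Fin M) (hfin : ∀ x : ℕ, {v | N v ≤ x}.Finite)
    (hdiv : ¬ Summable fun v => (1 : ℝ) / N v) (R N1 : ℕ) (hR : 1 ≤ R) (Z : Finset X) (σ0 : ℝ) :
    ∃ G : Finset (Finset X), (∀ P ∈ G, Blk N col R N1 P ∧ Disjoint P Z) ∧
      (∀ P ∈ G, ∀ P' ∈ G, P ≠ P' → Disjoint P P') ∧ σ0 ≤ ∑ P ∈ G, ∑ v ∈ P, (1 : ℝ) / N v := by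
  classical
  set S0 : Finset X := (hfin N1).toFinset with hS0
  -- a large finite set
  obtain ⟨Y0, hY0⟩ : ∃ Y0 : Finset X, σ0 + 2 * M * R + ∑ v ∈ Z, (1 : ℝ) / N v + ∑ v ∈ S0, (1 : ℝ) / N v ≤
      ∑ v ∈ Y0, (1 : ℝ) / N v := by
    by_contra hcon
    push Not at hcon
    exact hdiv (summable_of_sum_le (fun v => by positivity) fun u => (hcon u).le)
  set X0 : Finset X := Y0.filter (fun v => v ∉ Z ∧ N1 < N v) with hX0
  have hX0sum : σ0 + 2 * M * R ≤ ∑ v ∈ X0, (1 : ℝ) / N v := by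
    have hsub : Y0 ⊆ X0 ∪ (Z ∪ S0) := by
      intro v hv
      by_cases h1 : v ∈ Z
      · simp [h1]
      by_cases h2 : N1 < N v
      · simp [hX0, hv, h1, h2]
      · have : v ∈ S0 := by simp only [hS0, Set.Finite.mem_toFinset, Set.mem_ofPred_eq]; omega
        simp [this]
    have h1 : ∑ v ∈ Y0, (1 : ℝ) / N v ≤ ∑ v ∈ X0 ∪ (Z ∪ S0), (1 : ℝ) / N v :=
      Finset.sum_le_sum_of_subset_of_nonneg hsub fun v _ _ => by positivity
    have hun : ∀ A B : Finset X, ∑ v ∈ A ∪ B, (1 : ℝ) / N v ≤ ∑ v ∈ A, (1 : ℝ) / N v + ∑ v ∈ B, (1 : ℝ) / N v := by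
      intro A B
      have h := Finset.sum_union_inter (s₁ := A) (s₂ := B) (f := fun v => (1 : ℝ) / N v)
      have h3 : 0 ≤ ∑ v ∈ A ∩ B, (1 : ℝ) / N v := Finset.sum_nonneg fun v _ => by positivity
      linarith
    have h2 := hun X0 (Z ∪ S0)
    have h3 := hun Z S0
    linarith
  -- a maximal family
  set Fam : Finset (Finset (Finset X)) := X0.powerset.powerset.filter fun G =>
    (∀ P ∈ G, Blk N col R N1 P) ∧ ∀ P ∈ G, ∀ P' ∈ G, P ≠ P' → Disjoint P P' with hFam
  have hne : Fam.Nonempty := ⟨∅, by simp [hFam]⟩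
  obtain ⟨G, hG, hmax⟩ := Finset.exists_max_image Fam Finset.card hne
  have hG1 := Finset.mem_filter.mp hG
  have hGsub : ∀ P ∈ G, P ⊆ X0 := by
    intro P hP
    have := Finset.mem_powerset.mp hG1.1 hP
    exact Finset.mem_powerset.mp this
  set U : Finset X := G.biUnion id with hU
  have hrest : ∀ P ⊆ X0 \ U, ¬ Blk N col R N1 P := by
    intro P hP hB
    have hPX : P ⊆ X0 := hP.trans Finset.sdiff_subset
    have hPd : ∀ P' ∈ G, Disjoint P P' := by
      intro P' hP'
      rw [Finset.disjoint_left]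
      intro v hv hv'
      have := Finset.mem_sdiff.mp (hP hv)
      exact this.2 (Finset.mem_biUnion.mpr ⟨P', hP', hv'⟩)
    have hPn : P.Nonempty := by
      rw [← Finset.card_pos, hB.1]; exact hR
    have hPG : P ∉ G := by
      intro h
      have hself := hPd P h
      obtain ⟨z, hz⟩ := hPn
      exact (Finset.disjoint_left.mp hself hz) hz
    have hin : insert P G ∈ Fam := by
      rw [hFam, Finset.mem_filter]
      refine ⟨?_, ?_, ?_⟩
      · rw [Finset.mem_powerset]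
        intro Q hQ
        rcases Finset.mem_insert.mp hQ with rfl | hQ
        · exact Finset.mem_powerset.mpr hPX
        · exact Finset.mem_powerset.mpr (hGsub Q hQ)
      · intro Q hQ
        rcases Finset.mem_insert.mp hQ with rfl | hQ
        · exact hB
        · exact hG1.2.1 Q hQ
      · intro Q hQ Q' hQ' hne'
        rcases Finset.mem_insert.mp hQ with h1 | h1 <;> rcases Finset.mem_insert.mp hQ' with h2 | h2
        · exact absurd (h1.trans h2.symm) hne'
        · rw [h1]; exact hPd Q' h2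
        · rw [h2]; exact (hPd Q h1).symm
        · exact hG1.2.2 Q h1 Q' h2 hne'
    have := hmax _ hin
    rw [Finset.card_insert_of_notMem hPG] at this
    omega
  have hYc := cells N col R N1 (X0 \ U) (fun v hv => by
    have := (Finset.mem_filter.mp (Finset.mem_sdiff.mp hv).1).2
    exact this.2) hrest
  have hUX : U ⊆ X0 := by
    intro v hv
    obtain ⟨P, hP, hvP⟩ := Finset.mem_biUnion.mp hv
    exact hGsub P hP hvP
  have hsplit : ∑ v ∈ X0 \ U, (1 : ℝ) / N v + ∑ v ∈ U, (1 : ℝ) / N v = ∑ v ∈ X0, (1 : ℝ) / N v :=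
    Finset.sum_sdiff hUX
  have hUsum : ∑ v ∈ U, (1 : ℝ) / N v = ∑ P ∈ G, ∑ v ∈ P, (1 : ℝ) / N v := by
    rw [hU, Finset.sum_biUnion]
    · rfl
    · intro P hP P' hP' hne'
      exact hG1.2.2 P hP P' hP' hne'
  refine ⟨G, fun P hP => ⟨hG1.2.1 P hP, ?_⟩, hG1.2.2, ?_⟩
  · rw [Finset.disjoint_left]
    intro v hv hvZ
    exact (Finset.mem_filter.mp (hGsub P hP hv)).2.1 hvZ
  · rw [← hUsum]; linarith

theorem trim {X : Type} (N : X → ℕ) {M : ℕ} (col : X → Fin M) (hfin : ∀ x : ℕ, {v | N v ≤ x}.Finite)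
    (hdiv : ¬ Summable fun v => (1 : ℝ) / N v) (R N1 : ℕ) (hR : 1 ≤ R) (hN1 : R ≤ N1) (Z : Finset X) (σ0 : ℝ) (hσ : 0 ≤ σ0) :
    ∃ G : Finset (Finset X), (∀ P ∈ G, Blk N col R N1 P ∧ Disjoint P Z) ∧
      (∀ P ∈ G, ∀ P' ∈ G, P ≠ P' → Disjoint P P') ∧ σ0 ≤ ∑ P ∈ G, ∑ v ∈ P, (1 : ℝ) / N v ∧
      ∑ P ∈ G, ∑ v ∈ P, (1 : ℝ) / N v ≤ σ0 + 1 := by
  classical
  obtain ⟨G0, h1, h2, h3⟩ := claim N col hfin hdiv R N1 hR Z σ0
  set Fam : Finset (Finset (Finset X)) := G0.powerset.filter fun G => σ0 ≤ ∑ P ∈ G, ∑ v ∈ P, (1 : ℝ) / N v with hFam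
  have hne : Fam.Nonempty := ⟨G0, by simp only [hFam, Finset.mem_filter, Finset.mem_powerset]; exact ⟨subset_rfl, h3⟩⟩
  obtain ⟨G, hG, hmin⟩ := Finset.exists_min_image Fam Finset.card hne
  have hG1 := Finset.mem_filter.mp hG
  have hsub : G ⊆ G0 := Finset.mem_powerset.mp hG1.1
  refine ⟨G, fun P hP => h1 P (hsub hP), fun P hP P' hP' => h2 P (hsub hP) P' (hsub hP'), hG1.2, ?_⟩
  by_contra hcon
  push Not at hcon
  have hGn : G.Nonempty := by
    rw [Finset.nonempty_iff_ne_empty]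
    rintro rfl
    simp at hcon
    linarith
  obtain ⟨P, hP⟩ := hGn
  have hs : ∑ v ∈ P, (1 : ℝ) / N v ≤ 1 := by
    have hB := (h1 P (hsub hP)).1
    have hR0 : (0 : ℝ) < R := by exact_mod_cast hR
    calc ∑ v ∈ P, (1 : ℝ) / N v ≤ ∑ v ∈ P, (1 : ℝ) / R := by
          refine Finset.sum_le_sum fun v hv => one_div_le_one_div_of_le hR0 ?_
          have := (hB.2 v hv).1
          exact_mod_cast (hN1.trans this.le)
      _ = 1 := by rw [Finset.sum_const, hB.1, nsmul_eq_mul]; field_simp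
  have hin : G.erase P ∈ Fam := by
    rw [hFam, Finset.mem_filter, Finset.mem_powerset]
    refine ⟨(Finset.erase_subset _ _).trans hsub, ?_⟩
    have := Finset.add_sum_erase G (fun P => ∑ v ∈ P, (1 : ℝ) / N v) hP
    linarith
  have := hmin _ hin
  rw [Finset.card_erase_of_mem hP] at this
  have hpos : 0 < G.card := Finset.card_pos.mpr ⟨P, hP⟩
  omega

theorem iter {X : Type} (N : X → ℕ) {M : ℕ} (col : X → Fin M) (hfin : ∀ x : ℕ, {v | N v ≤ x}.Finite)
    (hdiv : ¬ Summable fun v => (1 : ℝ) / N v) (R N1 : ℕ) (hR : 1 ≤ R) (hN1 : R ≤ N1) (σ0 : ℝ) (hσ : 0 ≤ σ0) :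
    ∀ (k : ℕ) (Z : Finset X), ∃ G : Fin k → Finset (Finset X),
      (∀ i, ∀ P ∈ G i, Blk N col R N1 P ∧ Disjoint P Z) ∧
      (∀ i, ∀ P ∈ G i, ∀ j, ∀ P' ∈ G j, (i ≠ j ∨ P ≠ P') → Disjoint P P') ∧
      ∀ i, σ0 ≤ ∑ P ∈ G i, ∑ v ∈ P, (1 : ℝ) / N v ∧ ∑ P ∈ G i, ∑ v ∈ P, (1 : ℝ) / N v ≤ σ0 + 1 := by
  classical
  intro k
  induction k with
  | zero => intro Z; exact ⟨fun i => i.elim0, fun i => i.elim0, fun i => i.elim0, fun i => i.elim0⟩
  | succ k ih =>
    intro Z
    obtain ⟨G0, h1, h2, h3, h4⟩ := trim N col hfin hdiv R N1 hR hN1 Z σ0 hσ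
    obtain ⟨G, g1, g2, g3⟩ := ih (Z ∪ G0.biUnion id)
    refine ⟨Fin.cons G0 G, ?_, ?_, ?_⟩
    · intro i
      refine Fin.cases ?_ (fun i => ?_) i
      · exact h1
      · intro P hP
        rw [Fin.cons_succ] at hP
        refine ⟨(g1 i P hP).1, ?_⟩
        exact Finset.disjoint_of_subset_right Finset.subset_union_left (g1 i P hP).2
    · intro i P hP j P' hP' hne
      have key : ∀ (i : Fin k) (P : Finset X), P ∈ G i → ∀ P' ∈ G0, Disjoint P P' := by
        intro i P hP P' hP'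
        refine Finset.disjoint_of_subset_right ?_ (g1 i P hP).2
        intro v hv
        exact Finset.mem_union_right _ (Finset.mem_biUnion.mpr ⟨P', hP', hv⟩)
      induction i using Fin.cases with
      | zero =>
        induction j using Fin.cases with
        | zero =>
          rw [Fin.cons_zero] at hP hP'
          rcases hne with h | h
          · exact absurd rfl h
          · exact h2 P hP P' hP' h
        | succ j =>
          rw [Fin.cons_zero] at hP
          rw [Fin.cons_succ] at hP'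
          exact (key j P' hP' P hP).symm
      | succ i =>
        induction j using Fin.cases with
        | zero =>
          rw [Fin.cons_zero] at hP'
          rw [Fin.cons_succ] at hP
          exact key i P hP P' hP'
        | succ j =>
          rw [Fin.cons_succ] at hP hP'
          refine g2 i P hP j P' hP' ?_
          rcases hne with h | h
          · exact Or.inl fun hij => h (by rw [hij])
          · exact Or.inr h
    · intro i
      refine Fin.cases ?_ (fun i => ?_) i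
      · exact ⟨h3, h4⟩
      · exact g3 i

end KClAux

theorem pKCl : S_KCl := by
  intro X N M col hfin hdiv R k N0 σ0 hR hσ
  obtain ⟨G, g1, g2, g3⟩ := KClAux.iter N col hfin hdiv R (max N0 R) hR (le_max_right _ _) σ0 hσ k ∅
  refine ⟨G, fun i P hP => ⟨(g1 i P hP).1.1, fun v hv => ?_⟩, g2, g3⟩
  have h := (g1 i P hP).1.2 v hv
  exact ⟨lt_of_le_of_lt (le_max_left _ _) h.1, h.2⟩

end Pool.Agent.SGK
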