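import Pool.Agent.Lib.MP_452a87_nt.SGK.Spec

/-!
# Theorem SGK, module KDi: division by several primes
-/

set_option autoImplicit false

namespace Pool.Agent.SGK

open NumberField IsDedekindDomain Pool.Agent.SG

theorem pKDi : S_KDi := by
  intro K _ _ m N0 y hy hdiv k
  induction k with
  | zero =>
    intro u _ _ x _
    exact ⟨x, by simp⟩
  | succ k ih =>
    intro u hu hN x hx
    obtain ⟨β, hβ⟩ := ih (fun i => u i.castSucc)
      (fun a b h => Fin.castSucc_injective k (hu h)) (fun i => hN _) x (fun i => hx _)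
    have hmem : β ∈ (u (Fin.last k)).asIdeal := by
      have hp := (u (Fin.last k)).isPrime
      have h1 : β * ∏ i : Fin k, y (u i.castSucc) ∈ (u (Fin.last k)).asIdeal := by
        rw [← hβ]
        exact Ideal.mul_mem_left _ _ (hx _)
      rcases hp.mem_or_mem h1 with h | h
      · exact h
      · exfalso
        rw [hp.prod_mem_iff] at h
        obtain ⟨i, _, hi⟩ := h
        refine hy _ _ (fun he => ?_) (hN (Fin.last k)) hi
        exact (Fin.castSucc_lt_last i).ne' (hu he)
    obtain ⟨z, hz⟩ := hdiv _ β hmem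
    refine ⟨z, ?_⟩
    rw [Fin.prod_univ_castSucc, pow_succ']
    calc (m : 𝓞 K) * (m : 𝓞 K) ^ k * x = m * ((m : 𝓞 K) ^ k * x) := by ring
      _ = m * (β * ∏ i : Fin k, y (u i.castSucc)) := by rw [hβ]
      _ = ((m : 𝓞 K) * β) * ∏ i : Fin k, y (u i.castSucc) := by ring
      _ = (y (u (Fin.last k)) * z) * ∏ i : Fin k, y (u i.castSucc) := by rw [hz]
      _ = z * ((∏ i : Fin k, y (u i.castSucc)) * y (u (Fin.last k))) := by ring

end Pool.Agent.SGK
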