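import Pool.Agent.Lib.MP_452a87_nt.SGK.Spec
import Pool.Agent.Lib.FW.I.IAnD

/-!
# Theorem SGK, statement KDv: the sum of the reciprocals of the norms of the primes diverges
-/

set_option autoImplicit false

namespace Pool.Agent.SGK

open NumberField IsDedekindDomain Pool.Agent.SG
open Filter Asymptotics Topology

namespace KDvAux

private lemma two_le {K : Type} [Field K] [NumberField K] (v : HeightOneSpectrum (𝓞 K)) :
    2 ≤ nm v := by
  have h0 : nm v ≠ 0 := fun h => v.ne_bot (Ideal.absNorm_eq_zero_iff.mp h)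
  have h1 : nm v ≠ 1 := fun h => v.isPrime.ne_top (Ideal.absNorm_eq_one_iff.mp h)
  omega

private lemma fin {K : Type} [Field K] [NumberField K] (x : ℕ) :
    {v : HeightOneSpectrum (𝓞 K) | nm v ≤ x}.Finite := by
  have hf : {I : Ideal (𝓞 K) | Ideal.absNorm I ≤ x}.Finite := Ideal.finite_setOfPred_absNorm_le x
  refine Set.Finite.of_finite_image (f := fun v : HeightOneSpectrum (𝓞 K) => v.asIdeal)
    (hf.subset ?_) ?_
  · rintro _ ⟨v, hv, rfl⟩
    exact hv
  · intro v _ w _ h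
    exact HeightOneSpectrum.ext h

private lemma div (K : Type) [Field K] [NumberField K] :
    ¬ Summable fun v : HeightOneSpectrum (𝓞 K) => (1 : ℝ) / nm v := by
  intro hs
  obtain ⟨C, hC⟩ := (Pool.Agent.FW.tIAnD K).bound
  have hle : ∀ (s : ℝ), 1 < s → ∀ v : HeightOneSpectrum (𝓞 K),
      Pool.Agent.FW.nrI K v s ≤ (1 : ℝ) / nm v := by
    intro s h1 v
    have hv : (2 : ℝ) ≤ (nm v : ℝ) := by exact_mod_cast two_le v
    have e : (1 : ℝ) / nm v = (nm v : ℝ) ^ (-1 : ℝ) := by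
      rw [Real.rpow_neg (by linarith), Real.rpow_one, one_div]
    rw [e]
    have h2 : (1 : ℝ) ≤ (nm v : ℝ) := by linarith
    exact Real.rpow_le_rpow_of_exponent_le h2 (by linarith)
  have hnn : ∀ (s : ℝ), ∀ v : HeightOneSpectrum (𝓞 K), 0 ≤ Pool.Agent.FW.nrI K v s :=
    fun s v => Real.rpow_nonneg (Nat.cast_nonneg _) _
  have hsum : ∀ s : ℝ, 1 < s → (∑' v : HeightOneSpectrum (𝓞 K), Pool.Agent.FW.nrI K v s) ≤
      ∑' v : HeightOneSpectrum (𝓞 K), (1 : ℝ) / nm v := by
    intro s h1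
    exact Summable.tsum_le_tsum (hle s h1) (hs.of_nonneg_of_le (hnn s) (hle s h1)) hs
  have hlog : Tendsto (fun s : ℝ => Real.log (1 / (s - 1))) (𝓝[>] 1) atTop := by
    have h1 : Tendsto (fun s : ℝ => s - 1) (𝓝[>] 1) (𝓝[>] 0) := by
      refine tendsto_nhdsWithin_iff.mpr ⟨?_, ?_⟩
      · have h2 : Tendsto (fun s : ℝ => s - 1) (𝓝 1) (𝓝 (1 - 1)) :=
          (continuous_id.sub continuous_const).tendsto 1
        rw [sub_self] at h2
        exact h2.mono_left nhdsWithin_le_nhds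
      · filter_upwards [self_mem_nhdsWithin] with s hs1
        exact sub_pos.mpr (Set.mem_Ioi.mp hs1)
    have h3 : Tendsto (fun s : ℝ => 1 / (s - 1)) (𝓝[>] 1) atTop := by
      have h4 := tendsto_inv_nhdsGT_zero.comp h1
      refine h4.congr fun s => ?_
      simp
    exact Real.tendsto_log_atTop.comp h3
  have hev := hlog.eventually_gt_atTop ((∑' v : HeightOneSpectrum (𝓞 K), (1 : ℝ) / nm v) + C)
  have hs1 : ∀ᶠ s : ℝ in 𝓝[>] 1, 1 < s := self_mem_nhdsWithin
  obtain ⟨s, ⟨ha, hb⟩, hc⟩ := ((hC.and hev).and hs1).exists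
  have h5 := hsum s hc
  rw [norm_one, mul_one, Real.norm_eq_abs] at ha
  have h6 := neg_abs_le ((∑' v : HeightOneSpectrum (𝓞 K), Pool.Agent.FW.nrI K v s) -
    Real.log (1 / (s - 1)))
  linarith

end KDvAux

/-- **KDv.** The sum of the reciprocals of the norms of the primes diverges. -/
theorem pKDv : S_KDv := fun K _ _ => ⟨KDvAux.div K, fun x => KDvAux.fin x, fun v => KDvAux.two_le v⟩

end Pool.Agent.SGK
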