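import Pool.Agent.Lib.MP_452a87_nt.SGK.Spec

/-!
# KFn: the final theorem (ordering by the largest conjugate)
-/

set_option autoImplicit false

namespace Pool.Agent.SGK

open NumberField IsDedekindDomain Pool.Agent.SG

namespace KFnAux

/-- The number of elements of a finite union. -/
lemma ncard_cover {X ι : Type} (s : Finset ι) (A : ι → Set X) (hA : ∀ i ∈ s, (A i).Finite)
    (S : Set X) (hS : ∀ x ∈ S, ∃ i ∈ s, x ∈ A i) (c : ℝ)
    (hc : ∀ i ∈ s, ((A i).ncard : ℝ) ≤ c) : (S.ncard : ℝ) ≤ s.card * c := by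
  classical
  induction s using Finset.induction_on generalizing S with
  | empty =>
    have : S = ∅ := by
      ext x
      simp only [Set.mem_empty_iff_false, iff_false]
      intro hx
      obtain ⟨i, hi, _⟩ := hS x hx
      simp at hi
    simp [this]
  | insert a s ha ih =>
    have hfin : (⋃ i ∈ s, A i).Finite := by
      apply Set.Finite.biUnion s.finite_toSet
      intro i hi
      exact hA i (Finset.mem_insert_of_mem hi)
    have h1 : ((S ∩ ⋃ i ∈ s, A i).ncard : ℝ) ≤ s.card * c := by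
      apply ih (fun i hi => hA i (Finset.mem_insert_of_mem hi))
      · intro x hx
        obtain ⟨i, hi, hxi⟩ := Set.mem_iUnion₂.1 hx.2
        exact ⟨i, hi, hxi⟩
      · intro i hi
        exact hc i (Finset.mem_insert_of_mem hi)
    have h2 : S ⊆ (S ∩ ⋃ i ∈ s, A i) ∪ A a := by
      intro x hx
      obtain ⟨i, hi, hxi⟩ := hS x hx
      rcases Finset.mem_insert.1 hi with rfl | hi
      · exact Or.inr hxi
      · exact Or.inl ⟨hx, Set.mem_iUnion₂.2 ⟨i, hi, hxi⟩⟩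
    have h3 : S.ncard ≤ (S ∩ ⋃ i ∈ s, A i).ncard + (A a).ncard := by
      refine le_trans (Set.ncard_le_ncard h2 ?_) (Set.ncard_union_le _ _)
      exact (hfin.subset Set.inter_subset_right).union (hA a (Finset.mem_insert_self a s))
    have h4 : (S.ncard : ℝ) ≤ ((S ∩ ⋃ i ∈ s, A i).ncard : ℝ) + ((A a).ncard : ℝ) := by
      exact_mod_cast h3
    have h5 := hc a (Finset.mem_insert_self a s)
    rw [Finset.card_insert_of_notMem ha]
    push_cast
    linarith

/-- The final computation. -/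
lemma calc_final (n N T1 : ℕ) (C T ε c : ℝ) (hC : 1 ≤ C) (hT : 1 ≤ T) (hε : 0 < ε)
    (h1 : (T1 : ℝ) ≤ C * T + 1) (hc : (T / C) ^ n ≤ c) :
    ((2 * N + 1 : ℕ) : ℝ) * (ε / ((2 * (N : ℝ) + 1) * (5 * C ^ 2) ^ n) * (2 * (T1 : ℝ) + 1) ^ n) ≤ ε * c := by
  have hC0 : 0 < C := by linarith
  have hT0 : 0 < T := by linarith
  have hCT : 1 ≤ C * T := by nlinarith
  have h2 : 2 * (T1 : ℝ) + 1 ≤ 5 * C * T := by nlinarith
  have h3 : (2 * (T1 : ℝ) + 1) ^ n ≤ (5 * C * T) ^ n :=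
    pow_le_pow_left₀ (by positivity) h2 n
  have hN : (0 : ℝ) < 2 * (N : ℝ) + 1 := by positivity
  have hp : (0 : ℝ) < (5 * C ^ 2) ^ n := by positivity
  have h4 : (5 * C * T) ^ n = (5 * C ^ 2) ^ n * (T / C) ^ n := by
    rw [← mul_pow]
    congr 1
    field_simp
  push_cast
  calc (2 * (N : ℝ) + 1) * (ε / ((2 * (N : ℝ) + 1) * (5 * C ^ 2) ^ n) * (2 * (T1 : ℝ) + 1) ^ n)
      ≤ (2 * (N : ℝ) + 1) * (ε / ((2 * (N : ℝ) + 1) * (5 * C ^ 2) ^ n) * (5 * C * T) ^ n) := by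
        apply mul_le_mul_of_nonneg_left _ hN.le
        exact mul_le_mul_of_nonneg_left h3 (by positivity)
    _ = ε * (T / C) ^ n := by
        rw [h4]
        field_simp
    _ ≤ ε * c := mul_le_mul_of_nonneg_left hc hε.le

/-- `exp (lam + 2 π i ν) = exp lam`. -/
lemma exp_shift (lam : ℂ) (ν : ℤ) :
    Complex.exp (lam + 2 * Real.pi * Complex.I * ν) = Complex.exp lam := by
  have h : (2 * Real.pi * Complex.I * (ν : ℂ)) = ν * (2 * Real.pi * Complex.I) := by ring
  rw [h, Complex.exp_periodic.int_mul ν lam]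

end KFnAux

open KFnAux in
/-- KFn: the final theorem. -/
theorem pKFn : S_KHs → S_KMn → S_KFn := by
  intro hHs hMn K _ _ φ D N ε hε
  obtain ⟨_, hn1, hBx, C, hC, _, hB, hH⟩ := hHs K
  set n := dg K with hn
  set ε' : ℝ := ε / ((2 * (N : ℝ) + 1) * (5 * C ^ 2) ^ n) with hε'
  have hC0 : 0 < C := by linarith
  have hε'0 : 0 < ε' := by positivity
  choose T0 hT0 using fun e : ℕ => hMn e K φ ε' hε'0
  let T0' : ℕ := (Finset.range D).sup T0
  refine ⟨max 1 (T0' : ℝ), ?_⟩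
  intro T hT F hF hFD lam hlam
  have hT1 : (1 : ℝ) ≤ T := le_trans (le_max_left _ _) hT
  have hTT : (T0' : ℝ) ≤ T := le_trans (le_max_right _ _) hT
  obtain ⟨hfin, _, hlow⟩ := hH T (by linarith)
  refine ⟨hfin, ?_⟩
  set T1 : ℕ := ⌈C * T⌉₊ with hT1def
  have hCT : T ≤ C * T := by nlinarith
  have h1 : (T1 : ℝ) ≤ C * T + 1 := (Nat.ceil_lt_add_one (by positivity)).le
  have h1' : C * T ≤ (T1 : ℝ) := Nat.le_ceil _
  have hTN : T0' ≤ T1 := by
    have : (T0' : ℝ) ≤ (T1 : ℝ) := by linarith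
    exact_mod_cast this
  have hpos : 0 < Module.finrank ℚ F := Module.finrank_pos
  obtain ⟨e, he⟩ : ∃ e, Module.finrank ℚ F = e + 1 := ⟨Module.finrank ℚ F - 1, by omega⟩
  have heD : e ∈ Finset.range D := by
    rw [Finset.mem_range]; omega
  have heT : T0 e ≤ T1 := le_trans (Finset.le_sup (f := T0) heD) hTN
  let A : ℤ → Set (𝓞 K) := fun ν => {x : 𝓞 K | x ∈ Bx K T1 ∧ x ≠ 0 ∧
    ¬ Good F ((lam + 2 * Real.pi * Complex.I * ν) + Complex.log (φ (x : K)))}
  have hAfin : ∀ ν ∈ Finset.Icc (-(N : ℤ)) N, (A ν).Finite := by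
    intro ν _
    exact (hBx T1).1.subset (fun x hx => hx.1)
  have hcard : (Finset.Icc (-(N : ℤ)) N).card = 2 * N + 1 := by
    rw [Int.card_Icc]
    omega
  have hAc : ∀ ν ∈ Finset.Icc (-(N : ℤ)) N, ((A ν).ncard : ℝ) ≤ ε' * (2 * (T1 : ℝ) + 1) ^ n := by
    intro ν _
    exact hT0 e T1 heT F hF he (lam + 2 * Real.pi * Complex.I * ν) (by rw [exp_shift]; exact hlam)
  have hcov := ncard_cover (Finset.Icc (-(N : ℤ)) N) A hAfin
    {x : 𝓞 K | x ∈ Hs K T ∧ x ≠ 0 ∧ ∃ ν : ℤ, |ν| ≤ (N : ℤ) ∧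
      ¬ Good F (lam + (Complex.log (φ (x : K)) + 2 * Real.pi * Complex.I * ν))} (by
      rintro x ⟨hx, hx0, ν, hν, hbad⟩
      refine ⟨ν, ?_, ?_, hx0, ?_⟩
      · rw [Finset.mem_Icc]
        exact abs_le.1 hν
      · intro i
        have h := hB x T hx i
        have h2 : ((|co x i| : ℤ) : ℝ) ≤ (T1 : ℝ) := le_trans h h1'
        exact_mod_cast h2
      · intro hg
        apply hbad
        have : lam + (Complex.log (φ (x : K)) + 2 * Real.pi * Complex.I * ν) =
          (lam + 2 * Real.pi * Complex.I * ν) + Complex.log (φ (x : K)) := by ring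
        rw [this]
        exact hg) _ hAc
  refine le_trans hcov ?_
  rw [hcard]
  exact calc_final n N T1 C T ε _ hC hT1 hε h1 hlow

end Pool.Agent.SGK
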