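import Pool.Agent.Lib.MP_452a87_nt.SGK.Spec

set_option autoImplicit false

namespace Pool.Agent.SGK

open NumberField IsDedekindDomain Pool.Agent.SG

namespace KHsAux

variable (K : Type) [Field K] [NumberField K]

lemma card_ix : Fintype.card (ix K) = dg K := by
  unfold dg
  rw [← RingOfIntegers.rank K, Module.finrank_eq_card_chooseBasisIndex]

lemma dg_pos : 1 ≤ dg K := Module.finrank_pos

/-- coordinates as an equivalence -/
noncomputable def ce : 𝓞 K ≃ (ix K → ℤ) := (RingOfIntegers.basis K).equivFun.toEquiv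

lemma ce_apply (x : 𝓞 K) (i : ix K) : ce K x i = co x i := by
  unfold ce co
  simp

/-- elements with coordinates in an integer interval -/
lemma box_card (T : ℕ) : (Bx K T).Finite ∧ (Bx K T).ncard = (2 * T + 1) ^ dg K := by
  classical
  have h : Bx K T = (ce K).symm '' ((Fintype.piFinset fun _ : ix K => Finset.Icc (-(T : ℤ)) (T : ℤ) : Finset (ix K → ℤ)) :
      Set (ix K → ℤ)) := by
    ext x
    rw [Equiv.image_eq_preimage_symm]
    simp only [Bx, Set.mem_setOf_eq, Equiv.symm_symm, Set.mem_preimage, Finset.mem_coe, Fintype.mem_piFinset,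
      Finset.mem_Icc, ce_apply, abs_le]
  constructor
  · rw [h]
    exact (Finset.finite_toSet _).image _
  · rw [h, Set.ncard_image_of_injective _ (ce K).symm.injective, Set.ncard_coe_finset, Fintype.card_piFinset]
    simp only [Int.card_Icc, Finset.prod_const, Finset.card_univ, card_ix K]
    congr 1
    omega

lemma up : ∃ C : ℝ, 0 ≤ C ∧ ∀ (x : 𝓞 K) (H : ℝ), (∀ i, ((|co x i| : ℤ) : ℝ) ≤ H) → ∀ σ : K →+* ℂ,
    ‖σ (x : K)‖ ≤ C * H := by
  classical
  refine ⟨∑ σ : K →+* ℂ, ∑ i, ‖σ ((RingOfIntegers.basis K i : 𝓞 K) : K)‖, by positivity, ?_⟩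
  intro x H hx σ
  have hH : 0 ≤ H := by
    have hne : Nonempty (ix K) := by
      rw [← Fintype.card_pos_iff, card_ix K]
      exact dg_pos K
    obtain ⟨i⟩ := hne
    refine le_trans ?_ (hx i)
    exact_mod_cast abs_nonneg (co x i)
  have hxs : x = ∑ i, (co x i) • (RingOfIntegers.basis K i : 𝓞 K) := by
    unfold co
    exact ((RingOfIntegers.basis K).sum_repr x).symm
  have h1 : σ (x : K) = ∑ i, ((co x i : ℤ) : ℂ) * σ ((RingOfIntegers.basis K i : 𝓞 K) : K) := by
    have e1 : (x : K) = ∑ i, (((co x i) • (RingOfIntegers.basis K i : 𝓞 K) : 𝓞 K) : K) := by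
      conv_lhs => rw [hxs]
      exact map_sum (algebraMap (𝓞 K) K) _ _
    rw [e1, map_sum]
    refine Finset.sum_congr rfl fun i _ => ?_
    simp
  have h2 : ‖σ (x : K)‖ ≤ ∑ i, H * ‖σ ((RingOfIntegers.basis K i : 𝓞 K) : K)‖ := by
    rw [h1]
    refine le_trans (norm_sum_le _ _) (Finset.sum_le_sum fun i _ => ?_)
    rw [norm_mul]
    refine mul_le_mul_of_nonneg_right ?_ (norm_nonneg _)
    rw [Complex.norm_intCast]
    have := hx i
    push_cast at this
    exact this
  rw [← Finset.mul_sum] at h2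
  refine le_trans h2 ?_
  rw [mul_comm]
  refine mul_le_mul_of_nonneg_right ?_ hH
  exact Finset.single_le_sum (f := fun σ : K →+* ℂ => ∑ i, ‖σ ((RingOfIntegers.basis K i : 𝓞 K) : K)‖)
    (fun _ _ => by positivity) (Finset.mem_univ σ)

lemma house_le (x : K) (H : ℝ) (hH : 0 ≤ H) (h : ∀ σ : K →+* ℂ, ‖σ x‖ ≤ H) : house x ≤ H := by
  unfold house
  rw [pi_norm_le_iff_of_nonneg hH]
  intro σ
  exact h σ

lemma down : ∃ C : ℝ, 0 ≤ C ∧ ∀ (x : 𝓞 K) (H : ℝ), (∀ σ : K →+* ℂ, ‖σ (x : K)‖ ≤ H) → ∀ i,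
    ((|co x i| : ℤ) : ℝ) ≤ C * H := by
  classical
  obtain ⟨c, hc⟩ : ∃ c : ℝ, ∀ (α : 𝓞 K) (i : K →+* ℂ),
      ‖(((integralBasis K).reindex (equivReindex K).symm).repr α i : ℂ)‖ ≤ c * house (algebraMap (𝓞 K) K α) :=
    ⟨_, house.basis_repr_norm_le_const_mul_house K⟩
  refine ⟨max c 0, le_max_right _ _, ?_⟩
  intro x H hx i
  have hH : 0 ≤ H := by
    obtain ⟨σ⟩ : Nonempty (K →+* ℂ) := inferInstance
    exact le_trans (norm_nonneg _) (hx σ)
  have h1 := hc x ((equivReindex K).symm i)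
  simp only [Module.Basis.repr_reindex, Finsupp.mapDomain_equiv_apply, Equiv.symm_symm,
    Equiv.apply_symm_apply, integralBasis_repr_apply, eq_intCast, Rat.cast_intCast, Complex.norm_intCast] at h1
  have h2 : house (algebraMap (𝓞 K) K x) ≤ H := house_le K _ H hH hx
  have h3 : ((|co x i| : ℤ) : ℝ) ≤ c * house (algebraMap (𝓞 K) K x) := by
    push_cast
    exact h1
  refine le_trans h3 ?_
  have h4 : 0 ≤ house (algebraMap (𝓞 K) K x) := house_nonneg _
  nlinarith [le_max_left c 0, le_max_right c 0, mul_le_mul_of_nonneg_right (le_max_left c 0) h4,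
    mul_le_mul_of_nonneg_left h2 (le_max_right c 0)]

end KHsAux

open KHsAux in
theorem pKHs : S_KHs := by
  intro K _ _
  refine ⟨card_ix K, dg_pos K, box_card K, ?_⟩
  obtain ⟨C1, hC1, h1⟩ := up K
  obtain ⟨C2, hC2, h2⟩ := down K
  set C0 : ℝ := max 1 (max C1 C2) with hC0
  have hC01 : 1 ≤ C0 := le_max_left _ _
  have hC0a : C1 ≤ C0 := le_trans (le_max_left _ _) (le_max_right _ _)
  have hC0b : C2 ≤ C0 := le_trans (le_max_right _ _) (le_max_right _ _)
  have hne : Nonempty (ix K) := by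
    rw [← Fintype.card_pos_iff, card_ix K]
    exact dg_pos K
  have u1 : ∀ (x : 𝓞 K) (H : ℝ), (∀ i, ((|co x i| : ℤ) : ℝ) ≤ H) → ∀ σ : K →+* ℂ, ‖σ (x : K)‖ ≤ C0 * H := by
    intro x H hx σ
    have hH : 0 ≤ H := by
      obtain ⟨i⟩ := hne
      refine le_trans ?_ (hx i)
      exact_mod_cast abs_nonneg (co x i)
    exact le_trans (h1 x H hx σ) (mul_le_mul_of_nonneg_right hC0a hH)
  have u2 : ∀ (x : 𝓞 K) (H : ℝ), (∀ σ : K →+* ℂ, ‖σ (x : K)‖ ≤ H) → ∀ i, ((|co x i| : ℤ) : ℝ) ≤ C0 * H := by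
    intro x H hx i
    have hH : 0 ≤ H := by
      obtain ⟨σ⟩ : Nonempty (K →+* ℂ) := inferInstance
      exact le_trans (norm_nonneg _) (hx σ)
    exact le_trans (h2 x H hx i) (mul_le_mul_of_nonneg_right hC0b hH)
  have hC00 : 0 < C0 := by linarith
  refine ⟨2 * C0, by linarith, ?_, ?_, ?_⟩
  · intro x H hx σ
    have hH : 0 ≤ H := by
      obtain ⟨i⟩ := hne
      refine le_trans ?_ (hx i)
      exact_mod_cast abs_nonneg (co x i)
    refine le_trans (u1 x H hx σ) ?_
    nlinarith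
  · intro x H hx i
    have hH : 0 ≤ H := by
      obtain ⟨σ⟩ : Nonempty (K →+* ℂ) := inferInstance
      exact le_trans (norm_nonneg _) (hx σ)
    refine le_trans (u2 x H hx i) ?_
    nlinarith
  · intro H hH
    have hsub : Hs K H ⊆ Bx K ⌊C0 * H⌋₊ := by
      intro x hx i
      have h := u2 x H hx i
      have h3 : (((|co x i|).toNat : ℕ) : ℝ) ≤ C0 * H := by
        have e : (((|co x i|).toNat : ℕ) : ℤ) = |co x i| := Int.toNat_of_nonneg (abs_nonneg _)
        have e' : (((|co x i|).toNat : ℕ) : ℝ) = ((|co x i| : ℤ) : ℝ) := by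
          rw [← Int.cast_natCast, e]
        rw [e']
        exact h
      have h4 := Nat.le_floor h3
      have e : (((|co x i|).toNat : ℕ) : ℤ) = |co x i| := Int.toNat_of_nonneg (abs_nonneg _)
      rw [← e]
      exact_mod_cast h4
    have hfin : (Hs K H).Finite := (box_card K _).1.subset hsub
    refine ⟨hfin, ?_, ?_⟩
    · have h3 : (Hs K H).ncard ≤ (2 * ⌊C0 * H⌋₊ + 1) ^ dg K := by
        rw [← (box_card K ⌊C0 * H⌋₊).2]
        exact Set.ncard_le_ncard hsub (box_card K _).1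
      have h4 : ((Hs K H).ncard : ℝ) ≤ (2 * (⌊C0 * H⌋₊ : ℝ) + 1) ^ dg K := by exact_mod_cast h3
      refine le_trans h4 ?_
      refine pow_le_pow_left₀ (by positivity) ?_ _
      have h5 : (⌊C0 * H⌋₊ : ℝ) ≤ C0 * H := Nat.floor_le (by positivity)
      linarith
    · have hsub2 : Bx K ⌊H / C0⌋₊ ⊆ Hs K H := by
        intro x hx σ
        have h5 : (⌊H / C0⌋₊ : ℝ) ≤ H / C0 := Nat.floor_le (by positivity)
        have h6 : ∀ i, ((|co x i| : ℤ) : ℝ) ≤ H / C0 := by
          intro i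
          refine le_trans ?_ h5
          have := hx i
          exact_mod_cast this
        have h7 := u1 x (H / C0) h6 σ
        rwa [mul_div_cancel₀ _ hC00.ne'] at h7
      have h3 : (2 * ⌊H / C0⌋₊ + 1) ^ dg K ≤ (Hs K H).ncard := by
        rw [← (box_card K ⌊H / C0⌋₊).2]
        exact Set.ncard_le_ncard hsub2 hfin
      have h4 : (2 * (⌊H / C0⌋₊ : ℝ) + 1) ^ dg K ≤ ((Hs K H).ncard : ℝ) := by exact_mod_cast h3
      refine le_trans ?_ h4
      refine pow_le_pow_left₀ (by positivity) ?_ _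
      have h5 : H / C0 < (⌊H / C0⌋₊ : ℝ) + 1 := Nat.lt_floor_add_one _
      have h6 : H / (2 * C0) ≤ H / C0 := by
        apply div_le_div_of_nonneg_left hH hC00
        linarith
      have h7 : (0 : ℝ) ≤ (⌊H / C0⌋₊ : ℝ) := Nat.cast_nonneg _
      have h8 : H / (2 * C0) = (H / C0) / 2 := by
        field_simp
      rw [h8]
      linarith

end Pool.Agent.SGK
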