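import Pool.Agent.Lib.MP_452a87_nt.SGK.Spec

/-! Theorem SGK, module KKs: boxes in dense subsets of products (Cauchy-Schwarz). -/

set_option autoImplicit false

namespace Pool.Agent.SGK

open NumberField IsDedekindDomain Pool.Agent.SG

namespace KKsAux

open Classical in
/-- Summation over a product of `k + 1` finite sets. -/
private lemma sum_cons {X : Type} {k : ℕ} (P : Fin (k + 1) → Finset X) (g : (Fin (k + 1) → X) → ℝ) :
    ∑ u ∈ Fintype.piFinset P, g u =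
      ∑ t ∈ Fintype.piFinset (fun i : Fin k => P i.succ), ∑ p ∈ P 0, g (Fin.cons p t) := by
  rw [Finset.sum_comm, ← Finset.sum_product']
  refine Finset.sum_nbij' (fun u => (u 0, Fin.tail u)) (fun x => Fin.cons x.1 x.2) ?_ ?_ ?_ ?_ ?_
  · intro u hu
    rw [Fintype.mem_piFinset] at hu
    rw [Finset.mem_product, Fintype.mem_piFinset]
    exact ⟨hu 0, fun i => hu i.succ⟩
  · intro x hx
    rw [Finset.mem_product, Fintype.mem_piFinset] at hx
    rw [Fintype.mem_piFinset]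
    intro i
    refine Fin.cases ?_ (fun j => ?_) i
    · simpa using hx.1
    · simpa using hx.2 j
  · intro u _
    exact Fin.cons_self_tail u
  · intro x _
    simp
  · intro u _
    rw [Fin.cons_self_tail u]

open Classical in
/-- The set count as a sum. -/
private lemma ncard_eq {X : Type} {k : ℕ} (P : Fin k → Finset X) (S : Set (Fin k → X)) :
    (Set.ncard {u : Fin k → X | (∀ i, u i ∈ P i) ∧ u ∈ S} : ℝ) =
      ∑ u ∈ Fintype.piFinset P, if u ∈ S then (1 : ℝ) else 0 := by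
  have h1 : {u : Fin k → X | (∀ i, u i ∈ P i) ∧ u ∈ S} = (((Fintype.piFinset P).filter (fun u => u ∈ S) : Finset (Fin k → X)) : Set (Fin k → X)) := by
    ext u
    simp [Fintype.mem_piFinset]
  rw [h1, Set.ncard_coe_finset, Finset.sum_ite, Finset.sum_const_zero, add_zero, Finset.sum_const,
    nsmul_eq_mul, mul_one]

open Classical in
private lemma step {X : Type} {k : ℕ} (P : Fin (k + 1) → Finset X) (S : Set (Fin (k + 1) → X)) (δ : ℝ) (hδ : 0 < δ)
    (hP0 : 2 / δ ^ 2 < ((P 0).card : ℝ)) (hPi : ∀ i : Fin k, 0 < (P i.succ).card)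
    (hS : δ * ∏ i, ((P i).card : ℝ) ≤ (Set.ncard {u : Fin (k + 1) → X | (∀ i, u i ∈ P i) ∧ u ∈ S} : ℝ)) :
    ∃ p ∈ P 0, ∃ p' ∈ P 0, p ≠ p' ∧ δ ^ 2 / 2 * ∏ i : Fin k, ((P i.succ).card : ℝ) ≤
      (Set.ncard {t : Fin k → X | (∀ i, t i ∈ P i.succ) ∧ t ∈ {t | (Fin.cons p t : Fin (k + 1) → X) ∈ S ∧
        (Fin.cons p' t : Fin (k + 1) → X) ∈ S}} : ℝ) := by
  set T : Finset (Fin k → X) := Fintype.piFinset (fun i : Fin k => P i.succ) with hT
  set f : X → (Fin k → X) → ℝ := fun p t => if (Fin.cons p t : Fin (k + 1) → X) ∈ S then (1 : ℝ) else 0 with hf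
  have hf0 : ∀ p t, 0 ≤ f p t := by
    intro p t
    simp only [hf]
    split_ifs <;> norm_num
  have hf1 : ∀ p t, f p t ≤ 1 := by
    intro p t
    simp only [hf]
    split_ifs <;> norm_num
  have hTc : (T.card : ℝ) = ∏ i : Fin k, ((P i.succ).card : ℝ) := by
    rw [hT, Fintype.card_piFinset]
    push_cast
    rfl
  have hTpos : 0 < (T.card : ℝ) := by
    rw [hTc]
    exact Finset.prod_pos (fun i _ => by exact_mod_cast hPi i)
  have hδ2 : 0 < δ ^ 2 := by positivity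
  have hPpos : 0 < ((P 0).card : ℝ) := lt_trans (by positivity) hP0
  have hsum : (Set.ncard {u : Fin (k + 1) → X | (∀ i, u i ∈ P i) ∧ u ∈ S} : ℝ) = ∑ t ∈ T, ∑ p ∈ P 0, f p t := by
    rw [ncard_eq, sum_cons]
  rw [hsum, Fin.prod_univ_succ, ← hTc] at hS
  -- Cauchy-Schwarz
  have hCS : (∑ t ∈ T, ∑ p ∈ P 0, f p t) ^ 2 ≤ (T.card : ℝ) * ∑ t ∈ T, (∑ p ∈ P 0, f p t) ^ 2 :=
    sq_sum_le_card_mul_sum_sq
  have hsq : (δ * (((P 0).card : ℝ) * T.card)) ^ 2 ≤ (∑ t ∈ T, ∑ p ∈ P 0, f p t) ^ 2 :=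
    pow_le_pow_left₀ (by positivity) hS 2
  have hlow : δ ^ 2 * ((P 0).card : ℝ) ^ 2 * T.card ≤ ∑ t ∈ T, (∑ p ∈ P 0, f p t) ^ 2 := by
    have h1 : (T.card : ℝ) * (δ ^ 2 * ((P 0).card : ℝ) ^ 2 * T.card) ≤ (T.card : ℝ) * ∑ t ∈ T, (∑ p ∈ P 0, f p t) ^ 2 := by
      calc (T.card : ℝ) * (δ ^ 2 * ((P 0).card : ℝ) ^ 2 * T.card) = (δ * (((P 0).card : ℝ) * T.card)) ^ 2 := by ring
        _ ≤ _ := hsq.trans hCS
    exact le_of_mul_le_mul_left h1 hTpos
  by_contra hcon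
  push Not at hcon
  -- the sum over pairs
  have hpair : ∀ p ∈ P 0, ∀ p' ∈ P 0, ∑ t ∈ T, f p t * f p' t ≤
      (if p = p' then (T.card : ℝ) else 0) + δ ^ 2 / 2 * T.card := by
    intro p hp p' hp'
    by_cases hpp : p = p'
    · rw [if_pos hpp]
      have h1 : ∑ t ∈ T, f p t * f p' t ≤ ∑ _t ∈ T, (1 : ℝ) :=
        Finset.sum_le_sum (fun t _ => mul_le_one₀ (hf1 p t) (hf0 p' t) (hf1 p' t))
      rw [Finset.sum_const, nsmul_eq_mul, mul_one] at h1
      have h2 : 0 ≤ δ ^ 2 / 2 * (T.card : ℝ) := by positivity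
      linarith
    · rw [if_neg hpp, zero_add]
      have h1 := hcon p hp p' hp' hpp
      rw [← hTc, ncard_eq] at h1
      refine le_of_eq_of_le (Finset.sum_congr rfl (fun t _ => ?_)) h1.le
      simp only [hf, Set.mem_ofPred_eq]
      by_cases ha : (Fin.cons p t : Fin (k + 1) → X) ∈ S <;> by_cases hb : (Fin.cons p' t : Fin (k + 1) → X) ∈ S <;> simp [ha, hb]
  have hexp : ∑ t ∈ T, (∑ p ∈ P 0, f p t) ^ 2 = ∑ p ∈ P 0, ∑ p' ∈ P 0, ∑ t ∈ T, f p t * f p' t := by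
    have h1 : ∀ t ∈ T, (∑ p ∈ P 0, f p t) ^ 2 = ∑ p ∈ P 0, ∑ p' ∈ P 0, f p t * f p' t := by
      intro t _
      rw [sq, Finset.sum_mul_sum]
    rw [Finset.sum_congr rfl h1, Finset.sum_comm]
    refine Finset.sum_congr rfl (fun p _ => ?_)
    rw [Finset.sum_comm]
  have hup : ∑ t ∈ T, (∑ p ∈ P 0, f p t) ^ 2 ≤ (P 0).card * (T.card : ℝ) + ((P 0).card : ℝ) ^ 2 * (δ ^ 2 / 2 * T.card) := by
    rw [hexp]
    calc ∑ p ∈ P 0, ∑ p' ∈ P 0, ∑ t ∈ T, f p t * f p' t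
        ≤ ∑ p ∈ P 0, ∑ p' ∈ P 0, ((if p = p' then (T.card : ℝ) else 0) + δ ^ 2 / 2 * T.card) :=
          Finset.sum_le_sum (fun p hp => Finset.sum_le_sum (fun p' hp' => hpair p hp p' hp'))
      _ = (P 0).card * (T.card : ℝ) + ((P 0).card : ℝ) ^ 2 * (δ ^ 2 / 2 * T.card) := by
          simp only [Finset.sum_add_distrib, Finset.sum_ite_eq, Finset.sum_const, nsmul_eq_mul]
          have h3 : ∑ p ∈ P 0, (if p ∈ P 0 then (T.card : ℝ) else 0) = (P 0).card * (T.card : ℝ) := by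
            rw [Finset.sum_ite_mem, Finset.inter_self, Finset.sum_const, nsmul_eq_mul]
          rw [h3]
          ring
  have hfin := hlow.trans hup
  have h4 : δ ^ 2 * ((P 0).card : ℝ) ≤ 1 + ((P 0).card : ℝ) * (δ ^ 2 / 2) := by
    have h5 : (((P 0).card : ℝ) * T.card) * (δ ^ 2 * ((P 0).card : ℝ)) ≤ (((P 0).card : ℝ) * T.card) * (1 + ((P 0).card : ℝ) * (δ ^ 2 / 2)) := by
      nlinarith [hfin]
    exact le_of_mul_le_mul_left h5 (mul_pos hPpos hTpos)
  have h6 : 2 < ((P 0).card : ℝ) * δ ^ 2 := by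
    rwa [div_lt_iff₀ hδ2] at hP0
  nlinarith

end KKsAux

theorem pKKs : S_KKs := by
  intro k
  induction k with
  | zero =>
    intro δ hδ
    refine ⟨0, ?_⟩
    intro X P _ S hS
    have h1 : (0 : ℝ) < (Set.ncard {u : Fin 0 → X | (∀ i, u i ∈ P i) ∧ u ∈ S} : ℝ) := by
      refine lt_of_lt_of_le ?_ hS
      simpa using hδ
    have h2 : Set.ncard {u : Fin 0 → X | (∀ i, u i ∈ P i) ∧ u ∈ S} ≠ 0 := by
      intro h
      rw [h] at h1
      norm_num at h1
    obtain ⟨u, hu⟩ := Set.nonempty_of_ncard_ne_zero h2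
    refine ⟨u, u, fun i => i.elim0, fun W => ?_⟩
    have h3 : (fun i => if i ∈ W then u i else u i) = u := by
      funext i
      exact i.elim0
    rw [h3]
    exact hu.2
  | succ k ih =>
    intro δ hδ
    obtain ⟨R1, hR1⟩ := ih (δ ^ 2 / 2) (by positivity)
    refine ⟨max R1 (⌈2 / δ ^ 2⌉₊ + 1), ?_⟩
    intro X P hP S hS
    have hP0 : 2 / δ ^ 2 < ((P 0).card : ℝ) := by
      have h1 : ⌈2 / δ ^ 2⌉₊ + 1 ≤ (P 0).card := (le_max_right _ _).trans (hP 0)
      have h2 : ((⌈2 / δ ^ 2⌉₊ : ℝ)) + 1 ≤ ((P 0).card : ℝ) := by exact_mod_cast h1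
      have h3 : 2 / δ ^ 2 ≤ (⌈2 / δ ^ 2⌉₊ : ℝ) := Nat.le_ceil _
      linarith
    have hPi : ∀ i : Fin k, 0 < (P i.succ).card := by
      intro i
      have h1 : ⌈2 / δ ^ 2⌉₊ + 1 ≤ (P i.succ).card := (le_max_right _ _).trans (hP i.succ)
      omega
    obtain ⟨p, hp, p', hp', hpp, hcard⟩ := KKsAux.step P S δ hδ hP0 hPi hS
    obtain ⟨v, v', hv, hW⟩ := hR1 X (fun i : Fin k => P i.succ) (fun i => (le_max_left _ _).trans (hP i.succ)) _ hcard
    refine ⟨Fin.cons p v, Fin.cons p' v', ?_, ?_⟩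
    · intro i
      refine Fin.cases ?_ (fun j => ?_) i
      · simpa using ⟨hp, hp', hpp⟩
      · simpa using hv j
    · intro W
      have h1 := hW (Finset.univ.filter (fun i : Fin k => i.succ ∈ W))
      have h2 : (fun i => if i ∈ W then (Fin.cons p' v' : Fin (k + 1) → X) i else (Fin.cons p v : Fin (k + 1) → X) i) =
          (Fin.cons (if (0 : Fin (k + 1)) ∈ W then p' else p)
            (fun i => if i ∈ Finset.univ.filter (fun i : Fin k => i.succ ∈ W) then v' i else v i) : Fin (k + 1) → X) := by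
        funext i
        refine Fin.cases ?_ (fun j => ?_) i
        · simp
        · simp
      rw [h2]
      by_cases h0 : (0 : Fin (k + 1)) ∈ W
      · rw [if_pos h0]
        exact h1.2
      · rw [if_neg h0]
        exact h1.1

end Pool.Agent.SGK
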