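import Pool.Agent.Lib.MP_452a87_nt.SGK.Spec

set_option autoImplicit false

namespace Pool.Agent.SGK

open NumberField IsDedekindDomain Pool.Agent.SG

namespace KLiAux

/-- The prime argument: a product equation is impossible. -/
private theorem aux {R : Type} [CommRing R] (k : ℕ) (w : Ideal R) [hw : w.IsPrime] (t f : Fin k → R)
    (p n : Fin k → ℕ) (i0 : Fin k) (hp : 0 < p i0) (hn : n i0 = 0) (ht0 : t i0 ∈ w)
    (ht : ∀ i, i ≠ i0 → t i ∉ w) (hf : ∀ i, f i ∉ w)
    (he : ∏ i, (t i ^ p i * f i ^ n i) = ∏ i, (t i ^ n i * f i ^ p i)) : False := by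
  have h1 : ∏ i, (t i ^ p i * f i ^ n i) ∈ w := by
    refine Ideal.mem_of_dvd w (Finset.dvd_prod_of_mem _ (Finset.mem_univ i0)) ?_
    exact w.mul_mem_right _ (w.pow_mem_of_mem ht0 _ hp)
  rw [he, hw.prod_mem_iff] at h1
  obtain ⟨i, -, hi⟩ := h1
  rcases hw.mem_or_mem hi with h | h
  · by_cases hii : i = i0
    · subst hii
      rw [hn, pow_zero] at h
      exact hw.ne_top ((Ideal.eq_top_iff_one _).2 h)
    · exact ht i hii (hw.mem_of_pow_mem _ h)
  · exact hf i (hw.mem_of_pow_mem _ h)

end KLiAux

theorem pKLi : S_KLi := by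
  intro K _ _ φ k v y hy hne
  rw [← LinearIndependent.iff_fractionRing ℤ ℚ, Fintype.linearIndependent_iff]
  intro c hc i0
  by_contra h0
  have hφ : Function.Injective φ := φ.injective
  have hnz : ∀ s i, φ (y (v s i) : K) ≠ 0 := by
    intro s i h
    have h1 : ((y (v s i) : 𝓞 K) : K) = 0 := by
      apply hφ
      rw [h, map_zero]
    exact (hy s i).1 (by exact_mod_cast h1)
  have hexp : ∏ i, ((φ (y (v true i) : K)) ^ (c i) * ((φ (y (v false i) : K)) ^ (c i))⁻¹) = 1 := by
    have h1 : Complex.exp (∑ i, c i • (Complex.log (φ (y (v true i) : K)) - Complex.log (φ (y (v false i) : K)))) = 1 := by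
      rw [hc, Complex.exp_zero]
    rw [Complex.exp_sum] at h1
    rw [← h1]
    refine Finset.prod_congr rfl fun i _ => ?_
    rw [zsmul_eq_mul, Complex.exp_int_mul, Complex.exp_sub, Complex.exp_log (hnz _ _), Complex.exp_log (hnz _ _),
      div_zpow, div_eq_mul_inv]
  have hC : ∏ i, ((φ (y (v true i) : K)) ^ (c i).toNat * (φ (y (v false i) : K)) ^ (-c i).toNat) =
      ∏ i, ((φ (y (v true i) : K)) ^ (-c i).toNat * (φ (y (v false i) : K)) ^ (c i).toNat) := by
    have h2 : ∀ i, (φ (y (v true i) : K)) ^ (c i).toNat * (φ (y (v false i) : K)) ^ (-c i).toNat =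
        ((φ (y (v true i) : K)) ^ (-c i).toNat * (φ (y (v false i) : K)) ^ (c i).toNat) *
          ((φ (y (v true i) : K)) ^ (c i) * ((φ (y (v false i) : K)) ^ (c i))⁻¹) := by
      intro i
      have ha := hnz true i
      have hb := hnz false i
      have hci : c i = ((c i).toNat : ℤ) - ((-c i).toNat : ℤ) := (Int.toNat_sub_toNat_neg (c i)).symm
      set a := φ (y (v true i) : K)
      set b := φ (y (v false i) : K)
      set P := (c i).toNat
      set Q := (-c i).toNat
      rw [hci, zpow_sub₀ ha, zpow_sub₀ hb, zpow_natCast, zpow_natCast, zpow_natCast, zpow_natCast]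
      field_simp
    rw [Finset.prod_congr rfl fun i _ => h2 i, Finset.prod_mul_distrib, hexp, mul_one]
  have hO : ∏ i, ((y (v true i)) ^ (c i).toNat * (y (v false i)) ^ (-c i).toNat) =
      ∏ i, ((y (v true i)) ^ (-c i).toNat * (y (v false i)) ^ (c i).toNat) := by
    have hinj : Function.Injective (fun x : 𝓞 K => φ (x : K)) := by
      intro a b hab
      exact RingOfIntegers.coe_injective (hφ hab)
    apply hinj
    simp only [map_prod, map_mul, map_pow]
    exact hC
  have hw : (v true i0).asIdeal.IsPrime := (v true i0).isPrime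
  rcases lt_or_gt_of_ne h0 with h | h
  · -- negative
    refine KLiAux.aux k (v true i0).asIdeal (fun i => y (v true i)) (fun i => y (v false i)) (fun i => (-c i).toNat)
      (fun i => (c i).toNat) i0 ?_ ?_ (hy true i0).2 ?_ ?_ hO.symm
    · show 0 < (-c i0).toNat
      omega
    · show (c i0).toNat = 0
      omega
    · intro i hi
      exact hne true i0 true i (by simpa using fun h => hi h.symm)
    · intro i
      exact hne true i0 false i (by simp)
  · refine KLiAux.aux k (v true i0).asIdeal (fun i => y (v true i)) (fun i => y (v false i)) (fun i => (c i).toNat)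
      (fun i => (-c i).toNat) i0 ?_ ?_ (hy true i0).2 ?_ ?_ hO
    · show 0 < (c i0).toNat
      omega
    · show (-c i0).toNat = 0
      omega
    · intro i hi
      exact hne true i0 true i (by simpa using fun h => hi h.symm)
    · intro i
      exact hne true i0 false i (by simp)

end Pool.Agent.SGK
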