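import Pool.Agent.Lib.MP_452a87_nt.SGK.Spec

/-!
# MP_452a87_nt, project SGK, module KMa: the count for one choice of the blocks
-/

set_option autoImplicit false

namespace Pool.Agent.SGK

open NumberField IsDedekindDomain Pool.Agent.SG

/-- **KMa**: the count for one choice of the blocks. -/
theorem pKMa : S_KMa := by
  classical
  intro K _ _ k m y B P δ H hm hδ hfin h1 h2 h3
  have hm0 : (m : 𝓞 K) ^ k ≠ 0 := by
    apply pow_ne_zero
    have : m ≠ 0 := by omega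
    exact_mod_cast this
  obtain ⟨S, hS⟩ : ∃ S : 𝓞 K → Set (Fin k → HeightOneSpectrum (𝓞 K)),
      ∀ β u, u ∈ S β ↔ ∃ x ∈ B, (m : 𝓞 K) ^ k * x = β * ∏ i, y (u i) :=
    ⟨fun β => {u | ∃ x ∈ B, (m : 𝓞 K) ^ k * x = β * ∏ i, y (u i)}, fun _ _ => Iff.rfl⟩
  -- the bound for one `β`
  have hb : ∀ β : 𝓞 K, (((Fintype.piFinset P).filter (fun u => u ∈ S β)).card : ℝ) ≤
      δ * ∏ i, ((P i).card : ℝ) := by
    intro β
    by_contra hcon
    push Not at hcon
    have e : {u : Fin k → HeightOneSpectrum (𝓞 K) | (∀ i, u i ∈ P i) ∧ u ∈ S β} =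
        (((Fintype.piFinset P).filter (fun u => u ∈ S β) :
          Finset (Fin k → HeightOneSpectrum (𝓞 K))) : Set (Fin k → HeightOneSpectrum (𝓞 K))) := by
      ext u
      simp only [Set.mem_ofPred_eq, Finset.coe_filter, Fintype.mem_piFinset]
    obtain ⟨u, u', hu, hW⟩ := h2 (S β) (by
      rw [e, Set.ncard_coe_finset]
      exact hcon.le)
    exact h3 β u u' hu fun W => (hS β _).1 (hW W)
  -- the choice of `β`
  obtain ⟨A, hA⟩ : ∃ A : Finset (𝓞 K × (Fin k → HeightOneSpectrum (𝓞 K))),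
      ∀ p, p ∈ A ↔ p.1 ∈ B ∧ ∀ i, p.2 i ∈ P i ∧ p.1 ∈ (p.2 i).asIdeal := by
    refine ⟨(B ×ˢ Fintype.piFinset P).filter (fun p => ∀ i, p.1 ∈ (p.2 i).asIdeal), ?_⟩
    intro p
    simp only [Finset.mem_filter, Finset.mem_product, Fintype.mem_piFinset]
    constructor
    · rintro ⟨⟨q1, q2⟩, q3⟩
      exact ⟨q1, fun i => ⟨q2 i, q3 i⟩⟩
    · rintro ⟨q1, q2⟩
      exact ⟨⟨q1, fun i => (q2 i).1⟩, fun i => (q2 i).2⟩
  have hex : ∀ p : 𝓞 K × (Fin k → HeightOneSpectrum (𝓞 K)), ∃ β : 𝓞 K,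
      p ∈ A → β ∈ Hs K H ∧ (m : 𝓞 K) ^ k * p.1 = β * ∏ i, y (p.2 i) := by
    intro p
    by_cases hp : p ∈ A
    · obtain ⟨q1, q2⟩ := (hA p).1 hp
      obtain ⟨β, q3, q4⟩ := h1 p.1 q1 p.2 q2
      exact ⟨β, fun _ => ⟨q3, q4⟩⟩
    · exact ⟨0, fun h => absurd h hp⟩
  choose f hf using hex
  have e1 : {p : 𝓞 K × (Fin k → HeightOneSpectrum (𝓞 K)) | p.1 ∈ B ∧
      ∀ i, p.2 i ∈ P i ∧ p.1 ∈ (p.2 i).asIdeal} =
      (A : Set (𝓞 K × (Fin k → HeightOneSpectrum (𝓞 K)))) := by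
    ext p
    rw [Finset.mem_coe, hA]
    rfl
  have e2 : A.card = ∑ β ∈ hfin.toFinset, (A.filter (fun p => f p = β)).card :=
    Finset.card_eq_sum_card_fiberwise fun p hp => by
      have := (hf p hp).1
      simpa using this
  have hfib : ∀ β ∈ hfin.toFinset, ((A.filter (fun p => f p = β)).card : ℝ) ≤
      δ * ∏ i, ((P i).card : ℝ) := by
    intro β _
    refine le_trans ?_ (hb β)
    have h4 : (A.filter (fun p => f p = β)).card ≤
        ((Fintype.piFinset P).filter (fun u => u ∈ S β)).card := by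
      refine Finset.card_le_card_of_injOn (fun p => p.2) ?_ ?_
      · intro p hp
        obtain ⟨q1, q2⟩ := Finset.mem_filter.1 (Finset.mem_coe.1 hp)
        obtain ⟨q3, q4⟩ := (hA p).1 q1
        rw [Finset.mem_coe, Finset.mem_filter, Fintype.mem_piFinset]
        refine ⟨fun i => (q4 i).1, (hS β _).2 ⟨p.1, q3, ?_⟩⟩
        rw [(hf p q1).2, q2]
      · intro p hp p' hp' hpp
        obtain ⟨q1, q2⟩ := Finset.mem_filter.1 (Finset.mem_coe.1 hp)
        obtain ⟨q3, q4⟩ := Finset.mem_filter.1 (Finset.mem_coe.1 hp')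
        have hpp' : p.2 = p'.2 := hpp
        refine Prod.ext ?_ hpp'
        have h5 := (hf p q1).2
        have h6 := (hf p' q3).2
        rw [q2, hpp', ← q4, ← h6] at h5
        exact mul_left_cancel₀ hm0 h5
    exact_mod_cast h4
  rw [e1, Set.ncard_coe_finset, Set.ncard_eq_toFinset_card _ hfin, e2]
  push_cast
  calc ∑ β ∈ hfin.toFinset, ((A.filter (fun p => f p = β)).card : ℝ)
      ≤ ∑ β ∈ hfin.toFinset, δ * ∏ i, ((P i).card : ℝ) := Finset.sum_le_sum hfib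
    _ = δ * (hfin.toFinset.card : ℝ) * ∏ i, ((P i).card : ℝ) := by
        rw [Finset.sum_const, nsmul_eq_mul]
        ring

end Pool.Agent.SGK
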