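import Pool.Agent.Lib.MP_452a87_nt.SGK.Spec

set_option autoImplicit false

namespace Pool.Agent.SGK

open NumberField IsDedekindDomain Pool.Agent.SG

namespace KMcAux

/-- A factor with a large conjugate: `1 ≤ a r` if `1 ≤ a ^ n r ^ n`. -/
theorem one_le_of_pow {a r : ℝ} {n : ℕ} (hn : 1 ≤ n) (h0 : 0 ≤ a * r) (h : 1 ≤ (a * r) ^ n) : 1 ≤ a * r := by
  by_contra hlt
  push Not at hlt
  have : (a * r) ^ n < 1 := pow_lt_one₀ h0 hlt (by omega)
  linarith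

end KMcAux

theorem pKMc : S_KHs → S_KYv → S_KDi → S_KMa → S_KMc := by
  intro _ _ hKDi hKMa
  intro K _ _ m N0 C1 C2 y hdg hC1 hC2 hm hbox hcnt hy hnot hdiv k R T P B δ hδ hR hB hP hdisj hprod hKs hcube
  classical
  have hne : ∀ i, (P i).Nonempty := by
    intro i
    rw [← Finset.card_pos, (hP i).1]
    omega
  have hmin : ∀ i, ∃ p ∈ P i, ∀ v ∈ P i, nm p ≤ nm v := fun i => Finset.exists_min_image (P i) nm (hne i)
  choose p hpP hpm using hmin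
  have hm1 : (1 : ℝ) ≤ m := by exact_mod_cast hm
  have hq1 : ∀ i, (1 : ℝ) ≤ nm (p i) := by
    intro i
    have h1 := ((hP i).2 (p i) (hpP i)).1
    have h2 : 1 ≤ nm (p i) := by omega
    exact_mod_cast h2
  have hC20 : 0 < C2 := by linarith
  have hC10 : 0 < C1 := by linarith
  have hn0 : dg K ≠ 0 := by omega
  have hr : ∀ i, ∃ r : ℝ, 0 < r ∧ r ^ dg K = C2 / nm (p i) := by
    intro i
    have hpos : 0 < C2 / (nm (p i) : ℝ) := div_pos hC20 (by linarith [hq1 i])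
    exact ⟨(C2 / (nm (p i) : ℝ)) ^ ((dg K : ℝ)⁻¹), Real.rpow_pos_of_pos hpos _, Real.rpow_inv_natCast_pow hpos.le hn0⟩
  choose r hr0 hrp using hr
  have hpr0 : 0 < ∏ i, r i := Finset.prod_pos fun i _ => hr0 i
  have hmk : (0 : ℝ) < (m : ℝ) ^ k := pow_pos (by linarith) _
  have hT0 : (0 : ℝ) ≤ T := Nat.cast_nonneg T
  set H : ℝ := (m : ℝ) ^ k * (C1 * T) * ∏ i, r i with hH
  have hH0 : 0 ≤ H := by
    rw [hH]
    exact mul_nonneg (mul_nonneg hmk.le (mul_nonneg hC10.le hT0)) hpr0.le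
  obtain ⟨hHf, hHc⟩ := hcnt H hH0
  -- the first hypothesis of KMa
  have h1 : ∀ x ∈ B, ∀ u : Fin k → HeightOneSpectrum (𝓞 K), (∀ i, u i ∈ P i ∧ x ∈ (u i).asIdeal) →
      ∃ β ∈ Hs K H, (m : 𝓞 K) ^ k * x = β * ∏ i, y (u i) := by
    intro x hx u hu
    have hinj : Function.Injective u := by
      intro i j hij
      by_contra hne'
      have h2 := Finset.disjoint_left.1 (hdisj i j hne') (hu i).1
      rw [hij] at h2
      exact h2 (hu j).1
    obtain ⟨β, hβ⟩ := hKDi K m N0 y hnot hdiv k u hinj (fun i => ((hP i).2 (u i) (hu i).1).1) x (fun i => (hu i).2)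
    refine ⟨β, ?_, hβ⟩
    intro σ
    have hx' : ‖σ (x : K)‖ ≤ C1 * T := by
      apply hbox x T
      intro i
      have h3 := hB x hx i
      exact_mod_cast h3
    have heq : (m : ℝ) ^ k * ‖σ (x : K)‖ = ‖σ (β : K)‖ * ∏ i, ‖σ (y (u i) : K)‖ := by
      have h4 : ((m : K)) ^ k * (x : K) = (β : K) * ∏ i, ((y (u i) : 𝓞 K) : K) := by
        have h5 := congrArg (fun t : 𝓞 K => (algebraMap (𝓞 K) K t)) hβ
        simp only [map_mul, map_pow, map_natCast, map_prod] at h5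
        exact h5
      have h6 := congrArg (fun t : K => ‖σ t‖) h4
      simp only [map_mul, map_pow, map_natCast, map_prod, norm_mul, norm_pow, norm_prod, Complex.norm_natCast] at h6
      exact h6
    have hfac : ∀ i, 1 ≤ ‖σ (y (u i) : K)‖ * r i := by
      intro i
      apply KMcAux.one_le_of_pow hdg (mul_nonneg (norm_nonneg _) (hr0 i).le)
      rw [mul_pow, hrp i]
      have h7 := (hy (u i)).2 σ
      have h8 : (nm (p i) : ℝ) ≤ nm (u i) := by exact_mod_cast hpm i (u i) (hu i).1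
      have h9 := hq1 i
      rw [← mul_div_assoc, le_div_iff₀ (by linarith)]
      linarith
    have hone : 1 ≤ ∏ i, (‖σ (y (u i) : K)‖ * r i) := by
      calc (1 : ℝ) = ∏ _i : Fin k, (1 : ℝ) := by simp
        _ ≤ ∏ i, (‖σ (y (u i) : K)‖ * r i) := Finset.prod_le_prod (fun _ _ => zero_le_one) (fun i _ => hfac i)
    calc ‖σ (β : K)‖ ≤ ‖σ (β : K)‖ * ∏ i, (‖σ (y (u i) : K)‖ * r i) := le_mul_of_one_le_right (norm_nonneg _) hone
      _ = (‖σ (β : K)‖ * ∏ i, ‖σ (y (u i) : K)‖) * ∏ i, r i := by rw [Finset.prod_mul_distrib]; ring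
      _ = ((m : ℝ) ^ k * ‖σ (x : K)‖) * ∏ i, r i := by rw [heq]
      _ ≤ ((m : ℝ) ^ k * (C1 * T)) * ∏ i, r i :=
        mul_le_mul_of_nonneg_right (mul_le_mul_of_nonneg_left hx' hmk.le) hpr0.le
  have hmain := hKMa K k m y B P δ H hm hδ hHf h1 hKs hcube
  -- the number of the possible `β`
  have hqr : ∀ i, 1 ≤ (nm (p i) : ℝ) * r i := by
    intro i
    have h9 := hq1 i
    apply KMcAux.one_le_of_pow hdg (mul_nonneg (by linarith) (hr0 i).le)
    rw [mul_pow, hrp i]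
    have h10 : (nm (p i) : ℝ) ≤ (nm (p i) : ℝ) ^ dg K := le_self_pow₀ h9 hn0
    rw [← mul_div_assoc, le_div_iff₀ (by linarith)]
    have h11 : (nm (p i) : ℝ) ^ dg K * 1 ≤ (nm (p i) : ℝ) ^ dg K * C2 :=
      mul_le_mul_of_nonneg_left hC2 (by positivity)
    linarith
  have hTr : 1 ≤ (T : ℝ) * ∏ i, r i := by
    have h12 : ((∏ i, nm (p i) : ℕ) : ℝ) ≤ T := by exact_mod_cast hprod p hpP
    have h13 : (1 : ℝ) ≤ ∏ i, ((nm (p i) : ℝ) * r i) := by
      calc (1 : ℝ) = ∏ _i : Fin k, (1 : ℝ) := by simp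
        _ ≤ _ := Finset.prod_le_prod (fun _ _ => zero_le_one) (fun i _ => hqr i)
    rw [Finset.prod_mul_distrib] at h13
    push_cast at h12
    exact h13.trans (mul_le_mul_of_nonneg_right h12 hpr0.le)
  have hmk1 : (1 : ℝ) ≤ (m : ℝ) ^ k := one_le_pow₀ hm1
  have hC1H : 1 ≤ C1 * H := by
    have e : C1 * H = (C1 * C1 * (m : ℝ) ^ k) * ((T : ℝ) * ∏ i, r i) := by rw [hH]; ring
    rw [e]
    have h14 : 1 ≤ C1 * C1 := by nlinarith
    have h15 : 1 ≤ C1 * C1 * (m : ℝ) ^ k := one_le_mul_of_one_le_of_one_le h14 hmk1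
    exact one_le_mul_of_one_le_of_one_le h15 hTr
  have hcount : ((Hs K H).ncard : ℝ) ≤ (2 * C1 ^ 2 * (m : ℝ) ^ k * T) ^ dg K * ∏ i, (C2 / (nm (p i) : ℝ)) := by
    refine hHc.trans ?_
    calc (C1 * H + 1) ^ dg K ≤ (2 * C1 ^ 2 * (m : ℝ) ^ k * T * ∏ i, r i) ^ dg K := by
          apply pow_le_pow_left₀ (by linarith)
          have e : 2 * C1 ^ 2 * (m : ℝ) ^ k * T * ∏ i, r i = 2 * (C1 * H) := by rw [hH]; ring
          rw [e]
          linarith
      _ = (2 * C1 ^ 2 * (m : ℝ) ^ k * T) ^ dg K * ∏ i, (C2 / (nm (p i) : ℝ)) := by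
          rw [mul_pow, ← Finset.prod_pow]
          congr 1
          exact Finset.prod_congr rfl fun i _ => hrp i
  -- the sums of the reciprocals
  have hsum : ∀ i, C2 / (nm (p i) : ℝ) * ((P i).card : ℝ) ≤ (2 * C2) * ∑ v ∈ P i, (1 : ℝ) / nm v := by
    intro i
    have h9 := hq1 i
    have h16 : ((P i).card : ℝ) * (1 / (2 * (nm (p i) : ℝ))) ≤ ∑ v ∈ P i, (1 : ℝ) / nm v := by
      rw [← nsmul_eq_mul]
      apply Finset.card_nsmul_le_sum
      intro v hv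
      have h17 : (nm v : ℝ) ≤ 2 * (nm (p i) : ℝ) := by exact_mod_cast ((hP i).2 v hv).2 (p i) (hpP i)
      have h18 : (nm (p i) : ℝ) ≤ nm v := by exact_mod_cast hpm i v hv
      exact one_div_le_one_div_of_le (by linarith) h17
    calc C2 / (nm (p i) : ℝ) * ((P i).card : ℝ) = (2 * C2) * (((P i).card : ℝ) * (1 / (2 * (nm (p i) : ℝ)))) := by
          field_simp
      _ ≤ _ := mul_le_mul_of_nonneg_left h16 (by linarith)
  have hprods : (∏ i, (C2 / (nm (p i) : ℝ))) * ∏ i, ((P i).card : ℝ) ≤ (2 * C2) ^ k * ∏ i, ∑ v ∈ P i, (1 : ℝ) / nm v := by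
    rw [← Finset.prod_mul_distrib]
    calc ∏ i, (C2 / (nm (p i) : ℝ) * ((P i).card : ℝ)) ≤ ∏ i, ((2 * C2) * ∑ v ∈ P i, (1 : ℝ) / nm v) :=
          Finset.prod_le_prod (fun i _ => mul_nonneg (div_nonneg hC20.le (by linarith [hq1 i])) (Nat.cast_nonneg _)) (fun i _ => hsum i)
      _ = (2 * C2) ^ k * ∏ i, ∑ v ∈ P i, (1 : ℝ) / nm v := by
          rw [Finset.prod_mul_distrib, Finset.prod_const, Finset.card_univ, Fintype.card_fin]
  have hcard0 : (0 : ℝ) ≤ ∏ i, ((P i).card : ℝ) := Finset.prod_nonneg fun i _ => Nat.cast_nonneg _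
  have hA0 : (0 : ℝ) ≤ (2 * C1 ^ 2 * (m : ℝ) ^ k * T) ^ dg K := by positivity
  calc _ ≤ δ * (Hs K H).ncard * ∏ i, ((P i).card : ℝ) := hmain
    _ ≤ δ * ((2 * C1 ^ 2 * (m : ℝ) ^ k * T) ^ dg K * ∏ i, (C2 / (nm (p i) : ℝ))) * ∏ i, ((P i).card : ℝ) :=
        mul_le_mul_of_nonneg_right (mul_le_mul_of_nonneg_left hcount hδ.le) hcard0
    _ = δ * (2 * C1 ^ 2 * (m : ℝ) ^ k * T) ^ dg K * ((∏ i, (C2 / (nm (p i) : ℝ))) * ∏ i, ((P i).card : ℝ)) := by ring
    _ ≤ δ * (2 * C1 ^ 2 * (m : ℝ) ^ k * T) ^ dg K * ((2 * C2) ^ k * ∏ i, ∑ v ∈ P i, (1 : ℝ) / nm v) :=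
        mul_le_mul_of_nonneg_left hprods (mul_nonneg hδ.le hA0)
    _ = _ := by ring

end Pool.Agent.SGK
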