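import Pool.Agent.Lib.MP_452a87_nt.SGK.Spec

/-!
# KMn: the main theorem in coordinate boxes
-/

set_option autoImplicit false

namespace Pool.Agent.SGK

open NumberField IsDedekindDomain Pool.Agent.SG

namespace KMnAux

/-- Colours: classes of numbers in `[-π, π]` of diameter at most `1 / k`. -/
lemma colours (X : Type) (a : X → ℝ) (ha : ∀ x, |a x| ≤ Real.pi) (k : ℕ) :
    ∃ (M : ℕ) (col : X → Fin M), ∀ x y, col x = col y → |a x - a y| * (k : ℝ) ≤ 1 := by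
  have hk : (0 : ℝ) ≤ k := Nat.cast_nonneg k
  have h0 : ∀ x, 0 ≤ a x + Real.pi := fun x => by
    have := abs_le.1 (ha x)
    linarith
  refine ⟨⌊2 * Real.pi * k⌋₊ + 1, fun x => ⟨⌊(a x + Real.pi) * k⌋₊, ?_⟩, ?_⟩
  · apply Nat.lt_succ_of_le
    apply Nat.floor_le_floor
    have := abs_le.1 (ha x)
    nlinarith
  · intro x y h
    have h1 : ⌊(a x + Real.pi) * k⌋₊ = ⌊(a y + Real.pi) * k⌋₊ := congrArg Fin.val h
    have hx0 : 0 ≤ (a x + Real.pi) * k := mul_nonneg (h0 x) hk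
    have hy0 : 0 ≤ (a y + Real.pi) * k := mul_nonneg (h0 y) hk
    have e1 := Nat.floor_le hx0
    have e2 := Nat.lt_floor_add_one ((a x + Real.pi) * k)
    have e3 := Nat.floor_le hy0
    have e4 := Nat.lt_floor_add_one ((a y + Real.pi) * k)
    rw [h1] at e1 e2
    have h2 : |(a x + Real.pi) * k - (a y + Real.pi) * k| ≤ 1 :=
      abs_le.2 ⟨by linarith, by linarith⟩
    have h3 : (a x + Real.pi) * k - (a y + Real.pi) * k = (a x - a y) * k := by ring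
    rw [h3, abs_mul, abs_of_nonneg hk] at h2
    exact h2

/-- A number with small exponential. -/
lemma exists_sigma (η : ℝ) (hη : 0 < η) : ∃ σ : ℝ, 0 ≤ σ ∧ Real.exp (-σ) ≤ η := by
  refine ⟨max 0 (-Real.log η), le_max_left _ _, ?_⟩
  calc Real.exp (-(max 0 (-Real.log η))) ≤ Real.exp (Real.log η) := by
        apply Real.exp_le_exp.2
        have := le_max_right 0 (-Real.log η)
        linarith
    _ = η := Real.exp_log hη

/-- The number of elements of a finite union. -/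
lemma ncard_cover {X ι : Type} (s : Finset ι) (A : ι → Set X) (hA : ∀ i ∈ s, (A i).Finite)
    (S : Set X) (hS : ∀ x ∈ S, ∃ i ∈ s, x ∈ A i) (c : ℝ)
    (hc : ∀ i ∈ s, ((A i).ncard : ℝ) ≤ c) : (S.ncard : ℝ) ≤ s.card * c := by
  classical
  induction s using Finset.induction_on generalizing S with
  | empty =>
    have : S = ∅ := by
      ext x
      simp only [Set.mem_empty_iff_false, iff_false]
      intro hx
      obtain ⟨i, hi, _⟩ := hS x hx
      simp at hi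
    simp [this]
  | insert a s ha ih =>
    have hfin : (⋃ i ∈ s, A i).Finite := by
      apply Set.Finite.biUnion s.finite_toSet
      intro i hi
      exact hA i (Finset.mem_insert_of_mem hi)
    have h1 : ((S ∩ ⋃ i ∈ s, A i).ncard : ℝ) ≤ s.card * c := by
      apply ih (fun i hi => hA i (Finset.mem_insert_of_mem hi))
      · intro x hx
        obtain ⟨i, hi, hxi⟩ := Set.mem_iUnion₂.1 hx.2
        exact ⟨i, hi, hxi⟩
      · intro i hi
        exact hc i (Finset.mem_insert_of_mem hi)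
    have h2 : S ⊆ (S ∩ ⋃ i ∈ s, A i) ∪ A a := by
      intro x hx
      obtain ⟨i, hi, hxi⟩ := hS x hx
      rcases Finset.mem_insert.1 hi with rfl | hi
      · exact Or.inr hxi
      · exact Or.inl ⟨hx, Set.mem_iUnion₂.2 ⟨i, hi, hxi⟩⟩
    have h3 : S.ncard ≤ (S ∩ ⋃ i ∈ s, A i).ncard + (A a).ncard := by
      refine le_trans (Set.ncard_le_ncard h2 ?_) (Set.ncard_union_le _ _)
      exact (hfin.subset Set.inter_subset_right).union (hA a (Finset.mem_insert_self a s))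
    have h4 : (S.ncard : ℝ) ≤ ((S ∩ ⋃ i ∈ s, A i).ncard : ℝ) + ((A a).ncard : ℝ) := by
      exact_mod_cast h3
    have h5 := hc a (Finset.mem_insert_self a s)
    rw [Finset.card_insert_of_notMem ha]
    push_cast
    linarith

/-- The number of elements of a union of two sets. -/
lemma ncard_two {X : Type} (S A A' : Set X) (hA : A.Finite) (hA' : A'.Finite) (h : ∀ x ∈ S, x ∈ A ∨ x ∈ A')
    (c c' : ℝ) (hc : (A.ncard : ℝ) ≤ c) (hc' : (A'.ncard : ℝ) ≤ c') : (S.ncard : ℝ) ≤ c + c' := by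
  have h3 : S.ncard ≤ A.ncard + A'.ncard :=
    le_trans (Set.ncard_le_ncard (fun x hx => h x hx) (hA.union hA')) (Set.ncard_union_le _ _)
  have h4 : (S.ncard : ℝ) ≤ (A.ncard : ℝ) + (A'.ncard : ℝ) := by exact_mod_cast h3
  linarith

/-- The first computation: the `x` without a prime from one of the families. -/
lemma calc_one (k n T : ℕ) (hk : 1 ≤ k) (ε E : ℝ) (hε : 0 < ε) (hE : E ≤ ε / (4 * k)) :
    (E + ε / (4 * k)) * (2 * (T : ℝ) + 1) ^ n ≤ ε / (2 * k) * (2 * (T : ℝ) + 1) ^ n := by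
  apply mul_le_mul_of_nonneg_right _ (by positivity)
  have hk0 : (0 : ℝ) < k := by exact_mod_cast hk
  have : ε / (2 * k) = ε / (4 * k) + ε / (4 * k) := by
    field_simp
    ring
  rw [this]
  linarith

/-- The second computation. -/
lemma calc_two (k n T m : ℕ) (hm : 1 ≤ m) (ε C1 C2 σ0 : ℝ) (hε : 0 < ε) (hC1 : 1 ≤ C1) (hC2 : 1 ≤ C2)
    (hσ : 0 ≤ σ0) (g : Fin k → ℝ) (hg0 : ∀ i, 0 ≤ g i) (hg : ∀ i, g i ≤ σ0 + 1) :
    ((ε / 2) / ((2 * C1 ^ 2 * (m : ℝ) ^ k) ^ n * (2 * C2) ^ k * (σ0 + 1) ^ k) *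
      (2 * C1 ^ 2 * (m : ℝ) ^ k * T) ^ n * (2 * C2) ^ k) * ∏ i, g i ≤ ε / 2 * (2 * (T : ℝ) + 1) ^ n := by
  have hm0 : (0 : ℝ) < m := by exact_mod_cast hm
  have hC10 : 0 < C1 := by linarith
  have hC20 : 0 < C2 := by linarith
  have hσ1 : 0 < σ0 + 1 := by linarith
  have h1 : ∏ i, g i ≤ (σ0 + 1) ^ k := by
    calc ∏ i, g i ≤ ∏ _i : Fin k, (σ0 + 1) := Finset.prod_le_prod (fun i _ => hg0 i) (fun i _ => hg i)
      _ = (σ0 + 1) ^ k := by simp
  have hTn : (T : ℝ) ^ n ≤ (2 * (T : ℝ) + 1) ^ n := by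
    apply pow_le_pow_left₀ (Nat.cast_nonneg T)
    have : (0 : ℝ) ≤ T := Nat.cast_nonneg T
    linarith
  set A : ℝ := (2 * C1 ^ 2 * (m : ℝ) ^ k) ^ n with hA
  have hA0 : 0 < A := by positivity
  have h2 : (2 * C1 ^ 2 * (m : ℝ) ^ k * T) ^ n = A * (T : ℝ) ^ n := by rw [mul_pow]
  rw [h2]
  calc (ε / 2 / (A * (2 * C2) ^ k * (σ0 + 1) ^ k) * (A * (T : ℝ) ^ n) * (2 * C2) ^ k) * ∏ i, g i
      ≤ (ε / 2 / (A * (2 * C2) ^ k * (σ0 + 1) ^ k) * (A * (T : ℝ) ^ n) * (2 * C2) ^ k) * (σ0 + 1) ^ k := by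
        apply mul_le_mul_of_nonneg_left h1 (by positivity)
    _ = ε / 2 * (T : ℝ) ^ n := by
        field_simp
    _ ≤ ε / 2 * (2 * (T : ℝ) + 1) ^ n := mul_le_mul_of_nonneg_left hTn (by positivity)

/-- The main theorem with an abstract notion of bad numbers. -/
lemma core (hHs : S_KHs) (hYv : S_KYv) (hSv : S_KSv) (hDv : S_KDv) (hCl : S_KCl) (hKs : S_KKs)
    (hMc : S_KMc) (hMb : S_KMb) (k : ℕ) (hk : 1 ≤ k) (K : Type) [Field K] [NumberField K]
    (φ : K →+* ℂ) (ε : ℝ) (hε : 0 < ε) :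
    ∃ T0 : ℕ, ∀ T : ℕ, T0 ≤ T → ∀ Bad : 𝓞 K → Prop,
    (∀ (m N0 : ℕ) (y : HeightOneSpectrum (𝓞 K) → 𝓞 K) (B : Finset (𝓞 K))
      (P : Fin k → Finset (HeightOneSpectrum (𝓞 K))), 1 ≤ m → (∀ v, y v ≠ 0 ∧ y v ∈ v.asIdeal) →
      (∀ v w, w ≠ v → N0 < nm w → y v ∉ w.asIdeal) → (∀ i, ∀ v ∈ P i, N0 < nm v) →
      (∀ i j, i ≠ j → Disjoint (P i) (P j)) →
      (∀ i, ∀ v ∈ P i, ∀ w ∈ P i,
        |Complex.arg (φ (y v : K)) - Complex.arg (φ (y w : K))| * (k : ℝ) ≤ 1) →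
      (∀ x ∈ B, x ≠ 0 ∧ Bad x) →
      ∀ (β : 𝓞 K) (u u' : Fin k → HeightOneSpectrum (𝓞 K)), (∀ i, u i ∈ P i ∧ u' i ∈ P i ∧ u i ≠ u' i) →
        ¬ ∀ W : Finset (Fin k), ∃ x ∈ B, (m : 𝓞 K) ^ k * x = β * ∏ i, y (if i ∈ W then u' i else u i)) →
    (Set.ncard {x : 𝓞 K | x ∈ Bx K T ∧ x ≠ 0 ∧ Bad x} : ℝ) ≤ ε * (2 * (T : ℝ) + 1) ^ dg K := by
  classical
  have hk0 : (0 : ℝ) < k := by exact_mod_cast hk
  obtain ⟨_, hn1, hBx, C1, hC1, hA, _, hH⟩ := hHs K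
  obtain ⟨C2, m, N0, y, hC2, hm, hy, hw, hz⟩ := hYv K
  obtain ⟨hns, hfinx, hnm2⟩ := hDv K
  have hm0 : (0 : ℝ) < m := by exact_mod_cast hm
  have hC10 : 0 < C1 := by linarith
  have hC20 : 0 < C2 := by linarith
  have hη : 0 < ε / (4 * k) := by positivity
  obtain ⟨σ0, hσ0, hσ⟩ := exists_sigma (ε / (4 * k)) hη
  have hσ1 : 0 < σ0 + 1 := by linarith
  set δ : ℝ := (ε / 2) / ((2 * C1 ^ 2 * (m : ℝ) ^ k) ^ dg K * (2 * C2) ^ k * (σ0 + 1) ^ k) with hδ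
  have hδ0 : 0 < δ := by positivity
  obtain ⟨R0, hR0⟩ := hKs k δ hδ0
  obtain ⟨M, col, hcol⟩ := colours (HeightOneSpectrum (𝓞 K)) (fun v => Complex.arg (φ (y v : K)))
    (fun v => Complex.abs_arg_le_pi _) k
  obtain ⟨G, hG1, hG2, hG3⟩ := hCl (HeightOneSpectrum (𝓞 K)) nm M col hfinx hns (max R0 1) k N0 σ0
    (le_max_right _ _) hσ0
  let Q : Fin k → Finset (HeightOneSpectrum (𝓞 K)) := fun i => (G i).biUnion id
  have hQsum : ∀ i, σ0 ≤ ∑ v ∈ Q i, (1 : ℝ) / nm v := by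
    intro i
    have h1 : ∑ v ∈ Q i, (1 : ℝ) / nm v = ∑ P ∈ G i, ∑ v ∈ P, (1 : ℝ) / nm v := by
      apply Finset.sum_biUnion
      intro P hP P' hP' hne
      exact hG2 i P hP i P' hP' (Or.inr hne)
    rw [h1]
    exact (hG3 i).1
  choose Ts hTs using fun i : Fin k => hSv K (Q i) (ε / (4 * k)) hη
  let Tp : ℕ := (Fintype.piFinset Q).sup (fun u => ∏ i, nm (u i))
  refine ⟨max (Finset.univ.sup Ts) Tp, ?_⟩
  intro T hT Bad hBad
  have hT1 : ∀ i, Ts i ≤ T := fun i =>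
    le_trans (Finset.le_sup (f := Ts) (Finset.mem_univ i)) (le_trans (le_max_left _ _) hT)
  have hT2 : Tp ≤ T := le_trans (le_max_right _ _) hT
  have hSfin : {x : 𝓞 K | x ∈ Bx K T ∧ x ≠ 0 ∧ Bad x}.Finite :=
    (hBx T).1.subset (fun x hx => hx.1)
  set B : Finset (𝓞 K) := hSfin.toFinset with hB
  have hBmem : ∀ x, x ∈ B ↔ (x ∈ Bx K T ∧ x ≠ 0 ∧ Bad x) := by
    intro x
    exact hSfin.mem_toFinset
  -- the first part
  have hpart1 : ({x : 𝓞 K | x ∈ Bx K T ∧ ∃ i, ∀ v ∈ Q i, x ∉ v.asIdeal}.ncard : ℝ) ≤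
      ε / 2 * (2 * (T : ℝ) + 1) ^ dg K := by
    have h := ncard_cover (Finset.univ : Finset (Fin k))
      (fun i => {x : 𝓞 K | x ∈ Bx K T ∧ ∀ v ∈ Q i, x ∉ v.asIdeal})
      (fun i _ => (hBx T).1.subset (fun x hx => hx.1))
      {x : 𝓞 K | x ∈ Bx K T ∧ ∃ i, ∀ v ∈ Q i, x ∉ v.asIdeal}
      (fun x hx => by
        obtain ⟨h1, i, h2⟩ := hx
        exact ⟨i, Finset.mem_univ i, h1, h2⟩)
      (ε / (2 * k) * (2 * (T : ℝ) + 1) ^ dg K)
      (fun i _ => by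
        refine le_trans (hTs i T (hT1 i)) ?_
        apply calc_one k (dg K) T hk ε _ hε
        refine le_trans (Real.exp_le_exp.2 ?_) hσ
        have := hQsum i
        linarith)
    refine le_trans h (le_of_eq ?_)
    rw [Finset.card_univ, Fintype.card_fin]
    field_simp
  -- the second part
  have hpart2 : ({x : 𝓞 K | x ∈ B ∧ ∀ i, ∃ P ∈ G i, ∃ v ∈ P, x ∈ v.asIdeal}.ncard : ℝ) ≤
      ε / 2 * (2 * (T : ℝ) + 1) ^ dg K := by
    have h := hMb (𝓞 K) (HeightOneSpectrum (𝓞 K)) k B (fun x v => x ∈ v.asIdeal) G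
      (fun P => ∑ v ∈ P, (1 : ℝ) / nm v)
      (δ * (2 * C1 ^ 2 * (m : ℝ) ^ k * T) ^ dg K * (2 * C2) ^ k) (by
        intro P hP
        have hdisj : ∀ i j, i ≠ j → Disjoint (P i) (P j) := fun i j hij =>
          hG2 i (P i) (hP i) j (P j) (hP j) (Or.inl hij)
        have hcards : ∀ i, R0 ≤ (P i).card := fun i => by
          rw [(hG1 i (P i) (hP i)).1]
          exact le_max_left _ _
        exact hMc K m N0 C1 C2 y hn1 hC1 hC2 hm hA (fun H hH0 => ⟨(hH H hH0).1, (hH H hH0).2.1⟩)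
          (fun v => ⟨(hy v).1, (hy v).2.2⟩) hw hz k (max R0 1) T P B δ hδ0 (le_max_right _ _)
          (fun x hx => ((hBmem x).1 hx).1)
          (fun i => ⟨(hG1 i (P i) (hP i)).1, fun v hv => ⟨((hG1 i (P i) (hP i)).2 v hv).1,
            fun w hw' => (((hG1 i (P i) (hP i)).2 v hv).2 w hw').1⟩⟩)
          hdisj
          (fun u hu => by
            have hmem : u ∈ Fintype.piFinset Q := by
              rw [Fintype.mem_piFinset]
              intro i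
              exact Finset.mem_biUnion.2 ⟨P i, hP i, hu i⟩
            exact le_trans (Finset.le_sup (f := fun u : Fin k → HeightOneSpectrum (𝓞 K) =>
              ∏ i, nm (u i)) hmem) hT2)
          (fun S hS => hR0 (HeightOneSpectrum (𝓞 K)) P hcards S hS)
          (fun β u u' hu => hBad m N0 y B P hm (fun v => ⟨(hy v).1, (hy v).2.1⟩) hw
            (fun i v hv => ((hG1 i (P i) (hP i)).2 v hv).1) hdisj
            (fun i v hv w hw' => hcol v w (((hG1 i (P i) (hP i)).2 v hv).2 w hw').2)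
            (fun x hx => ((hBmem x).1 hx).2) β u u' hu))
    refine le_trans h ?_
    rw [hδ]
    apply calc_two k (dg K) T m hm ε C1 C2 σ0 hε hC1 hC2 hσ0
      (fun i => ∑ P ∈ G i, ∑ v ∈ P, (1 : ℝ) / nm v)
    · intro i
      exact le_trans hσ0 (hG3 i).1
    · intro i
      exact (hG3 i).2
  -- together
  have hfin := ncard_two {x : 𝓞 K | x ∈ Bx K T ∧ x ≠ 0 ∧ Bad x}
    {x : 𝓞 K | x ∈ Bx K T ∧ ∃ i, ∀ v ∈ Q i, x ∉ v.asIdeal}
    {x : 𝓞 K | x ∈ B ∧ ∀ i, ∃ P ∈ G i, ∃ v ∈ P, x ∈ v.asIdeal}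
    ((hBx T).1.subset (fun x hx => hx.1))
    (B.finite_toSet.subset (fun x hx => hx.1))
    (by
      intro x hx
      by_cases h : ∃ i, ∀ v ∈ Q i, x ∉ v.asIdeal
      · exact Or.inl ⟨hx.1, h⟩
      · right
        refine ⟨(hBmem x).2 hx, ?_⟩
        intro i
        push Not at h
        obtain ⟨v, hv, hxv⟩ := h i
        obtain ⟨P, hP, hvP⟩ := Finset.mem_biUnion.1 hv
        exact ⟨P, hP, v, hvP, hxv⟩)
    _ _ hpart1 hpart2
  refine le_trans hfin (le_of_eq ?_)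
  ring

end KMnAux

/-- KMn: the main theorem in coordinate boxes. -/
theorem pKMn : S_KHs → S_KYv → S_KSv → S_KDv → S_KCl → S_KKs → S_KNo → S_KMc → S_KMb → S_KMn := by
  intro hHs hYv hSv hDv hCl hKs hNo hMc hMb e K _ _ φ ε hε
  have hk : 1 ≤ 4 * kk e := by
    unfold kk
    have : 1 ≤ (e + 1) ^ 2 := Nat.one_le_pow _ _ (by omega)
    omega
  obtain ⟨T0, hT0⟩ := KMnAux.core hHs hYv hSv hDv hCl hKs hMc hMb (4 * kk e) hk K φ ε hε
  refine ⟨T0, ?_⟩
  intro T hT F hF hFe lam hlam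
  apply hT0 T hT (fun x => ¬ Good F (lam + Complex.log (φ (x : K))))
  intro m N0 y B P hm hy hw hP hdisj harg hB β u u' hu
  exact hNo e F hF hFe lam hlam K φ m N0 y B P hm hy hw hP hdisj
    (fun i v hv w hw' => by
      have h := harg i v hv w hw'
      push_cast at h
      exact h) hB β u u' hu

end Pool.Agent.SGK
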