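import Pool.Agent.Lib.MP_452a87_nt.SGK.Spec

/-! # (KNo) There is no cube of bad numbers -/

set_option autoImplicit false

namespace Pool.Agent.SGK

open NumberField IsDedekindDomain Pool.Agent.SG

namespace KNoAux

theorem alg {K : Type} [Field K] [NumberField K] (φ : K →+* ℂ) (x : K) : IsAlgebraic ℚ (φ x) := by
  have h : IsAlgebraic ℚ x := Algebra.IsAlgebraic.isAlgebraic x
  exact h.algHom φ.toRatAlgHom

end KNoAux

theorem pKNo : S_KBr → S_KLi → S_KNo := by
  intro hBr hLi e F hF hF2 lam hlam K _ _ φ m N0 y B P hm hy hyw hPN hPd hPa hB β u u' hu h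
  have hinj : Function.Injective (fun x : 𝓞 K => φ (x : K)) := fun a b hab =>
    RingOfIntegers.coe_injective (φ.injective hab)
  have hmK : (m : 𝓞 K) ≠ 0 := by
    have : m ≠ 0 := by omega
    exact_mod_cast this
  have hβ : β ≠ 0 := by
    rintro rfl
    obtain ⟨x, hx, hxe⟩ := h ∅
    rw [zero_mul] at hxe
    exact (mul_ne_zero (pow_ne_zero _ hmK) (hB x hx).1) hxe
  set v : Bool → Fin (4 * kk e) → HeightOneSpectrum (𝓞 K) :=
    fun s i => if s = true then u' i else u i with hv
  have hvP : ∀ s i, v s i ∈ P i := by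
    intro s i
    simp only [hv]
    split_ifs
    · exact (hu i).2.1
    · exact (hu i).1
  have hvne : ∀ s i s' i', (s, i) ≠ (s', i') → v s i ≠ v s' i' := by
    intro s i s' i' hne heq
    by_cases hi : i = i'
    · subst hi
      have hs : s ≠ s' := fun hs => hne (by rw [hs])
      have h3 := (hu i).2.2
      cases s <;> cases s'
      · exact hs rfl
      · exact h3 (by simpa [hv] using heq)
      · exact h3 (by simpa [hv] using heq.symm)
      · exact hs rfl
    · have h1 := hvP s i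
      have h2 := hvP s' i'
      rw [heq] at h1
      exact (Finset.disjoint_left.1 (hPd i i' hi)) h1 h2
  have hy0 : ∀ w, φ ((y w : 𝓞 K) : K) ≠ 0 := by
    intro w hw
    have h1 : φ ((y w : 𝓞 K) : K) = φ (((0 : 𝓞 K)) : K) := by rw [hw]; simp
    exact (hy w).1 (hinj h1)
  have hLI := hLi K φ (4 * kk e) v y (fun s i => ⟨(hy _).1, (hy _).2⟩)
    (fun s i s' i' hne => hyw _ _ (hvne s i s' i' hne) (hPN i _ (hvP s i)))
  set z : Bool → Fin (4 * kk e) → ℂ := fun s i => φ (y (v s i) : K) with hz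
  have hmC : ((m : ℂ)) ≠ 0 := by
    have : m ≠ 0 := by omega
    exact_mod_cast this
  have hφβ : φ (β : K) ≠ 0 := by
    intro hw
    have h1 : φ (β : K) = φ (((0 : 𝓞 K)) : K) := by rw [hw]; simp
    exact hβ (hinj h1)
  set c : ℂ := φ (β : K) / (m : ℂ) ^ (4 * kk e) with hc
  have hc0 : c ≠ 0 := div_ne_zero hφβ (pow_ne_zero _ hmC)
  have hcφ : c = φ ((β : K) / (m : K) ^ (4 * kk e)) := by
    rw [hc, map_div₀, map_pow, map_natCast]
  obtain ⟨W, hW⟩ := hBr e F hF hF2 lam c z hlam (by rw [hcφ]; exact KNoAux.alg φ _) hc0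
    (fun s i => ⟨KNoAux.alg φ _, hy0 _⟩) hLI (by
      intro i
      rw [Complex.sub_im, Complex.log_im, Complex.log_im]
      exact hPa i _ (hvP true i) _ (hvP false i))
  obtain ⟨x, hx, hxe⟩ := h W
  apply (hB x hx).2
  have h1 : φ (x : K) = c * ∏ i, z (decide (i ∈ W)) i := by
    have h2 := congrArg (fun t : 𝓞 K => φ (t : K)) hxe
    simp only [map_mul, map_pow, map_natCast, map_prod] at h2
    rw [hc, div_mul_eq_mul_div, eq_div_iff (pow_ne_zero _ hmC), mul_comm (φ (x : K))]
    rw [h2]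
    congr 1
    refine Finset.prod_congr rfl fun i _ => ?_
    simp only [hz, hv, decide_eq_true_eq]
  rw [h1]
  exact hW

end Pool.Agent.SGK
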