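import Pool.Agent.Lib.MP_452a87_nt.SGK.Spec

/-!
# Theorem SGK, module KS1: the sieve, residues (author helper21)
-/

set_option autoImplicit false

namespace Pool.Agent.SGK

open NumberField IsDedekindDomain Pool.Agent.SG

namespace KS1Aux

/-- preimages under a surjective homomorphism of finite groups -/
theorem card_pre {G H : Type} [AddCommGroup G] [AddCommGroup H] [Fintype G] [Fintype H]
    [DecidableEq H] (g : G →+ H) (hg : Function.Surjective g) (U : Finset H) :
    (Finset.univ.filter fun x => g x ∈ U).card * Fintype.card H = Fintype.card G * U.card := by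
  classical
  have h1 : ∀ u : H, (Finset.univ.filter fun x => g x = u).card
      = (Finset.univ.filter fun x => g x = 0).card := fun u =>
    AddMonoidHom.card_fiber_eq_of_mem_range g (hg u) (hg 0)
  have h2 : ∀ V : Finset H, (Finset.univ.filter fun x => g x ∈ V).card
      = V.card * (Finset.univ.filter fun x => g x = 0).card := by
    intro V
    rw [Finset.card_eq_sum_card_fiberwise (f := g) (t := V)]
    · rw [← smul_eq_mul, ← Finset.sum_const]
      apply Finset.sum_congr rfl
      intro u hu
      rw [← h1 u, Finset.filter_filter]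
      congr 1
      ext x
      simp only [Finset.mem_filter, Finset.mem_univ, true_and]
      constructor
      · exact fun h => h.2
      · intro h
        exact ⟨by rw [h]; exact hu, h⟩
    · intro x hx
      simpa using hx
  have h3 := h2 Finset.univ
  have h4 : (Finset.univ.filter fun x => g x ∈ (Finset.univ : Finset H)) = (Finset.univ : Finset G) := by
    ext x
    simp
  rw [h4, Finset.card_univ, Finset.card_univ] at h3
  rw [h2 U, h3]
  ring

end KS1Aux

open KS1Aux

theorem pKS1 : S_KHs → S_KS1 := by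
  classical
  intro hHs K _ _ Q
  obtain ⟨-, hdg, -⟩ := hHs K
  set q : ℕ := ∏ v ∈ Q, nm v with hq
  have hnm : ∀ v : HeightOneSpectrum (𝓞 K), 1 ≤ nm v := by
    intro v
    have h1 : Ideal.absNorm v.asIdeal ≠ 0 := by
      rw [Ne, Ideal.absNorm_eq_zero_iff]
      exact v.ne_bot
    exact Nat.one_le_iff_ne_zero.2 h1
  have hq1 : 1 ≤ q := Finset.one_le_prod'' (fun v => hnm v)
  have hqv : ∀ v ∈ Q, (q : 𝓞 K) ∈ v.asIdeal := by
    intro v hv
    obtain ⟨c, hc⟩ := Finset.dvd_prod_of_mem nm hv
    rw [← hq] at hc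
    rw [hc, Nat.cast_mul]
    exact v.asIdeal.mul_mem_right _ (Ideal.absNorm_mem v.asIdeal)
  have hco : ∀ (x y : 𝓞 K) (i : ix K), co (x - y) i = co x i - co y i := by
    intro x y i
    unfold co
    rw [map_sub]
    rfl
  have hcoq : ∀ (z : 𝓞 K) (i : ix K), co ((q : 𝓞 K) * z) i = q * co z i := by
    intro z i
    unfold co
    rw [← nsmul_eq_mul, map_nsmul]
    simp
  have hext : ∀ x y : 𝓞 K, (∀ i, co x i = co y i) → x = y := by
    intro x y h
    apply (RingOfIntegers.basis K).repr.injective
    ext i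
    exact h i
  have hdiv : ∀ x y : 𝓞 K, (∀ i, (q : ℤ) ∣ co x i - co y i) → ∃ z : 𝓞 K, x - y = q * z := by
    intro x y h
    choose c hc using h
    refine ⟨(RingOfIntegers.basis K).equivFun.symm c, ?_⟩
    apply hext
    intro i
    rw [hco, hcoq, hc i]
    congr 1
    unfold co
    have h1 := congrFun ((RingOfIntegers.basis K).equivFun.apply_symm_apply c) i
    rw [Module.Basis.equivFun_apply] at h1
    exact h1.symm
  refine ⟨q, hq1, ?_, ?_⟩
  · intro x y h v hv
    obtain ⟨z, hz⟩ := hdiv x y h
    have h1 : x - y ∈ v.asIdeal := by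
      rw [hz]
      exact v.asIdeal.mul_mem_right _ (hqv v hv)
    constructor
    · intro hx
      have h2 := v.asIdeal.sub_mem hx h1
      rwa [sub_sub_cancel] at h2
    · intro hy
      have h2 := v.asIdeal.add_mem h1 hy
      rwa [sub_add_cancel] at h2
  · -- the finite groups
    set J : Ideal (𝓞 K) := Ideal.span {(q : 𝓞 K)} with hJ
    have hJ0 : J ≠ ⊥ := by
      rw [hJ, Ne, Ideal.span_singleton_eq_bot]
      have : (q : ℕ) ≠ 0 := by omega
      exact_mod_cast this
    have hfinG : Finite (𝓞 K ⧸ J) := Ideal.finiteQuotientOfFreeOfNeBot J hJ0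
    have hfinV : ∀ v : HeightOneSpectrum (𝓞 K), Finite (𝓞 K ⧸ v.asIdeal) := fun v =>
      Ideal.finiteQuotientOfFreeOfNeBot v.asIdeal v.ne_bot
    let _ : Fintype (𝓞 K ⧸ J) := Fintype.ofFinite _
    let _ : ∀ v : Q, Fintype (𝓞 K ⧸ v.1.asIdeal) := fun v => Fintype.ofFinite _
    have hcG : Fintype.card (𝓞 K ⧸ J) = q ^ dg K := by
      rw [← Nat.card_eq_fintype_card]
      have h1 : Ideal.absNorm J = Nat.card (𝓞 K ⧸ J) := by
        rw [Ideal.absNorm_apply, Submodule.cardQuot_apply]
      rw [← h1, hJ, Ideal.absNorm_span_singleton]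
      have h2 : (q : 𝓞 K) = algebraMap ℤ (𝓞 K) (q : ℤ) := by simp
      rw [h2, Algebra.norm_algebraMap, Int.natAbs_pow, Int.natAbs_natCast]
      congr 1
      rw [RingOfIntegers.rank]
      rfl
    have hcV : ∀ v : Q, Fintype.card (𝓞 K ⧸ v.1.asIdeal) = nm v.1 := by
      intro v
      rw [← Nat.card_eq_fintype_card]
      unfold nm
      rw [Ideal.absNorm_apply, Submodule.cardQuot_apply]
    have hcH : Fintype.card (∀ v : Q, 𝓞 K ⧸ v.1.asIdeal) = q := by
      rw [Fintype.card_pi, hq, ← Finset.prod_attach Q nm]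
      exact Finset.prod_congr rfl fun v _ => hcV v
    -- the homomorphism
    let f : 𝓞 K →+* ∀ v : Q, 𝓞 K ⧸ v.1.asIdeal := RingHom.pi fun v => Ideal.Quotient.mk v.1.asIdeal
    have hf : Function.Surjective f := by
      have h1 : Pairwise fun v w : Q => IsCoprime v.1.asIdeal w.1.asIdeal := by
        intro v w hvw
        rw [Ideal.isCoprime_iff_sup_eq]
        apply v.1.isMaximal.coprime_of_ne w.1.isMaximal
        intro h
        apply hvw
        apply Subtype.ext
        exact HeightOneSpectrum.ext h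
      intro y
      obtain ⟨r, hr⟩ := Ideal.pi_quotient_surjective h1 y
      exact ⟨r, funext hr⟩
    have hfJ : ∀ x ∈ J, f x = 0 := by
      intro x hx
      funext v
      change Ideal.Quotient.mk v.1.asIdeal x = 0
      rw [Ideal.Quotient.eq_zero_iff_mem]
      rw [hJ, Ideal.mem_span_singleton'] at hx
      obtain ⟨a, rfl⟩ := hx
      exact v.1.asIdeal.mul_mem_left _ (hqv v.1 v.2)
    let g : (𝓞 K ⧸ J) →+* ∀ v : Q, 𝓞 K ⧸ v.1.asIdeal := Ideal.Quotient.lift J f hfJ
    have hg : Function.Surjective g := Ideal.Quotient.lift_surjective_of_surjective J hfJ hf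
    let U : Finset (∀ v : Q, 𝓞 K ⧸ v.1.asIdeal) :=
      Fintype.piFinset fun v => (Finset.univ : Finset (𝓞 K ⧸ v.1.asIdeal)).erase 0
    have hU : (U.card : ℝ) = ∏ v ∈ Q, ((nm v : ℝ) - 1) := by
      rw [Fintype.card_piFinset, Nat.cast_prod, ← Finset.prod_attach Q]
      apply Finset.prod_congr rfl
      intro v _
      rw [Finset.card_erase_of_mem (Finset.mem_univ _), Finset.card_univ, hcV v,
        Nat.cast_sub (hnm v.1), Nat.cast_one]
    have hmain := card_pre g.toAddMonoidHom hg U
    rw [hcG, hcH] at hmain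
    -- the set
    set S : Set (𝓞 K) := {x : 𝓞 K | (∀ i, 0 ≤ co x i ∧ co x i < (q : ℤ)) ∧ ∀ v ∈ Q, x ∉ v.asIdeal} with hS
    set W : Finset (𝓞 K ⧸ J) := Finset.univ.filter fun x => g.toAddMonoidHom x ∈ U with hW
    have hSW : S.ncard ≤ W.card := by
      rw [← Set.ncard_coe_finset W]
      apply Set.ncard_le_ncard_of_injOn (fun x => Ideal.Quotient.mk J x)
      · rintro x ⟨-, hx⟩
        rw [Finset.mem_coe, hW, Finset.mem_filter]
        refine ⟨Finset.mem_univ _, ?_⟩
        rw [Fintype.mem_piFinset]
        intro v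
        rw [Finset.mem_erase]
        refine ⟨?_, Finset.mem_univ _⟩
        change Ideal.Quotient.mk v.1.asIdeal x ≠ 0
        rw [Ne, Ideal.Quotient.eq_zero_iff_mem]
        exact hx v.1 v.2
      · rintro x ⟨hx, -⟩ y ⟨hy, -⟩ hxy
        have h1 := (Ideal.Quotient.mk_eq_mk_iff_sub_mem x y).1 hxy
        rw [hJ, Ideal.mem_span_singleton'] at h1
        obtain ⟨z, hz⟩ := h1
        apply hext
        intro i
        have h2 : co x i - co y i = q * co z i := by
          rw [← hco, ← hcoq, ← hz, mul_comm]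
        have h3 : |co x i - co y i| < q := by
          rw [abs_lt]
          constructor
          · have := (hx i).1
            have := (hy i).2
            linarith
          · have := (hx i).2
            have := (hy i).1
            linarith
        have h4 : co x i - co y i = 0 := Int.eq_zero_of_abs_lt_dvd ⟨_, h2⟩ h3
        linarith
    have hqr : (0 : ℝ) < q := by exact_mod_cast hq1
    have h5 : (W.card : ℝ) = (q : ℝ) ^ dg K * ∏ v ∈ Q, (1 - 1 / (nm v : ℝ)) := by
      have h6 : (W.card : ℝ) * q = (q : ℝ) ^ dg K * U.card := by exact_mod_cast hmain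
      have h7 : ∏ v ∈ Q, ((nm v : ℝ) - 1) = q * ∏ v ∈ Q, (1 - 1 / (nm v : ℝ)) := by
        rw [hq, Nat.cast_prod, ← Finset.prod_mul_distrib]
        apply Finset.prod_congr rfl
        intro v _
        have h8 : (nm v : ℝ) ≠ 0 := by
          have := hnm v
          exact_mod_cast (by omega : nm v ≠ 0)
        field_simp
      rw [hU, h7] at h6
      have h9 : (W.card : ℝ) * q = ((q : ℝ) ^ dg K * ∏ v ∈ Q, (1 - 1 / (nm v : ℝ))) * q := by
        rw [h6]
        ring
      exact mul_right_cancel₀ hqr.ne' h9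
    calc (S.ncard : ℝ) ≤ W.card := by exact_mod_cast hSW
      _ = (q : ℝ) ^ dg K * ∏ v ∈ Q, (1 - 1 / (nm v : ℝ)) := h5
      _ ≤ (q : ℝ) ^ dg K * Real.exp (-∑ v ∈ Q, (1 : ℝ) / nm v) := by
        apply mul_le_mul_of_nonneg_left _ (by positivity)
        rw [← Finset.sum_neg_distrib, Real.exp_sum]
        apply Finset.prod_le_prod
        · intro v _
          have h8 : (1 : ℝ) ≤ nm v := by exact_mod_cast hnm v
          have h9 : 1 / (nm v : ℝ) ≤ 1 := by
            rw [div_le_one (by linarith)]
            exact h8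
          linarith
        · intro v _
          have := Real.add_one_le_exp (-(1 / (nm v : ℝ)))
          linarith

end Pool.Agent.SGK
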