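import Pool.Agent.Lib.MP_452a87_nt.SGK.Spec

/-!
# Theorem SGK, module KSv: the sieve in a box
-/

set_option autoImplicit false

namespace Pool.Agent.SGK

open NumberField IsDedekindDomain Pool.Agent.SG

namespace KSvAux

variable {K : Type} [Field K] [NumberField K]

/-- The algebraic integer with given coordinates. -/
noncomputable def el (c : ix K → ℤ) : 𝓞 K := (RingOfIntegers.basis K).equivFun.symm c

lemma co_el (c : ix K → ℤ) (i : ix K) : co (el c) i = c i := by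
  have h := congrFun ((RingOfIntegers.basis K).equivFun.apply_symm_apply c) i
  rw [Module.Basis.equivFun_apply] at h
  exact h

lemma co_inj {x y : 𝓞 K} (h : ∀ i, co x i = co y i) : x = y := by
  apply (RingOfIntegers.basis K).equivFun.injective
  funext i
  rw [Module.Basis.equivFun_apply, Module.Basis.equivFun_apply]
  exact h i

/-- The residue. -/
noncomputable def res (q : ℕ) (x : 𝓞 K) : 𝓞 K := el (fun i => co x i % (q : ℤ))

lemma count (hfin : ∀ T : ℕ, (Bx K T).Finite) (Q : Finset (HeightOneSpectrum (𝓞 K))) (q : ℕ) (hq : 1 ≤ q)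
    (h1 : ∀ x y : 𝓞 K, (∀ i, (q : ℤ) ∣ co x i - co y i) → ∀ v ∈ Q, (x ∈ v.asIdeal ↔ y ∈ v.asIdeal)) (T : ℕ) :
    Set.ncard {x : 𝓞 K | x ∈ Bx K T ∧ ∀ v ∈ Q, x ∉ v.asIdeal} ≤
      Set.ncard {x : 𝓞 K | (∀ i, 0 ≤ co x i ∧ co x i < (q : ℤ)) ∧ ∀ v ∈ Q, x ∉ v.asIdeal} *
        (2 * (T / q) + 2) ^ Fintype.card (ix K) := by
  classical
  set R : Set (𝓞 K) := {x : 𝓞 K | (∀ i, 0 ≤ co x i ∧ co x i < (q : ℤ)) ∧ ∀ v ∈ Q, x ∉ v.asIdeal} with hR
  have hRf : R.Finite := by
    refine (hfin q).subset ?_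
    intro x hx i
    have := hx.1 i
    rw [abs_of_nonneg this.1]
    exact this.2.le
  have hq0 : (0 : ℤ) < (q : ℤ) := by exact_mod_cast hq
  let I : Finset ℤ := Finset.Icc (-((T / q : ℕ) : ℤ) - 1) ((T / q : ℕ) : ℤ)
  let F : Finset (ix K → ℤ) := Fintype.piFinset (fun _ => I)
  have hIc : I.card = 2 * (T / q) + 2 := by
    have : I.card = ((T / q : ℕ) + 1 - (-((T / q : ℕ) : ℤ) - 1)).toNat := Int.card_Icc _ _
    rw [this]
    omega
  have hFc : F.card = (2 * (T / q) + 2) ^ Fintype.card (ix K) := by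
    simp only [F, Fintype.card_piFinset, Finset.prod_const, hIc, Finset.card_univ]
  have key : Set.ncard {x : 𝓞 K | x ∈ Bx K T ∧ ∀ v ∈ Q, x ∉ v.asIdeal} ≤ Set.ncard (R ×ˢ (F : Set (ix K → ℤ))) := by
    refine Set.ncard_le_ncard_of_injOn (fun x => (res q x, fun i => co x i / (q : ℤ))) ?_ ?_ (hRf.prod F.finite_toSet)
    · intro x hx
      refine ⟨⟨fun i => ?_, fun v hv hmem => ?_⟩, ?_⟩
      · show 0 ≤ co (res q x) i ∧ co (res q x) i < (q : ℤ)
        unfold res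
        rw [co_el]
        exact ⟨Int.emod_nonneg _ hq0.ne', Int.emod_lt_of_pos _ hq0⟩
      · refine hx.2 v hv ((h1 x (res q x) (fun i => ?_) v hv).2 hmem)
        unfold res
        rw [co_el]
        exact Int.dvd_self_sub_emod
      · show (fun i => co x i / (q : ℤ)) ∈ (F : Set (ix K → ℤ))
        rw [Finset.mem_coe, Fintype.mem_piFinset]
        intro i
        have hb := abs_le.1 (hx.1 i)
        rw [Finset.mem_Icc]
        have hTq : ((T / q : ℕ) : ℤ) = (T : ℤ) / (q : ℤ) := by push_cast; rfl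
        rw [hTq]
        constructor
        · have h2 : (-(T : ℤ)) / (q : ℤ) ≤ co x i / (q : ℤ) := Int.ediv_le_ediv hq0 hb.1
          have h3 : -((T : ℤ) / (q : ℤ)) - 1 ≤ (-(T : ℤ)) / (q : ℤ) := by
            rw [Int.le_ediv_iff_mul_le hq0]
            have h4 := Int.lt_ediv_add_one_mul_self (T : ℤ) hq0
            nlinarith
          exact h3.trans h2
        · exact Int.ediv_le_ediv hq0 hb.2
    · intro x _ y _ hxy
      have hxy1 : res q x = res q y := (Prod.mk.inj hxy).1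
      have hxy2 : (fun i => co x i / (q : ℤ)) = fun i => co y i / (q : ℤ) := (Prod.mk.inj hxy).2
      refine co_inj (fun i => ?_)
      have ha : co x i % (q : ℤ) = co y i % (q : ℤ) := by
        have := congrArg (fun z => co z i) hxy1
        simpa only [res, co_el] using this
      have hb : co x i / (q : ℤ) = co y i / (q : ℤ) := congrFun hxy2 i
      rw [← Int.emod_add_mul_ediv (co x i) (q : ℤ), ← Int.emod_add_mul_ediv (co y i) (q : ℤ), ha, hb]
  refine key.trans ?_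
  rw [Set.ncard_prod, Set.ncard_coe_finset, hFc]

lemma lim (q n : ℕ) : Filter.Tendsto (fun T : ℕ => ((2 * (T : ℝ) + 2 * q) / (2 * (T : ℝ) + 1)) ^ n) Filter.atTop (nhds 1) := by
  have h1 : Filter.Tendsto (fun T : ℕ => (2 * (q : ℝ) - 1) / (2 * (T : ℝ) + 1)) Filter.atTop (nhds 0) := by
    refine Filter.Tendsto.const_div_atTop ?_ _
    refine Filter.tendsto_atTop_add_const_right _ _ ?_
    exact Filter.Tendsto.const_mul_atTop (by norm_num) tendsto_natCast_atTop_atTop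
  have h2 : Filter.Tendsto (fun T : ℕ => (1 + (2 * (q : ℝ) - 1) / (2 * (T : ℝ) + 1)) ^ n) Filter.atTop (nhds ((1 + 0) ^ n)) :=
    (tendsto_const_nhds.add h1).pow n
  rw [add_zero, one_pow] at h2
  refine h2.congr (fun T => ?_)
  have h3 : (2 * (T : ℝ) + 1) ≠ 0 := by positivity
  congr 1
  field_simp
  ring

end KSvAux

open KSvAux in
theorem pKSv : S_KS1 → S_KHs → S_KSv := by
  intro hS1 hHs K _ _ Q ε hε
  obtain ⟨hcard, -, hBx, -⟩ := hHs K
  obtain ⟨q, hq, hmem, hres⟩ := hS1 K Q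
  have hlim := (lim q (dg K)).eventually (eventually_le_nhds (show (1 : ℝ) < 1 + ε by linarith))
  obtain ⟨T0, hT0⟩ := Filter.eventually_atTop.1 hlim
  refine ⟨T0, fun T hT => ?_⟩
  have hs : 0 ≤ ∑ v ∈ Q, (1 : ℝ) / nm v := Finset.sum_nonneg (fun v _ => by positivity)
  set E : ℝ := Real.exp (-∑ v ∈ Q, (1 : ℝ) / nm v) with hE
  have hE0 : 0 < E := Real.exp_pos _
  have hE1 : E ≤ 1 := by
    rw [hE, Real.exp_le_one_iff]
    linarith
  have hc := count (fun T => (hBx T).1) Q q hq hmem T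
  rw [hcard] at hc
  have hqR : (1 : ℝ) ≤ (q : ℝ) := by exact_mod_cast hq
  have hc' : (Set.ncard {x : 𝓞 K | x ∈ Bx K T ∧ ∀ v ∈ Q, x ∉ v.asIdeal} : ℝ) ≤
      ((q : ℝ) ^ dg K * E) * ((2 * (T : ℝ) + 2 * q) / q) ^ dg K := by
    calc (Set.ncard {x : 𝓞 K | x ∈ Bx K T ∧ ∀ v ∈ Q, x ∉ v.asIdeal} : ℝ)
        ≤ (Set.ncard {x : 𝓞 K | (∀ i, 0 ≤ co x i ∧ co x i < (q : ℤ)) ∧ ∀ v ∈ Q, x ∉ v.asIdeal} : ℝ) *
          (2 * ((T / q : ℕ) : ℝ) + 2) ^ dg K := by exact_mod_cast hc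
      _ ≤ _ := by
          refine mul_le_mul hres ?_ (by positivity) (by positivity)
          refine pow_le_pow_left₀ (by positivity) ?_ _
          have h1 : ((T / q : ℕ) : ℝ) ≤ (T : ℝ) / q := Nat.cast_div_le
          have h2 : (2 * (T : ℝ) + 2 * q) / q = 2 * ((T : ℝ) / q) + 2 := by
            field_simp
          rw [h2]
          linarith
  have h3 : ((q : ℝ) ^ dg K * E) * ((2 * (T : ℝ) + 2 * q) / q) ^ dg K = E * (2 * (T : ℝ) + 2 * q) ^ dg K := by
    rw [div_pow]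
    have : (q : ℝ) ^ dg K ≠ 0 := by positivity
    field_simp
  rw [h3] at hc'
  have h4 := hT0 T hT
  rw [div_pow, div_le_iff₀ (by positivity)] at h4
  calc (Set.ncard {x : 𝓞 K | x ∈ Bx K T ∧ ∀ v ∈ Q, x ∉ v.asIdeal} : ℝ)
      ≤ E * (2 * (T : ℝ) + 2 * q) ^ dg K := hc'
    _ ≤ E * ((1 + ε) * (2 * (T : ℝ) + 1) ^ dg K) := mul_le_mul_of_nonneg_left h4 hE0.le
    _ = (E + E * ε) * (2 * (T : ℝ) + 1) ^ dg K := by ring
    _ ≤ (E + ε) * (2 * (T : ℝ) + 1) ^ dg K := by
        refine mul_le_mul_of_nonneg_right ?_ (by positivity)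
        nlinarith

end Pool.Agent.SGK
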