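import Pool.Agent.Lib.MP_452a87_nt.SGK.Spec

/-!
# SGK, task KTh: small elements of ideals (Thue)
-/

set_option autoImplicit false

namespace Pool.Agent.SGK

open NumberField IsDedekindDomain Pool.Agent.SG

namespace KThAux

/-- The integral part of the `n`-th root. -/
lemma root (n N : ℕ) (hn : 1 ≤ n) (hN : 1 ≤ N) : ∃ t : ℕ, t ^ n ≤ N ∧ N < (t + 1) ^ n := by
  have hex : ∃ m : ℕ, N < (m + 1) ^ n := by
    refine ⟨N, ?_⟩
    calc N < N + 1 := Nat.lt_succ_self N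
      _ = (N + 1) ^ 1 := (pow_one _).symm
      _ ≤ (N + 1) ^ n := Nat.pow_le_pow_right (Nat.succ_pos N) hn
  classical
  refine ⟨Nat.find hex, ?_, Nat.find_spec hex⟩
  rcases Nat.eq_zero_or_pos (Nat.find hex) with h0 | h0
  · rw [h0, zero_pow (by omega)]; omega
  · have h1 : ¬ N < ((Nat.find hex - 1) + 1) ^ n := Nat.find_min hex (by omega)
    rw [Nat.sub_add_cancel h0] at h1
    omega

/-- The algebraic integer with given coordinates. -/
noncomputable def el (K : Type) [Field K] [NumberField K] (c : ix K → ℤ) : 𝓞 K :=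
  ∑ i, c i • RingOfIntegers.basis K i

lemma co_el (K : Type) [Field K] [NumberField K] (c : ix K → ℤ) (i : ix K) : co (el K c) i = c i := by
  unfold co el
  rw [Module.Basis.repr_sum_self]

lemma co_sub {K : Type} [Field K] [NumberField K] (x y : 𝓞 K) (i : ix K) : co (x - y) i = co x i - co y i := by
  unfold co
  rw [map_sub]
  rfl

/-- Pigeonhole: a nonzero element of the ideal with small coordinates. -/
lemma pig (K : Type) [Field K] [NumberField K] (hcard : Fintype.card (ix K) = dg K) (I : Ideal (𝓞 K)) (hI : I ≠ ⊥)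
    (t : ℕ) (ht : Ideal.absNorm I < (t + 1) ^ dg K) : ∃ y ∈ I, y ≠ 0 ∧ ∀ i, |co y i| ≤ (t : ℤ) := by
  classical
  haveI : Finite (𝓞 K ⧸ I) := Ideal.finiteQuotientOfFreeOfNeBot I hI
  haveI : Fintype (𝓞 K ⧸ I) := Fintype.ofFinite _
  have hc : Fintype.card (𝓞 K ⧸ I) < Fintype.card (ix K → Fin (t + 1)) := by
    rw [Fintype.card_fun, Fintype.card_fin, hcard, ← Nat.card_eq_fintype_card]
    have : Ideal.absNorm I = Nat.card (𝓞 K ⧸ I) := by
      rw [Ideal.absNorm_apply, Submodule.cardQuot_apply]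
    rw [← this]
    exact ht
  obtain ⟨f, g, hfg, he⟩ := Fintype.exists_ne_map_eq_of_card_lt
    (fun f : ix K → Fin (t + 1) => Ideal.Quotient.mk I (el K fun i => ((f i : ℕ) : ℤ))) hc
  refine ⟨el K (fun i => ((f i : ℕ) : ℤ)) - el K (fun i => ((g i : ℕ) : ℤ)), Ideal.Quotient.eq.1 he, ?_, ?_⟩
  · intro h0
    apply hfg
    funext i
    have h1 := co_sub (el K (fun i => ((f i : ℕ) : ℤ))) (el K (fun i => ((g i : ℕ) : ℤ))) i
    rw [h0, co_el, co_el] at h1
    have h2 : co (0 : 𝓞 K) i = 0 := by unfold co; rw [map_zero]; rfl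
    rw [h2] at h1
    apply Fin.ext
    omega
  · intro i
    rw [co_sub, co_el, co_el, abs_le]
    have h1 := (f i).is_lt
    have h2 := (g i).is_lt
    constructor <;> omega

/-- The absolute norm as a product over the embeddings. -/
lemma nrm {K : Type} [Field K] [NumberField K] (y : 𝓞 K) :
    (Ideal.absNorm (Ideal.span {y}) : ℝ) = ∏ τ : K →ₐ[ℚ] ℂ, ‖τ (y : K)‖ := by
  have h1 : ((Algebra.norm ℚ (y : K) : ℚ) : ℂ) = ∏ τ : K →ₐ[ℚ] ℂ, τ (y : K) := by
    have := Algebra.norm_eq_prod_embeddings ℚ ℂ (y : K)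
    simpa using this
  have h2 : ((Algebra.norm ℤ y : ℤ) : ℚ) = Algebra.norm ℚ (y : K) := Algebra.coe_norm_int y
  have h3 : ((Algebra.norm ℤ y : ℤ) : ℂ) = ∏ τ : K →ₐ[ℚ] ℂ, τ (y : K) := by
    rw [← h1, ← h2]; push_cast; rfl
  rw [Ideal.absNorm_span_singleton, ← norm_prod, ← h3, Complex.norm_intCast, Nat.cast_natAbs, Int.cast_abs]

/-- One factor and the others. -/
lemma one {K : Type} [Field K] [NumberField K] (y : 𝓞 K) (A : ℝ)
    (hA : ∀ σ : K →+* ℂ, ‖σ (y : K)‖ ≤ A) (σ : K →+* ℂ) :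
    (Ideal.absNorm (Ideal.span {y}) : ℝ) ≤ ‖σ (y : K)‖ * A ^ (dg K - 1) := by
  classical
  have hA0 : 0 ≤ A := (norm_nonneg _).trans (hA σ)
  rw [nrm y]
  let τ0 : K →ₐ[ℚ] ℂ := σ.toRatAlgHom
  have hτ : τ0 (y : K) = σ (y : K) := rfl
  rw [← Finset.mul_prod_erase Finset.univ (fun τ : K →ₐ[ℚ] ℂ => ‖τ (y : K)‖) (Finset.mem_univ τ0), hτ]
  refine mul_le_mul_of_nonneg_left ?_ (norm_nonneg _)
  refine (Finset.prod_le_prod (fun τ _ => norm_nonneg _) (fun τ _ => hA τ.toRingHom)).trans ?_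
  rw [Finset.prod_const, Finset.card_erase_of_mem (Finset.mem_univ _), Finset.card_univ, AlgHom.card]
  rfl

end KThAux

open KThAux in
theorem pKTh : S_KHs → S_KTh := by
  intro hKHs K _ _
  obtain ⟨hcard, hn1, -, C0, hC0, hc1, -, -⟩ := hKHs K
  refine ⟨C0 ^ (dg K * dg K), one_le_pow₀ hC0, ?_⟩
  intro I hI
  have hC00 : 0 < C0 := by linarith
  have hN0 : Ideal.absNorm I ≠ 0 := by
    intro h
    exact hI (Ideal.absNorm_eq_zero_iff.1 h)
  obtain ⟨t, ht1, ht2⟩ := root (dg K) (Ideal.absNorm I) hn1 (Nat.one_le_iff_ne_zero.2 hN0)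
  obtain ⟨y, hyI, hy0, hyc⟩ := pig K hcard I hI t ht2
  have hσ : ∀ σ : K →+* ℂ, ‖σ (y : K)‖ ≤ C0 * t := by
    apply hc1 y t
    intro i
    exact_mod_cast hyc i
  have hNr : (1 : ℝ) ≤ (Ideal.absNorm I : ℝ) := by exact_mod_cast Nat.one_le_iff_ne_zero.2 hN0
  have ht1r : (t : ℝ) ^ dg K ≤ (Ideal.absNorm I : ℝ) := by exact_mod_cast ht1
  have hCt : 0 ≤ C0 * (t : ℝ) := by positivity
  have hdvd : Ideal.absNorm I ∣ Ideal.absNorm (Ideal.span {y}) :=
    Ideal.absNorm_dvd_absNorm_of_le ((Ideal.span_singleton_le_iff_mem I).2 hyI)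
  have hM0 : Ideal.absNorm (Ideal.span {y}) ≠ 0 := by
    intro h
    have := Ideal.absNorm_eq_zero_iff.1 h
    rw [Ideal.span_singleton_eq_bot] at this
    exact hy0 this
  have hNM : (Ideal.absNorm I : ℝ) ≤ (Ideal.absNorm (Ideal.span {y}) : ℝ) := by
    exact_mod_cast Nat.le_of_dvd (Nat.pos_of_ne_zero hM0) hdvd
  obtain ⟨m, hm⟩ : ∃ m, dg K = m + 1 := ⟨dg K - 1, by omega⟩
  refine ⟨y, hyI, hy0, ?_, ?_⟩
  · intro σ
    have h1 := hNM.trans (one y (C0 * t) hσ σ)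
    rw [hm] at h1 ht1r ⊢
    simp only [Nat.add_sub_cancel] at h1
    set N : ℝ := (Ideal.absNorm I : ℝ) with hN
    set s : ℝ := ‖σ (y : K)‖ with hs
    have hs0 : 0 ≤ s := norm_nonneg _
    have hNpos : 0 < N := by linarith
    have h2 : N ^ (m + 1) ≤ (s * (C0 * t) ^ m) ^ (m + 1) := pow_le_pow_left₀ hNpos.le h1 _
    have h3 : (s * (C0 * (t : ℝ)) ^ m) ^ (m + 1) = (s ^ (m + 1) * C0 ^ (m * (m + 1))) * ((t : ℝ) ^ (m + 1)) ^ m := by
      rw [mul_pow, mul_pow, mul_pow, ← pow_mul, ← pow_mul, ← pow_mul, mul_comm (m + 1) m]; ring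
    have h4 : ((t : ℝ) ^ (m + 1)) ^ m ≤ N ^ m := pow_le_pow_left₀ (by positivity) ht1r _
    have h5 : N ^ (m + 1) ≤ (s ^ (m + 1) * C0 ^ (m * (m + 1))) * N ^ m := by
      rw [h3] at h2
      exact h2.trans (mul_le_mul_of_nonneg_left h4 (by positivity))
    have h6 : N ≤ s ^ (m + 1) * C0 ^ (m * (m + 1)) := by
      have hp : 0 < N ^ m := by positivity
      rw [pow_succ'] at h5
      exact le_of_mul_le_mul_right h5 hp
    refine h6.trans ?_
    rw [mul_comm]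
    refine mul_le_mul_of_nonneg_right ?_ (by positivity)
    exact pow_le_pow_right₀ hC0 (Nat.mul_le_mul_right _ (Nat.le_succ m))
  · obtain ⟨σ⟩ : Nonempty (K →+* ℂ) := inferInstance
    have h1 := one y (C0 * t) hσ σ
    have h2 : (Ideal.absNorm (Ideal.span {y}) : ℝ) ≤ (C0 * t) ^ dg K := by
      refine h1.trans ?_
      rw [hm, Nat.add_sub_cancel, pow_succ']
      exact mul_le_mul_of_nonneg_right (hσ σ) (by positivity)
    refine h2.trans ?_
    rw [mul_pow]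
    have h3 : C0 ^ dg K ≤ C0 ^ (dg K * dg K) := pow_le_pow_right₀ hC0 (Nat.le_mul_of_pos_right _ (by omega))
    calc C0 ^ dg K * (t : ℝ) ^ dg K ≤ C0 ^ dg K * (Ideal.absNorm I : ℝ) := mul_le_mul_of_nonneg_left ht1r (by positivity)
      _ ≤ C0 ^ (dg K * dg K) * (Ideal.absNorm I : ℝ) := mul_le_mul_of_nonneg_right h3 (by linarith)

end Pool.Agent.SGK
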