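import Pool.Agent.Lib.MP_452a87_nt.SGK.Spec

/-!
# Theorem SGK, module `KYv`: the elements `y_v`
-/

set_option autoImplicit false

namespace Pool.Agent.SGK

open NumberField IsDedekindDomain Pool.Agent.SG

/-- The elements `y_v`. -/
theorem pKYv : S_KTh → S_KYv := by
  intro hTh K _ _
  obtain ⟨C, hC, h⟩ := hTh K
  have h0 := fun v : HeightOneSpectrum (𝓞 K) => h v.asIdeal v.ne_bot
  choose y hy hy0 hσ hN using h0
  have hb0 : ∀ v : HeightOneSpectrum (𝓞 K), ∃ b : Ideal (𝓞 K),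
      Ideal.span {y v} = v.asIdeal * b := by
    intro v
    have h1 : v.asIdeal ∣ Ideal.span {y v} := by
      rw [Ideal.dvd_iff_le, Ideal.span_singleton_le_iff_mem]
      exact hy v
    exact h1
  choose b hb using hb0
  have hbb : ∀ v, b v ≠ ⊥ := by
    intro v h1
    have h2 := hb v
    rw [h1, Ideal.mul_bot, Ideal.span_singleton_eq_bot] at h2
    exact hy0 v h2
  have hpos : ∀ I : Ideal (𝓞 K), I ≠ ⊥ → 0 < Ideal.absNorm I := by
    intro I hI
    rw [Nat.pos_iff_ne_zero]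
    intro h1
    exact hI (Ideal.absNorm_eq_zero_iff.1 h1)
  have hnb : ∀ v, Ideal.absNorm (b v) ≤ ⌈C⌉₊ := by
    intro v
    have h1 := hN v
    rw [hb v, map_mul] at h1
    push_cast at h1
    have h2 : (0 : ℝ) < Ideal.absNorm v.asIdeal := by exact_mod_cast hpos _ v.ne_bot
    have h3 : (Ideal.absNorm (b v) : ℝ) ≤ C := by
      rw [mul_comm] at h1
      exact le_of_mul_le_mul_right h1 h2
    exact_mod_cast h3.trans (Nat.le_ceil C)
  refine ⟨C, (⌈C⌉₊).factorial, ⌈C⌉₊, y, hC, Nat.factorial_pos _, ?_, ?_, ?_⟩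
  · intro v
    exact ⟨hy0 v, hy v, hσ v⟩
  · intro v w hvw hw hmem
    have h1 : v.asIdeal * b v ≤ w.asIdeal := by
      rw [← hb v, Ideal.span_singleton_le_iff_mem]
      exact hmem
    rcases w.isPrime.mul_le.1 h1 with h2 | h2
    · apply hvw
      apply HeightOneSpectrum.ext
      exact (v.isMaximal.eq_of_le w.isPrime.ne_top h2).symm
    · have h3 := Ideal.absNorm_dvd_absNorm_of_le h2
      have h4 := Nat.le_of_dvd (hpos _ (hbb v)) h3
      have h5 := hnb v
      unfold nm at hw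
      omega
  · intro v x hx
    have h1 : ((⌈C⌉₊).factorial : 𝓞 K) ∈ b v := by
      obtain ⟨t, ht⟩ := Nat.dvd_factorial (hpos _ (hbb v)) (hnb v)
      rw [ht]
      push_cast
      exact Ideal.mul_mem_right _ _ (Ideal.absNorm_mem (b v))
    have h2 := Ideal.mul_mem_mul hx h1
    rw [← hb v, Ideal.mem_span_singleton'] at h2
    obtain ⟨z, hz⟩ := h2
    exact ⟨z, by rw [mul_comm _ x, ← hz, mul_comm]⟩

end Pool.Agent.SGK
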