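import Pool.Agent.Lib.MP_452a87_nt.SG.All
import Pool.Agent.Lib.MP_452a87_nt.SGK.KBr
import Pool.Agent.Lib.MP_452a87_nt.SGK.KCl
import Pool.Agent.Lib.MP_452a87_nt.SGK.KDi
import Pool.Agent.Lib.MP_452a87_nt.SGK.KDv
import Pool.Agent.Lib.MP_452a87_nt.SGK.KFn
import Pool.Agent.Lib.MP_452a87_nt.SGK.KHs
import Pool.Agent.Lib.MP_452a87_nt.SGK.KKs
import Pool.Agent.Lib.MP_452a87_nt.SGK.KLi
import Pool.Agent.Lib.MP_452a87_nt.SGK.KMa
import Pool.Agent.Lib.MP_452a87_nt.SGK.KMb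
import Pool.Agent.Lib.MP_452a87_nt.SGK.KMc
import Pool.Agent.Lib.MP_452a87_nt.SGK.KMn
import Pool.Agent.Lib.MP_452a87_nt.SGK.KNo
import Pool.Agent.Lib.MP_452a87_nt.SGK.KS1
import Pool.Agent.Lib.MP_452a87_nt.SGK.KSv
import Pool.Agent.Lib.MP_452a87_nt.SGK.KTh
import Pool.Agent.Lib.MP_452a87_nt.SGK.KYv

/-!
# Theorem SGK: assembly
-/

set_option autoImplicit false

namespace Pool.Agent.SGK.All

open Pool.Agent.SG Pool.Agent.SGK

theorem aKHs : S_KHs := pKHs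
theorem aKTh : S_KTh := pKTh aKHs
theorem aKYv : S_KYv := pKYv aKTh
theorem aKS1 : S_KS1 := pKS1 aKHs
theorem aKSv : S_KSv := pKSv aKS1 aKHs
theorem aKDv : S_KDv := pKDv
theorem aKCl : S_KCl := pKCl
theorem aKKs : S_KKs := pKKs
theorem aKBr : S_KBr := pKBr Pool.Agent.SG.All.aBMn Pool.Agent.SG.All.aBVf Pool.Agent.SG.All.aBBa
theorem aKLi : S_KLi := pKLi
theorem aKNo : S_KNo := pKNo aKBr aKLi
theorem aKDi : S_KDi := pKDi
theorem aKMa : S_KMa := pKMa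
theorem aKMc : S_KMc := pKMc aKHs aKYv aKDi aKMa
theorem aKMb : S_KMb := pKMb
theorem aKMn : S_KMn := pKMn aKHs aKYv aKSv aKDv aKCl aKKs aKNo aKMc aKMb
theorem aKFn : S_KFn := pKFn aKHs aKMn

end Pool.Agent.SGK.All
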