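import Pool.Agent.Lib.MP_452a87_nt.SGK.Spec

/-! Theorem SGK, module KMb: the sum over the choices of the blocks. -/

set_option autoImplicit false

namespace Pool.Agent.SGK

open NumberField IsDedekindDomain Pool.Agent.SG

open Classical in
theorem pKMb : S_KMb := by
  intro X V k B mem G s a h
  set F : (Fin k → Finset V) → Finset X := fun P => B.filter (fun x => ∃ u : Fin k → V, ∀ i, u i ∈ P i ∧ mem x (u i)) with hF
  have h1 : ∀ P ∈ Fintype.piFinset G, ((F P).card : ℝ) ≤ a * ∏ i, s (P i) := by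
    intro P hP
    rw [Fintype.mem_piFinset] at hP
    refine le_trans ?_ (h P hP)
    have hfin : {p : X × (Fin k → V) | p.1 ∈ B ∧ ∀ i, p.2 i ∈ P i ∧ mem p.1 (p.2 i)}.Finite := by
      refine Set.Finite.subset (Finset.finite_toSet (B ×ˢ Fintype.piFinset P)) ?_
      intro p hp
      rw [Finset.mem_coe, Finset.mem_product, Fintype.mem_piFinset]
      exact ⟨hp.1, fun i => (hp.2 i).1⟩
    have h2 : (F P : Set X) ⊆ Prod.fst '' {p : X × (Fin k → V) | p.1 ∈ B ∧ ∀ i, p.2 i ∈ P i ∧ mem p.1 (p.2 i)} := by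
      intro x hx
      rw [Finset.mem_coe, hF, Finset.mem_filter] at hx
      obtain ⟨hxB, u, hu⟩ := hx
      exact ⟨(x, u), ⟨hxB, hu⟩, rfl⟩
    have h3 : (F P).card ≤ Set.ncard {p : X × (Fin k → V) | p.1 ∈ B ∧ ∀ i, p.2 i ∈ P i ∧ mem p.1 (p.2 i)} := by
      rw [← Set.ncard_coe_finset (F P)]
      exact (Set.ncard_le_ncard h2 (hfin.image _)).trans (Set.ncard_image_le hfin)
    exact_mod_cast h3
  have h4 : {x : X | x ∈ B ∧ ∀ i, ∃ P ∈ G i, ∃ v ∈ P, mem x v} ⊆ (((Fintype.piFinset G).biUnion F : Finset X) : Set X) := by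
    intro x hx
    obtain ⟨hxB, hx2⟩ := hx
    choose P hP v hv hm using hx2
    rw [Finset.mem_coe, Finset.mem_biUnion]
    refine ⟨P, Fintype.mem_piFinset.2 hP, ?_⟩
    rw [hF, Finset.mem_filter]
    exact ⟨hxB, v, fun i => ⟨hv i, hm i⟩⟩
  have h5 : (Set.ncard {x : X | x ∈ B ∧ ∀ i, ∃ P ∈ G i, ∃ v ∈ P, mem x v} : ℝ) ≤ ∑ P ∈ Fintype.piFinset G, ((F P).card : ℝ) := by
    have h6 : Set.ncard {x : X | x ∈ B ∧ ∀ i, ∃ P ∈ G i, ∃ v ∈ P, mem x v} ≤ ∑ P ∈ Fintype.piFinset G, (F P).card := by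
      refine (Set.ncard_le_ncard h4 (Finset.finite_toSet _)).trans ?_
      rw [Set.ncard_coe_finset]
      exact Finset.card_biUnion_le
    exact_mod_cast h6
  calc (Set.ncard {x : X | x ∈ B ∧ ∀ i, ∃ P ∈ G i, ∃ v ∈ P, mem x v} : ℝ)
      ≤ ∑ P ∈ Fintype.piFinset G, ((F P).card : ℝ) := h5
    _ ≤ ∑ P ∈ Fintype.piFinset G, a * ∏ i, s (P i) := Finset.sum_le_sum h1
    _ = a * ∏ i, ∑ P ∈ G i, s P := by
        rw [← Finset.mul_sum, Finset.prod_univ_sum]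

end Pool.Agent.SGK
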