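import Pool.Agent.Lib.MP_452a87_nt.SG.SpecB

/-!
# Theorem SGK: Schneider for every `β` and 100 percent of the algebraic integers `α` of every number field

`K` is a number field of degree `n` with an embedding `φ : K → ℂ`. KFn: for all but a proportion `ε` of the algebraic integers `x ∈ K` with all conjugates at most `T` the logarithm `λ + log φ(x)` (and `λ + log φ(x) + 2 π i ν`, `|ν| ≤ N`) is good for `F`, uniformly in `F` of degree `≤ D` and `λ`.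
The task `X` is to write `SGK/X.lean` with `theorem pX (h1 : S_..) ... : S_X`; statements used are hypotheses, so all modules are independent. (Statements of `SG/SpecB.lean` are used in KBr; KDv imports `Pool.Agent.Lib.FW.I.IAnD`.)

Idea. Every prime ideal `v` contains a small element `y_v` with `(y_v) = v 𝔟_v`, `N 𝔟_v` bounded (pigeonhole, KTh), and `m x = y_v z` for `x ∈ v` with one `m` (KYv). So an `x` divisible by the primes `u_1, …, u_k` is `x = β ∏ y_(u_i) / m^k`. Blocks `P` of `R` primes of about the same norm and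
with about the same argument of `φ(y_v)` (KCl). Most `x` are divisible by a prime from each of `k` disjoint families of blocks (KSv). If many of them are bad then for some `β` and some blocks `P_1, …, P_k` a positive proportion of the products `β ∏ y_(u_i) / m^k`, `u_i ∈ P_i`, are bad, so (KKs, Cauchy-Schwarz)
there is a whole cube `u_i ∈ {a_i, b_i}` of bad numbers: contradiction to the cube theorem BMn (KBr, KLi).
-/

set_option autoImplicit false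

namespace Pool.Agent.SGK

open NumberField IsDedekindDomain Pool.Agent.SG

/-- The norm of a prime. -/
noncomputable def nm {K : Type} [Field K] [NumberField K] (v : HeightOneSpectrum (𝓞 K)) : ℕ := Ideal.absNorm v.asIdeal

/-- The index set of the integral basis. -/
abbrev ix (K : Type) [Field K] [NumberField K] : Type := Module.Free.ChooseBasisIndex ℤ (𝓞 K)

/-- The coordinates of an algebraic integer. -/
noncomputable def co {K : Type} [Field K] [NumberField K] (x : 𝓞 K) (i : ix K) : ℤ := (RingOfIntegers.basis K).repr x i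

/-- The algebraic integers with coordinates at most `T`. -/
def Bx (K : Type) [Field K] [NumberField K] (T : ℕ) : Set (𝓞 K) := {x | ∀ i, |co x i| ≤ (T : ℤ)}

/-- The algebraic integers with conjugates at most `H`. -/
def Hs (K : Type) [Field K] [NumberField K] (H : ℝ) : Set (𝓞 K) := {x | ∀ σ : K →+* ℂ, ‖σ (x : K)‖ ≤ H}

/-- The degree of `K`. -/
noncomputable def dg (K : Type) [Field K] [NumberField K] : ℕ := Module.finrank ℚ K

/-- The number of logarithms in the cube theorem BMn. -/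
def kk (e : ℕ) : ℕ := e * (e * e) * (e * e) + 6 * (e + 1) ^ 2

/-! ### Number fields -/

/-- (KHs, 120 lines) Conjugates and coordinates; counting.
PROOF. `ω i = RingOfIntegers.basis K i`, `x = ∑ co x i * ω i` (`Basis.sum_repr`), so `‖σ x‖ ≤ H ∑ ‖σ (ω i)‖` if `|co x i| ≤ H`. Conversely `integralBasis K` is a basis of `K` over `ℚ` with `integralBasis K i = ω i` and `repr x i = co x i` (`NumberField.integralBasis_repr_apply`). Let `ω' i` be the dual basis for the trace form (nondegenerate, `traceForm_nondegenerate`,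
`LinearMap.BilinForm.dualBasis`): `co x i = Tr(x ω' i) = ∑_σ σ(x) σ(ω' i)` (`trace_eq_sum_embeddings`), so `|co x i| ≤ H ∑_σ ‖σ(ω' i)‖`. (Or: any other argument, e.g. the house lemmas of `NumberField.House`.) `C` = the maximum of these sums and `1`. Counting: `card (ix K) = dg K` (`RingOfIntegers.rank`, `finrank_eq_card_chooseBasisIndex`), `x ↦ co x` is a bijection of `Bx K T` with
`∏ [-T, T]`. `Hs K H ⊆` elements with coordinates of absolute value `≤ C H`, at most `(2 C H + 1)^n`. `Bx K ⌊H/C⌋ ⊆ Hs K H` and `2 ⌊H/C⌋ + 1 ≥ H/C`. Take `2C` for `C` at the end. -/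
def S_KHs : Prop :=
  ∀ (K : Type) [Field K] [NumberField K], Fintype.card (ix K) = dg K ∧ 1 ≤ dg K ∧
    (∀ T : ℕ, (Bx K T).Finite ∧ (Bx K T).ncard = (2 * T + 1) ^ dg K) ∧ ∃ C : ℝ, 1 ≤ C ∧
    (∀ (x : 𝓞 K) (H : ℝ), (∀ i, ((|co x i| : ℤ) : ℝ) ≤ H) → ∀ σ : K →+* ℂ, ‖σ (x : K)‖ ≤ C * H) ∧
    (∀ (x : 𝓞 K) (H : ℝ), (∀ σ : K →+* ℂ, ‖σ (x : K)‖ ≤ H) → ∀ i, ((|co x i| : ℤ) : ℝ) ≤ C * H) ∧
    ∀ H : ℝ, 0 ≤ H → (Hs K H).Finite ∧ ((Hs K H).ncard : ℝ) ≤ (C * H + 1) ^ dg K ∧ (H / C) ^ dg K ≤ ((Hs K H).ncard : ℝ)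

/-- (KTh, 150 lines, uses KHs) Small elements of ideals (Thue).
PROOF. `n = dg K`, `N = absNorm I ≥ 1` (`I ≠ ⊥`), `t` = the largest natural number with `t^n ≤ N`, so `(t+1)^n > N` (`t ≥ 1`). The `(t+1)^n` elements with coordinates in `[0, t]` are more than `N = card (𝓞 K ⧸ I)` in number (`Ideal.absNorm_apply`, `Submodule.cardQuot`), so two different ones are congruent mod `I`: `y` = their difference, `y ∈ I`, `y ≠ 0`,
`|co y i| ≤ t`, so `‖σ y‖ ≤ C0 t` for all `σ` (KHs), `‖σ y‖^n ≤ C0^n N`. The absolute norm of `y` is `∏_σ ‖σ y‖` (`Algebra.norm_eq_prod_embeddings`, `n` embeddings) and `absNorm (span {y}) = |N(y)|` (`Ideal.absNorm_span_singleton`). So it is `≤ (C0 t)^n ≤ C0^n N`, and `N ≤ absNorm (span {y})` (`absNorm I ∣ absNorm (span {y})`, `Ideal.absNorm_dvd_absNorm_of_le`; nonzero), so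
`N ≤ ‖σ y‖ (C0 t)^(n-1)` for each `σ`, `N^n ≤ ‖σ y‖^n C0^(n(n-1)) (t^n)^(n-1) ≤ ‖σ y‖^n C0^(n(n-1)) N^(n-1)`, so `N ≤ C0^(n(n-1)) ‖σ y‖^n`. `C = C0^(n n)`. -/
def S_KTh : Prop :=
  ∀ (K : Type) [Field K] [NumberField K], ∃ C : ℝ, 1 ≤ C ∧ ∀ I : Ideal (𝓞 K), I ≠ ⊥ → ∃ y ∈ I, y ≠ 0 ∧
    (∀ σ : K →+* ℂ, (Ideal.absNorm I : ℝ) ≤ C * ‖σ (y : K)‖ ^ dg K) ∧ (Ideal.absNorm (Ideal.span {y}) : ℝ) ≤ C * Ideal.absNorm I

/-- (KYv, 120 lines, uses KTh) The elements `y_v`.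
PROOF. `C` from KTh, `y v` for `I = v.asIdeal` (nonzero). `span {y v} ≤ v.asIdeal`, so `span {y v} = v.asIdeal * 𝔟` (`Ideal.dvd_iff_le`), `absNorm 𝔟 ≤ C` (multiplicative, `absNorm v ≥ 1`), `𝔟 ≠ ⊥`. `N0 = ⌈C⌉₊`, `m = N0!` (factorial): `absNorm 𝔟 ∈ 𝔟` (`Ideal.absNorm_mem`) and `absNorm 𝔟 ∣ m`, so `m ∈ 𝔟`. For `x ∈ v`: `m x ∈ v 𝔟 = span {y v}` (`Ideal.mul_mem_mul`), so
`m x = y v * z` (`Ideal.mem_span_singleton'`). If `y v ∈ w`, `w ≠ v`: `v 𝔟 ≤ w`, `w` is prime: `v ≤ w` (then `v = w`, maximal ideals) or `𝔟 ≤ w`: then `nm w ≤ absNorm 𝔟 ≤ C ≤ N0`. -/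
def S_KYv : Prop :=
  ∀ (K : Type) [Field K] [NumberField K], ∃ (C : ℝ) (m N0 : ℕ) (y : HeightOneSpectrum (𝓞 K) → 𝓞 K), 1 ≤ C ∧ 1 ≤ m ∧
    (∀ v, y v ≠ 0 ∧ y v ∈ v.asIdeal ∧ ∀ σ : K →+* ℂ, (nm v : ℝ) ≤ C * ‖σ (y v : K)‖ ^ dg K) ∧
    (∀ v w, w ≠ v → N0 < nm w → y v ∉ w.asIdeal) ∧ ∀ v, ∀ x ∈ v.asIdeal, ∃ z : 𝓞 K, (m : 𝓞 K) * x = y v * z

/-- (KDi, 80 lines) Division by several primes.
PROOF. Induction on `j ≤ k`: there is `β_j` with `m^j x = β_j ∏_(i<j) y (u i)`. Step: `m^j x ∈ u_j`, the prime ideal `u_j` does not contain `y (u i)` for `i < j` (`u i ≠ u_j`), so `β_j ∈ u_j` and `m β_j = y (u_j) z`; `β_(j+1) = z`. (For instance `Fin.snoc`/induction on `k` for all `u`, with `Fin.prod_univ_castSucc`.) -/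
def S_KDi : Prop :=
  ∀ (K : Type) [Field K] [NumberField K] (m N0 : ℕ) (y : HeightOneSpectrum (𝓞 K) → 𝓞 K),
    (∀ v w, w ≠ v → N0 < nm w → y v ∉ w.asIdeal) → (∀ v, ∀ x ∈ v.asIdeal, ∃ z : 𝓞 K, (m : 𝓞 K) * x = y v * z) →
    ∀ (k : ℕ) (u : Fin k → HeightOneSpectrum (𝓞 K)), Function.Injective u → (∀ i, N0 < nm (u i)) →
    ∀ x : 𝓞 K, (∀ i, x ∈ (u i).asIdeal) → ∃ β : 𝓞 K, (m : 𝓞 K) ^ k * x = β * ∏ i, y (u i)

/-- (KS1, 200 lines, uses KHs) The sieve, residues.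
PROOF. `A = 𝓞 K`, `n = dg K`, `q = ∏_(v ∈ Q) nm v ≥ 1`; `nm v ∈ v.asIdeal` (`Ideal.absNorm_mem`), so `q A ≤ v.asIdeal` for `v ∈ Q` and the membership of `x` in `v` depends only on the coordinates mod `q`. The set of the `x` with `0 ≤ co x i < q` is a complete system of residues mod `q A` (`q^n` elements). The ring homomorphism `A → ∏_(v ∈ Q) A ⧸ v` is surjective
(Chinese remainder theorem: `Ideal.quotientInfRingEquivPiQuotient` or `Ideal.pi_quotient_surjective`, the `v` are pairwise coprime as different maximal ideals) and factors through `A ⧸ q A`; the fibres of the surjective group homomorphism `A ⧸ qA → ∏ A ⧸ v` have the same cardinality `q^n / ∏ nm v`. The elements of `∏ A ⧸ v` with all components nonzero are `∏ (nm v - 1)` in number.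
So the number of the residues in question is `q^n ∏ (1 - 1/nm v) ≤ q^n exp(-∑ 1/nm v)`. -/
def S_KS1 : Prop :=
  ∀ (K : Type) [Field K] [NumberField K] (Q : Finset (HeightOneSpectrum (𝓞 K))), ∃ q : ℕ, 1 ≤ q ∧
    (∀ x y : 𝓞 K, (∀ i, (q : ℤ) ∣ co x i - co y i) → ∀ v ∈ Q, (x ∈ v.asIdeal ↔ y ∈ v.asIdeal)) ∧
    (Set.ncard {x : 𝓞 K | (∀ i, 0 ≤ co x i ∧ co x i < (q : ℤ)) ∧ ∀ v ∈ Q, x ∉ v.asIdeal} : ℝ) ≤
      (q : ℝ) ^ dg K * Real.exp (-∑ v ∈ Q, (1 : ℝ) / nm v)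

/-- (KSv, 150 lines, uses KS1, KHs) The sieve in a box.
PROOF. `q` from KS1, `s = ∑ 1/nm v`. Every `x ∈ Bx K T` has `co x i = q t_i + r_i`, `0 ≤ r_i < q`; the residue `r` (as an element of `𝓞 K`) is one of at most `q^n exp(-s)` elements, and for given `r` there are at most `(2T/q + 1)^n` vectors `t` (`|q t_i + r_i| ≤ T`: an interval of length `2T/q`). So the number is at most `(2T + q)^n exp(-s) ≤ (exp(-s) + ε) (2T+1)^n` for large `T`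
(`((2T+q)/(2T+1))^n → 1`, `exp(-s) ≤ 1`). -/
def S_KSv : Prop :=
  ∀ (K : Type) [Field K] [NumberField K] (Q : Finset (HeightOneSpectrum (𝓞 K))) (ε : ℝ), 0 < ε → ∃ T0 : ℕ, ∀ T : ℕ, T0 ≤ T →
    (Set.ncard {x : 𝓞 K | x ∈ Bx K T ∧ ∀ v ∈ Q, x ∉ v.asIdeal} : ℝ) ≤ (Real.exp (-∑ v ∈ Q, (1 : ℝ) / nm v) + ε) * (2 * (T : ℝ) + 1) ^ dg K

/-- (KDv, 80 lines) The sum of the reciprocals of the norms diverges. Import `Pool.Agent.Lib.FW.I.IAnD` (theorem `Pool.Agent.FW.tIAnD`; copy the folders `Pool/Agent/Lib/FW`, `ZD`, `MuZ` etc. from outputs/live as needed).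
PROOF. `tIAnD`: `∑' v, nm v ^ (-s) - log (1/(s-1))` is bounded for `s → 1+`. If `∑ 1/nm v` converged then `nm v ^ (-s) ≤ 1/nm v` (`s > 1`, `nm v ≥ 1`) would give `∑' v, nm v ^ (-s) ≤ ∑' 1/nm v`, bounded, but `log (1/(s-1)) → ∞`. Second part: `Ideal.finite_setOf_absNorm_le` (or `finite_setOfPred_absNorm_le`), `v ↦ v.asIdeal` is injective. `nm v ≥ 2`: `v.asIdeal ≠ ⊤, ⊥`. -/
def S_KDv : Prop :=
  ∀ (K : Type) [Field K] [NumberField K], (¬ Summable fun v : HeightOneSpectrum (𝓞 K) => (1 : ℝ) / nm v) ∧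
    (∀ x : ℕ, {v : HeightOneSpectrum (𝓞 K) | nm v ≤ x}.Finite) ∧ ∀ v : HeightOneSpectrum (𝓞 K), 2 ≤ nm v

/-! ### Combinatorics -/

/-- (KCl, 250 lines) Blocks.
PROOF. Let `N1 = max N0 R`. A block is a set `P` of `R` elements `v` with `N v > N1`, `N v ≤ 2 N w` and `col v = col w` for all `v, w ∈ P`; then `s(P) = ∑_(v∈P) 1/N v ≤ R/N1 ≤ 1`. CLAIM: for every finite `Z ⊆ X` and `σ0 ≥ 0` there is a finite set `G` of pairwise disjoint blocks, disjoint from `Z`, with `σ0 ≤ ∑_(P∈G) s(P)`. For `x ∈ ℕ` let `X_x` be the finite set of the `v ∉ Z` with `N1 < N v ≤ x`.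
Choose a set `G` of pairwise disjoint blocks contained in `X_x` with the greatest number of elements. The rest `Y = X_x ∖ ⋃ G` contains fewer than `R` elements of every cell `{v | 2^t ≤ N v < 2^(t+1), col v = c}` (otherwise one more block), so `∑_(v∈Y) 1/N v ≤ ∑_t ∑_c R/2^t ≤ 2 M R`. So `∑_(P∈G) s(P) ≥ ∑_(v ∈ X_x) 1/N v - 2 M R`, which tends to infinity with `x` (the sum over all `v` diverges, `Z` and
`{N v ≤ N1}` are finite). Now remove blocks one after the other as long as the sum is `≥ σ0 + 1` (each has `s(P) ≤ 1`): `σ0 ≤ sum ≤ σ0 + 1` (e.g. take `G' ⊆ G` minimal with sum `≥ σ0`). Apply this `k` times, `Z` = the union of all blocks chosen before. (`R ≥ 1`, so blocks are not empty and different disjoint blocks have disjoint elements.) -/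
def S_KCl : Prop :=
  ∀ (X : Type) (N : X → ℕ) (M : ℕ) (col : X → Fin M), (∀ x : ℕ, {v | N v ≤ x}.Finite) → (¬ Summable fun v => (1 : ℝ) / N v) →
    ∀ (R k N0 : ℕ) (σ0 : ℝ), 1 ≤ R → 0 ≤ σ0 → ∃ G : Fin k → Finset (Finset X),
      (∀ i, ∀ P ∈ G i, P.card = R ∧ ∀ v ∈ P, N0 < N v ∧ ∀ w ∈ P, N v ≤ 2 * N w ∧ col v = col w) ∧
      (∀ i, ∀ P ∈ G i, ∀ j, ∀ P' ∈ G j, (i ≠ j ∨ P ≠ P') → Disjoint P P') ∧
      ∀ i, σ0 ≤ ∑ P ∈ G i, ∑ v ∈ P, (1 : ℝ) / N v ∧ ∑ P ∈ G i, ∑ v ∈ P, (1 : ℝ) / N v ≤ σ0 + 1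

/-- (KKs, 150 lines) Boxes in dense subsets of products (Cauchy-Schwarz).
PROOF. Induction on `k`. `k = 0`: `δ > 0`, so the empty tuple is in `S`; `R0 = 0`. Step: `δ' = min (δ^2/2) 1`-type (`δ' = δ^2/2 > 0`), `R0' ` from the induction for `δ'`, `R0 = max R0' ⌈2/δ^2⌉ + 1`. Let `S'` be the set of the pairs `(p, t)`, `p ∈ P 0`, `t ∈ ∏_(i≥1) P i` with `Fin.cons p t ∈ S`: at least `δ |P 0| Π'` pairs, `Π' = ∏_(i ≥ 1) |P i|`. `d(t)` = the number of `p` with `(p, t) ∈ S'`: `∑_t d(t)^2 ≥ (∑ d)^2/Π' ≥ δ^2 |P 0|^2 Π'`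
(`inner_mul_le_norm_mul_norm` or `sq_sum_le_card_mul_sum_sq`; if `Π' = 0`, impossible as all `|P i| ≥ R0 ≥ 1`). `∑ d^2` = the sum over `(p, p')` of the number of `t` with both; the diagonal contributes at most `|P 0| Π' ≤ (δ^2/2) |P 0|^2 Π'`. So some pair `p ≠ p'` has at least `(δ^2/2) Π'` such `t`; apply the induction to `{t | cons p t ∈ S ∧ cons p' t ∈ S}` and `P ∘ succ`. -/
def S_KKs : Prop :=
  ∀ (k : ℕ) (δ : ℝ), 0 < δ → ∃ R0 : ℕ, ∀ (X : Type) (P : Fin k → Finset X), (∀ i, R0 ≤ (P i).card) → ∀ S : Set (Fin k → X),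
    δ * ∏ i, ((P i).card : ℝ) ≤ (Set.ncard {u : Fin k → X | (∀ i, u i ∈ P i) ∧ u ∈ S} : ℝ) →
    ∃ u u' : Fin k → X, (∀ i, u i ∈ P i ∧ u' i ∈ P i ∧ u i ≠ u' i) ∧ ∀ W : Finset (Fin k), (fun i => if i ∈ W then u' i else u i) ∈ S

/-- (KMa, 150 lines) The count for one choice of the blocks.
PROOF. For `(x, u)` in the set choose `β = β(x, u) ∈ Hs K H` (first hypothesis). `(x, u) ↦ (β, u)` is injective: `m^k x = β ∏ y (u i)` determines `x` (`m ≠ 0`, domain of characteristic `0`). For given `β` the `u` which occur are in `S_β = {u | ∃ x ∈ B, m^k x = β ∏ y (u i)}`, and fewer than `δ ∏ |P i|` of the `u ∈ ∏ P i` are in `S_β`: otherwise the second hypothesis gives a cube in `S_β`, excluded by the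
third. Sum over the `β ∈ Hs K H`. -/
def S_KMa : Prop :=
  ∀ (K : Type) [Field K] [NumberField K] (k m : ℕ) (y : HeightOneSpectrum (𝓞 K) → 𝓞 K) (B : Finset (𝓞 K)) (P : Fin k → Finset (HeightOneSpectrum (𝓞 K)))
    (δ H : ℝ), 1 ≤ m → 0 < δ → (Hs K H).Finite →
    (∀ x ∈ B, ∀ u : Fin k → HeightOneSpectrum (𝓞 K), (∀ i, u i ∈ P i ∧ x ∈ (u i).asIdeal) →
      ∃ β ∈ Hs K H, (m : 𝓞 K) ^ k * x = β * ∏ i, y (u i)) →
    (∀ S : Set (Fin k → HeightOneSpectrum (𝓞 K)), δ * ∏ i, ((P i).card : ℝ) ≤ (Set.ncard {u : Fin k → HeightOneSpectrum (𝓞 K) | (∀ i, u i ∈ P i) ∧ u ∈ S} : ℝ) →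
      ∃ u u' : Fin k → HeightOneSpectrum (𝓞 K), (∀ i, u i ∈ P i ∧ u' i ∈ P i ∧ u i ≠ u' i) ∧ ∀ W : Finset (Fin k), (fun i => if i ∈ W then u' i else u i) ∈ S) →
    (∀ (β : 𝓞 K) (u u' : Fin k → HeightOneSpectrum (𝓞 K)), (∀ i, u i ∈ P i ∧ u' i ∈ P i ∧ u i ≠ u' i) →
      ¬ ∀ W : Finset (Fin k), ∃ x ∈ B, (m : 𝓞 K) ^ k * x = β * ∏ i, y (if i ∈ W then u' i else u i)) →
    (Set.ncard {p : 𝓞 K × (Fin k → HeightOneSpectrum (𝓞 K)) | p.1 ∈ B ∧ ∀ i, p.2 i ∈ P i ∧ p.1 ∈ (p.2 i).asIdeal} : ℝ) ≤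
      δ * (Hs K H).ncard * ∏ i, ((P i).card : ℝ)

/-- (KMb, 80 lines) The sum over the choices of the blocks.
PROOF. Every `x` of the set on the left belongs to a pair `(x, u)` of one of the sets in the hypothesis (choose `P i ∈ G i`, `u i ∈ P i`). These sets are finite (`B`, `P i` finite). So the left side is at most `∑_(P ∈ ∏ G i) a ∏ s (P i) = a ∏_i ∑_(P∈G i) s P` (`Fintype.piFinset`, `Finset.prod_univ_sum`). -/
def S_KMb : Prop :=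
  ∀ (X V : Type) (k : ℕ) (B : Finset X) (mem : X → V → Prop) (G : Fin k → Finset (Finset V)) (s : Finset V → ℝ) (a : ℝ),
    (∀ P : Fin k → Finset V, (∀ i, P i ∈ G i) →
      (Set.ncard {p : X × (Fin k → V) | p.1 ∈ B ∧ ∀ i, p.2 i ∈ P i ∧ mem p.1 (p.2 i)} : ℝ) ≤ a * ∏ i, s (P i)) →
    (Set.ncard {x : X | x ∈ B ∧ ∀ i, ∃ P ∈ G i, ∃ v ∈ P, mem x v} : ℝ) ≤ a * ∏ i, ∑ P ∈ G i, s P

/-! ### Cubes -/

/-- (KLi, 120 lines) Linear independence of the logarithms.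
PROOF. Clear denominators: integers `c i`, not all zero, with `∑ c i (log φ(y (v true i)) - log φ(y (v false i))) = 0`. Exponentiate (`y ≠ 0`, `φ` injective): `∏ (φ y(v true i)/φ y(v false i))^(c i) = 1` (`zpow`), so in `𝓞 K`: `∏_(c i > 0) y(v true i)^|c i| ∏_(c i < 0) y(v false i)^|c i| = ∏_(c i > 0) y(v false i)^|c i| ∏_(c i < 0) y(v true i)^|c i|`. If `c i0 > 0` the prime ideal `w = v true i0` contains the left side
(`y (v true i0) ∈ w`), so it contains some factor `y (v s i)` of the right side, where `(s, i) ≠ (true, i0)`: contradiction. If `c i0 < 0` use `w = v true i0` and the other side. -/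
def S_KLi : Prop :=
  ∀ (K : Type) [Field K] [NumberField K] (φ : K →+* ℂ) (k : ℕ) (v : Bool → Fin k → HeightOneSpectrum (𝓞 K)) (y : HeightOneSpectrum (𝓞 K) → 𝓞 K),
    (∀ s i, y (v s i) ≠ 0 ∧ y (v s i) ∈ (v s i).asIdeal) → (∀ s i s' i', (s, i) ≠ (s', i') → y (v s' i') ∉ (v s i).asIdeal) →
    LinearIndependent ℚ (fun i => Complex.log (φ (y (v true i) : K)) - Complex.log (φ (y (v false i) : K)))

/-- (KBr, 250 lines, uses BMn, BVf, BBa) The cube theorem for principal logarithms.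
PROOF. `k0 = kk e`, `k = 4 k0`, `L i = log z(true, i) - log z(false, i)`, `θ i = Im (L i)`, `|θ i| ≤ 1/k`. `α_W = c ∏ z(decide (i ∈ W), i) ≠ 0`, `ℓ = log α_∅`. `exp (ℓ + ∑_(i∈W) L i) = α_W`, so `log α_W = ℓ + ∑_(i∈W) L i + 2 π i ν_W`, `ν_W ∈ ℤ`. With `s(W) = Im ℓ + ∑_(i∈W) θ i`: `ν_W = 0` if `-π < s(W) ≤ π`, `ν_W = -1` if `π < s(W) ≤ 3π`, `ν_W = 1` if `-3π < s(W) ≤ -π`; always `|s(W)| ≤ π + 1 < 3π`.
At least `2 k0` of the `k` indices have `θ i ≥ 0`, or at least `2 k0` have `θ i ≤ 0`; let `I` be a set of `2 k0` such indices, `I = I1 ∪ I2` disjoint, `k0` elements each. Case `θ ≥ 0` on `I`: if `s(I1) ≤ π` then `ν_W = 0` for all `W ⊆ I1` (`-π < Im ℓ ≤ s(W) ≤ s(I1)`); otherwise `ν_W = -1` for all `W = I1 ∪ W'`, `W' ⊆ I2`. Case `θ ≤ 0`: if `s(I1) > -π` then `ν_W = 0` for all `W ⊆ I1`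
(`s(I1) ≤ s(W) ≤ Im ℓ ≤ π`), otherwise `ν_W = 1` for `W = I1 ∪ W'`. So in all cases there are `W0`, a set `J` of `k0` indices disjoint from `W0` and `ν` such that `lam + log α_(W0 ∪ W') = L0 + ∑_(i∈W') L i` for all `W' ⊆ J`, `L0 = lam + ℓ + ∑_(W0) L i + 2 π i ν`. BBa: `v`. BMn for `L ∘ (Fin k0 ≃ J)` (linearly independent, `exp (L i) = z(true,i)/z(false,i)` algebraic): `W' ⊆ J` with algebraically independent
`exp (v j l)`, `l = lam + log α_(W0 ∪ W')`. `exp l = exp lam * α` is algebraic, so `Good F l` by BVf. (`kk e` unfolds to the number in BMn.) -/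
def S_KBr : Prop :=
  ∀ (e : ℕ) (F : IntermediateField ℚ ℂ), FiniteDimensional ℚ F → Module.finrank ℚ F = e + 1 → ∀ (lam c : ℂ) (z : Bool → Fin (4 * kk e) → ℂ),
    IsAlgebraic ℚ (Complex.exp lam) → IsAlgebraic ℚ c → c ≠ 0 → (∀ s i, IsAlgebraic ℚ (z s i) ∧ z s i ≠ 0) →
    LinearIndependent ℚ (fun i => Complex.log (z true i) - Complex.log (z false i)) →
    (∀ i, |(Complex.log (z true i) - Complex.log (z false i)).im| * (4 * kk e) ≤ 1) →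
    ∃ W : Finset (Fin (4 * kk e)), Good F (lam + Complex.log (c * ∏ i, z (decide (i ∈ W)) i))

/-! ### The theorem -/

/-- (KNo, 120 lines, uses KBr, KLi) There is no cube of bad numbers.
PROOF. Suppose there are such `x_W ∈ B` for all `W`. `v s i = u' i` for `s = true`, `u i` for `s = false`. The `8 kk e` primes `v s i` are different (the `P i` are disjoint, `u i ≠ u' i`) and of norm `> N0`, so the hypotheses of KLi hold. `z s i = φ (y (v s i))`, algebraic, nonzero; `c = φ(β)/m^(4 kk e)`, `c ≠ 0` (`x_W ≠ 0`, so `β ≠ 0`). `φ(x_W) = c ∏ z (decide (i ∈ W)) i` (the hypothesis on the equation, `y (if i ∈ W then u' i else u i)`).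
Imaginary part of `log z(true,i) - log z(false,i)` = the difference of the arguments, small by hypothesis. KBr: `Good F (lam + log φ(x_W))` for some `W`, contradiction to `x_W ∈ B`. -/
def S_KNo : Prop :=
  ∀ (e : ℕ) (F : IntermediateField ℚ ℂ), FiniteDimensional ℚ F → Module.finrank ℚ F = e + 1 → ∀ (lam : ℂ), IsAlgebraic ℚ (Complex.exp lam) →
    ∀ (K : Type) [Field K] [NumberField K] (φ : K →+* ℂ) (m N0 : ℕ) (y : HeightOneSpectrum (𝓞 K) → 𝓞 K) (B : Finset (𝓞 K))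
    (P : Fin (4 * kk e) → Finset (HeightOneSpectrum (𝓞 K))), 1 ≤ m → (∀ v, y v ≠ 0 ∧ y v ∈ v.asIdeal) →
    (∀ v w, w ≠ v → N0 < nm w → y v ∉ w.asIdeal) → (∀ i, ∀ v ∈ P i, N0 < nm v) → (∀ i j, i ≠ j → Disjoint (P i) (P j)) →
    (∀ i, ∀ v ∈ P i, ∀ w ∈ P i, |Complex.arg (φ (y v : K)) - Complex.arg (φ (y w : K))| * (4 * kk e) ≤ 1) →
    (∀ x ∈ B, x ≠ 0 ∧ ¬ Good F (lam + Complex.log (φ (x : K)))) →
    ∀ (β : 𝓞 K) (u u' : Fin (4 * kk e) → HeightOneSpectrum (𝓞 K)), (∀ i, u i ∈ P i ∧ u' i ∈ P i ∧ u i ≠ u' i) →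
      ¬ ∀ W : Finset (Fin (4 * kk e)), ∃ x ∈ B, (m : 𝓞 K) ^ (4 * kk e) * x = β * ∏ i, y (if i ∈ W then u' i else u i)

/-- (KMc, 200 lines, uses KHs, KYv, KDi, KMa) The count for one choice of the blocks, final form. (`C1` is the constant of KHs, `C2` the constant of KYv.)
PROOF. `n = dg K`, `q i` = the minimum of `nm v` over `v ∈ P i` (nonempty as `R ≥ 1`), `q i ≥ 1`. `H = m^k C1 T ∏_i (C2/q i)^(1/n)` (real power), `H ≥ 0`. For `x ∈ B`, `u` as in KMa: `u` is injective (disjoint `P i`); KDi: `m^k x = β ∏ y (u i)`; for every `σ`: `‖σ β‖ = m^k ‖σ x‖ / ∏ ‖σ (y (u i))‖`, `‖σ x‖ ≤ C1 T` (KHs, `x ∈ Bx K T`), `‖σ (y (u i))‖^n ≥ nm (u i)/C2 ≥ q i/C2`. So `β ∈ Hs K H`.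
KHs: `(Hs K H).ncard ≤ (C1 H + 1)^n ≤ (2 C1 H)^n` if `C1 H ≥ 1`, which holds if `T ≥ T0` where `T0` is such that `m^k C1^2 T0 ≥ ∏ (q i/C2)^(1/n)` (e.g. `T0 ≥ ∏ (q i)`, since `q i^(1/n) ≤ q i`, `C1, C2, m ≥ 1`; so the hypothesis `∏ nm ≤ T` below suffices: `∏_i q i ≤ T`). `(2 C1 H)^n = (2 C1^2 m^k T)^n ∏ (C2/q i)`. `R/q i ≤ 2 ∑_(v∈P i) 1/nm v` since `nm v ≤ 2 q i` for all `v ∈ P i`. KMa:
the number is at most `δ (2 C1^2 m^k T)^n ∏ (C2 R/q i) ≤ δ (2 C1^2 m^k T)^n (2 C2)^k ∏_i ∑_(v∈P i) 1/nm v`. -/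
def S_KMc : Prop :=
  ∀ (K : Type) [Field K] [NumberField K] (m N0 : ℕ) (C1 C2 : ℝ) (y : HeightOneSpectrum (𝓞 K) → 𝓞 K), 1 ≤ dg K → 1 ≤ C1 → 1 ≤ C2 → 1 ≤ m →
    (∀ (x : 𝓞 K) (H : ℝ), (∀ i, ((|co x i| : ℤ) : ℝ) ≤ H) → ∀ σ : K →+* ℂ, ‖σ (x : K)‖ ≤ C1 * H) →
    (∀ H : ℝ, 0 ≤ H → (Hs K H).Finite ∧ ((Hs K H).ncard : ℝ) ≤ (C1 * H + 1) ^ dg K) →
    (∀ v, y v ≠ 0 ∧ ∀ σ : K →+* ℂ, (nm v : ℝ) ≤ C2 * ‖σ (y v : K)‖ ^ dg K) →
    (∀ v w, w ≠ v → N0 < nm w → y v ∉ w.asIdeal) → (∀ v, ∀ x ∈ v.asIdeal, ∃ z : 𝓞 K, (m : 𝓞 K) * x = y v * z) →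
    ∀ (k R T : ℕ) (P : Fin k → Finset (HeightOneSpectrum (𝓞 K))) (B : Finset (𝓞 K)) (δ : ℝ), 0 < δ → 1 ≤ R → (∀ x ∈ B, x ∈ Bx K T) →
    (∀ i, (P i).card = R ∧ ∀ v ∈ P i, N0 < nm v ∧ ∀ w ∈ P i, nm v ≤ 2 * nm w) → (∀ i j, i ≠ j → Disjoint (P i) (P j)) →
    (∀ u : Fin k → HeightOneSpectrum (𝓞 K), (∀ i, u i ∈ P i) → ∏ i, nm (u i) ≤ T) →
    (∀ S : Set (Fin k → HeightOneSpectrum (𝓞 K)), δ * ∏ i, ((P i).card : ℝ) ≤ (Set.ncard {u : Fin k → HeightOneSpectrum (𝓞 K) | (∀ i, u i ∈ P i) ∧ u ∈ S} : ℝ) →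
      ∃ u u' : Fin k → HeightOneSpectrum (𝓞 K), (∀ i, u i ∈ P i ∧ u' i ∈ P i ∧ u i ≠ u' i) ∧ ∀ W : Finset (Fin k), (fun i => if i ∈ W then u' i else u i) ∈ S) →
    (∀ (β : 𝓞 K) (u u' : Fin k → HeightOneSpectrum (𝓞 K)), (∀ i, u i ∈ P i ∧ u' i ∈ P i ∧ u i ≠ u' i) →
      ¬ ∀ W : Finset (Fin k), ∃ x ∈ B, (m : 𝓞 K) ^ k * x = β * ∏ i, y (if i ∈ W then u' i else u i)) →
    (Set.ncard {p : 𝓞 K × (Fin k → HeightOneSpectrum (𝓞 K)) | p.1 ∈ B ∧ ∀ i, p.2 i ∈ P i ∧ p.1 ∈ (p.2 i).asIdeal} : ℝ) ≤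
      δ * (2 * C1 ^ 2 * (m : ℝ) ^ k * T) ^ dg K * (2 * C2) ^ k * ∏ i, ∑ v ∈ P i, (1 : ℝ) / nm v

/-- (KMn, 250 lines, uses KHs, KYv, KSv, KDv, KCl, KKs, KNo, KMc, KMb) THE MAIN THEOREM in coordinate boxes. Uniform in `F` and `lam`.
PROOF. `n = dg K`, `k = 4 kk e ≥ 1`. `C1` from KHs; `C2, m, N0, y` from KYv. `σ0 ≥ 0` with `exp(-σ0) ≤ ε/(4k)`. `δ > 0` with `δ (2 C1^2 m^k)^n (2 C2)^k (σ0+1)^k ≤ ε/2`. `R = max R0 1`, `R0` from KKs for `k, δ`. Colours: `M = 26 kk e + 1`, `col v = ⌊(arg φ(y v) + π) M/(2π)⌋₊ ∈ {0, …, M}`, a map to `Fin (M+1)`; equal colours imply `|arg - arg'| ≤ 2π/M ≤ 1/k` (`M ≥ 8π kk e`).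
KCl for `N = nm` (KDv), `col`, `R, k, N0, σ0`: `G`. `Q i` = the union of the blocks of `G i`: `∑_(v∈Q i) 1/nm v = ∑_(P∈G i) ∑_(v∈P) 1/nm v ≥ σ0` (disjoint). `T0` = the maximum of the `T0` of KSv for `Q i`, `ε/(4k)`, and of all products `∏ nm (u i)` with `u i ∈ Q i` (finitely many). Let `T ≥ T0`, `F, lam`, `B` = the finite set of the bad `x ∈ Bx K T`, `x ≠ 0`. The `x ∈ B` such that for some `i` no `v ∈ Q i` contains `x`:
at most `k (exp(-σ0) + ε/(4k)) (2T+1)^n ≤ (ε/2) (2T+1)^n` (KSv). The others: KMb with `mem x v = (x ∈ v.asIdeal)`, `s P = ∑_(v∈P) 1/nm v`, `a = δ (2 C1^2 m^k T)^n (2 C2)^k`, hypothesis from KMc (cubes: KKs and KNo; blocks in different `G i` are disjoint): at most `a (σ0+1)^k ≤ (ε/2) T^n ≤ (ε/2) (2T+1)^n`. -/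
def S_KMn : Prop :=
  ∀ (e : ℕ) (K : Type) [Field K] [NumberField K] (φ : K →+* ℂ) (ε : ℝ), 0 < ε → ∃ T0 : ℕ, ∀ T : ℕ, T0 ≤ T →
    ∀ F : IntermediateField ℚ ℂ, FiniteDimensional ℚ F → Module.finrank ℚ F = e + 1 → ∀ lam : ℂ, IsAlgebraic ℚ (Complex.exp lam) →
    (Set.ncard {x : 𝓞 K | x ∈ Bx K T ∧ x ≠ 0 ∧ ¬ Good F (lam + Complex.log (φ (x : K)))} : ℝ) ≤ ε * (2 * (T : ℝ) + 1) ^ dg K

/-- (KFn, 150 lines, uses KHs, KMn) THE FINAL THEOREM: ordering by the largest conjugate, several determinations, all degrees `≤ D`.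
PROOF. `n = dg K`, `C` from KHs (`C ≥ 1`). `ε' = ε/((2N+1) (5 C^2)^n)`, `T0'` = the maximum of the `T0` of KMn for `ε'` and `e < D`; `T0 ≥ T0'`, `T0 ≥ 1`. Let `T ≥ T0` be real, `T1 = ⌈C T⌉₊ ≥ T0'`. `Hs K T ⊆ Bx K T1` (KHs). For each `ν` (`2N+1` values) KMn with `lam + 2 π i ν` (`exp` does not change): at most `ε' (2 T1 + 1)^n ≤ ε' (5 C T)^n` bad `x` (`2 T1 + 1 ≤ 2 C T + 3 ≤ 5 C T`). Together at most
`(2N+1) ε' (5 C T)^n = ε (T/C)^n ≤ ε (Hs K T).ncard` (KHs). (`D = 0` is impossible: `finrank ≥ 1`.) -/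
def S_KFn : Prop :=
  ∀ (K : Type) [Field K] [NumberField K] (φ : K →+* ℂ) (D N : ℕ) (ε : ℝ), 0 < ε → ∃ T0 : ℝ, ∀ T : ℝ, T0 ≤ T →
    ∀ F : IntermediateField ℚ ℂ, FiniteDimensional ℚ F → Module.finrank ℚ F ≤ D → ∀ lam : ℂ, IsAlgebraic ℚ (Complex.exp lam) →
    (Hs K T).Finite ∧
    (Set.ncard {x : 𝓞 K | x ∈ Hs K T ∧ x ≠ 0 ∧ ∃ ν : ℤ, |ν| ≤ (N : ℤ) ∧
      ¬ Good F (lam + (Complex.log (φ (x : K)) + 2 * Real.pi * Complex.I * ν))} : ℝ) ≤ ε * ((Hs K T).ncard : ℝ)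

end Pool.Agent.SGK
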